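import Pool.Agent.H3.LC.Defs

/-!
# ASY: numerical inequalities (only natural numbers)

`m ≤ n`, `n^24 ≤ m^25`, `n ≥ N0`. Tool: `m^(25 j) ≥ n^(24 j)`.
-/

set_option autoImplicit false

namespace Pool.Agent.H3.LC

theorem ASY0 : ∃ N0 : ℕ, ∀ n m : ℕ, N0 ≤ n → m ≤ n → n ^ 24 ≤ m ^ 25 →
    ∃ h : ℕ, 0 < h ∧ h ≤ m ∧ 2500 * h ^ 2 * n ≤ m ^ 3 ∧ m ^ 3 ≤ 10000 * h ^ 2 * n := by
  refine ⟨2500, fun n m hn hm hp => ?_⟩
  have hn0 : 0 < n := by omega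
  have h1 : 2500 * n ≤ m ^ 3 := by
    by_contra hcon
    push Not at hcon
    have e1 : (m ^ 3) ^ 25 < (2500 * n) ^ 25 := Nat.pow_lt_pow_left hcon (by norm_num)
    have e2 : (n ^ 24) ^ 3 ≤ (m ^ 25) ^ 3 := Nat.pow_le_pow_left hp 3
    have e3 : n ^ 72 < 2500 ^ 25 * n ^ 25 := by
      calc n ^ 72 = (n ^ 24) ^ 3 := by rw [← pow_mul]
        _ ≤ (m ^ 25) ^ 3 := e2
        _ = (m ^ 3) ^ 25 := by rw [← pow_mul, ← pow_mul]
        _ < (2500 * n) ^ 25 := e1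
        _ = 2500 ^ 25 * n ^ 25 := mul_pow _ _ _
    have e4 : 2500 ^ 25 * n ^ 25 ≤ n ^ 25 * n ^ 25 :=
      Nat.mul_le_mul_right _ (Nat.pow_le_pow_left hn 25)
    have e5 : n ^ 25 * n ^ 25 ≤ n ^ 72 := by
      rw [← pow_add]
      exact Nat.pow_le_pow_right hn0 (by norm_num)
    exact absurd (lt_of_lt_of_le e3 (e4.trans e5)) (lt_irrefl _)
  have hd : 0 < 2500 * n := by omega
  set q := m ^ 3 / (2500 * n) with hq
  have q1 : 1 ≤ q := (Nat.one_le_div_iff hd).2 h1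
  have q2 : q * (2500 * n) ≤ m ^ 3 := Nat.div_mul_le_self _ _
  have q3 : m ^ 3 < (q + 1) * (2500 * n) := by
    rw [← Nat.div_lt_iff_lt_mul hd]
    exact Nat.lt_succ_self _
  have s1 : Nat.sqrt q * Nat.sqrt q ≤ q := Nat.sqrt_le q
  have s2 : q < (Nat.sqrt q + 1) * (Nat.sqrt q + 1) := Nat.lt_succ_sqrt q
  set h := Nat.sqrt q with hh
  have hpos : 0 < h := by
    rcases Nat.eq_zero_or_pos h with h0 | h0
    · rw [h0] at s2
      omega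
    · exact h0
  have c1 : 2500 * h ^ 2 * n ≤ m ^ 3 := by
    calc 2500 * h ^ 2 * n = (h * h) * (2500 * n) := by ring
      _ ≤ q * (2500 * n) := Nat.mul_le_mul_right _ s1
      _ ≤ m ^ 3 := q2
  refine ⟨h, hpos, ?_, c1, ?_⟩
  · by_contra hcon
    push Not at hcon
    have hm0 : 0 < m := by
      rcases Nat.eq_zero_or_pos m with h0 | h0
      · rw [h0] at h1
        norm_num at h1
        omega
      · exact h0
    have e1 : m ^ 2 < h ^ 2 := Nat.pow_lt_pow_left hcon (by norm_num)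
    have e2 : m ^ 3 ≤ m ^ 2 * n := by
      rw [pow_succ m 2]
      exact Nat.mul_le_mul_left _ hm
    have e3 : m ^ 2 * n < h ^ 2 * n := Nat.mul_lt_mul_of_pos_right e1 hn0
    nlinarith
  · have e1 : (q + 1) * (2500 * n) ≤ ((h + 1) * (h + 1)) * (2500 * n) :=
      Nat.mul_le_mul_right _ s2
    have e2 : (h + 1) * (h + 1) ≤ (2 * h) * (2 * h) := Nat.mul_le_mul (by omega) (by omega)
    have e3 : ((h + 1) * (h + 1)) * (2500 * n) ≤ ((2 * h) * (2 * h)) * (2500 * n) :=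
      Nat.mul_le_mul_right _ e2
    calc m ^ 3 ≤ (q + 1) * (2500 * n) := q3.le
      _ ≤ ((2 * h) * (2 * h)) * (2500 * n) := e1.trans e3
      _ = 10000 * h ^ 2 * n := by ring

theorem ASYa_big (C n m : ℕ) (hC : 0 < C) (hn : C ^ 3 ≤ n) (hp : n ^ 24 ≤ m ^ 25) :
    C * n ^ 13 ≤ m ^ 14 := by
  have hn0 : 0 < n := lt_of_lt_of_le (pow_pos hC 3) hn
  by_contra hcon
  push Not at hcon
  have e1 : (m ^ 14) ^ 25 < (C * n ^ 13) ^ 25 := Nat.pow_lt_pow_left hcon (by norm_num)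
  have e2 : (n ^ 24) ^ 14 ≤ (m ^ 25) ^ 14 := Nat.pow_le_pow_left hp 14
  have e3 : n ^ 336 < C ^ 25 * n ^ 325 := by
    calc n ^ 336 = (n ^ 24) ^ 14 := by rw [← pow_mul]
      _ ≤ (m ^ 25) ^ 14 := e2
      _ = (m ^ 14) ^ 25 := by rw [← pow_mul, ← pow_mul]
      _ < (C * n ^ 13) ^ 25 := e1
      _ = C ^ 25 * n ^ 325 := by rw [mul_pow, ← pow_mul]
  have e4 : C ^ 25 ≤ n ^ 11 := by
    calc C ^ 25 ≤ C ^ 33 := Nat.pow_le_pow_right hC (by norm_num)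
      _ = (C ^ 3) ^ 11 := by rw [← pow_mul]
      _ ≤ n ^ 11 := Nat.pow_le_pow_left hn 11
  have e5 : C ^ 25 * n ^ 325 ≤ n ^ 11 * n ^ 325 := Nat.mul_le_mul_right _ e4
  rw [← pow_add] at e5
  exact absurd (lt_of_lt_of_le e3 e5) (lt_irrefl _)

theorem ASY1 : ∃ N0 : ℕ, ∀ n m k D h N1 p : ℕ, N0 ≤ n → m ≤ n → n ^ 24 ≤ m ^ 25 → k ≤ n → D ≤ 2 * n →
    2500 * h ^ 2 * n ≤ m ^ 3 → N1 ^ 4 * m ^ 6 ≤ 71639296 * D ^ 9 → p * m ^ 2 ≤ k * (p * N1 + 2 * h * m) →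
    100 * p ^ 2 ≤ m * n := by
  refine ⟨(16 * 71639296 * 512) ^ 3, fun n m k D h N1 p hn hm hp hk hD hh hN hpm => ?_⟩
  have big := ASYa_big (16 * 71639296 * 512) n m (by norm_num) hn hp
  have hn0 : 0 < n := lt_of_lt_of_le (by norm_num) hn
  have hm0 : 0 < m := by
    rcases Nat.eq_zero_or_pos m with h0 | h0
    · rw [h0] at hp
      have : 0 < n ^ 24 := pow_pos hn0 24
      norm_num at hp
      omega
    · exact h0
  -- `2 k N1 ≤ m^2`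
  have a1 : 2 * k * N1 ≤ m ^ 2 := by
    by_contra hcon
    push Not at hcon
    have e1 : (m ^ 2) ^ 4 < (2 * k * N1) ^ 4 := Nat.pow_lt_pow_left hcon (by norm_num)
    have e2 : (m ^ 2) ^ 4 * m ^ 6 < (2 * k * N1) ^ 4 * m ^ 6 :=
      Nat.mul_lt_mul_of_pos_right e1 (pow_pos hm0 6)
    have e3 : (2 * k * N1) ^ 4 * m ^ 6 ≤ 16 * n ^ 4 * (71639296 * (2 * n) ^ 9) := by
      calc (2 * k * N1) ^ 4 * m ^ 6 = 16 * k ^ 4 * (N1 ^ 4 * m ^ 6) := by ring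
        _ ≤ 16 * n ^ 4 * (71639296 * (2 * n) ^ 9) :=
          Nat.mul_le_mul (Nat.mul_le_mul_left _ (Nat.pow_le_pow_left hk 4))
            (hN.trans (Nat.mul_le_mul_left _ (Nat.pow_le_pow_left hD 9)))
    have e4 : 16 * n ^ 4 * (71639296 * (2 * n) ^ 9) = 16 * 71639296 * 512 * n ^ 13 := by ring
    have e5 : (m ^ 2) ^ 4 * m ^ 6 = m ^ 14 := by ring
    rw [e5] at e2
    rw [e4] at e3
    exact absurd (lt_of_lt_of_le e2 (e3.trans big)) (lt_irrefl _)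
  have a2 : p * m ≤ 4 * n * h := by
    have e1 : 2 * (p * m ^ 2) ≤ p * m ^ 2 + 4 * k * h * m := by
      calc 2 * (p * m ^ 2) ≤ 2 * (k * (p * N1 + 2 * h * m)) := Nat.mul_le_mul_left _ hpm
        _ = p * (2 * k * N1) + 4 * k * h * m := by ring
        _ ≤ p * m ^ 2 + 4 * k * h * m := Nat.add_le_add_right (Nat.mul_le_mul_left _ a1) _
    have e2 : (p * m) * m ≤ (4 * k * h) * m := by
      have : p * m ^ 2 = (p * m) * m := by ring
      rw [this] at e1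
      omega
    have e3 : p * m ≤ 4 * k * h := Nat.le_of_mul_le_mul_right e2 hm0
    exact e3.trans (Nat.mul_le_mul_right _ (Nat.mul_le_mul_left _ hk))
  have a3 : (100 * p ^ 2) * m ^ 2 ≤ (m * n) * m ^ 2 := by
    calc (100 * p ^ 2) * m ^ 2 = 100 * (p * m) ^ 2 := by ring
      _ ≤ 100 * (4 * n * h) ^ 2 := Nat.mul_le_mul_left _ (Nat.pow_le_pow_left a2 2)
      _ = 1600 * (n ^ 2 * h ^ 2) := by ring
      _ ≤ 2500 * (n ^ 2 * h ^ 2) := Nat.mul_le_mul_right _ (by norm_num)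
      _ = n * (2500 * h ^ 2 * n) := by ring
      _ ≤ n * m ^ 3 := Nat.mul_le_mul_left _ hh
      _ = (m * n) * m ^ 2 := by ring
  exact Nat.le_of_mul_le_mul_right a3 (pow_pos hm0 2)

end Pool.Agent.H3.LC
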