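import Pool.Agent.H3.LC.Defs

/-!
# ASY: numerical inequalities (only natural numbers)

All of them: `m ≤ n`, `n^24 ≤ m^25`, `n ≥ N0`. Tool: `m^(25 j) ≥ n^(24 j)`.
* `ASY0`: `h = Nat.sqrt (m^3 / (2500 n))`: `2500 h^2 n ≤ m^3`; `m^3 < 2500 n (h+1)^2 ≤ 10000 h^2 n` as `h ≥ 1` (`m^3 ≥ 2500 n`); `h ≤ m` (`h^2 ≤ m^3/(2500 n) ≤ m^2`).
* `ASY1`: `(2 k N1)^4 ≤ 16 n^4 * 71639296 (2n)^9 / m^6 ≤ m^8`, because `m^14 ≥ C n^13` (`m^(25*14) ≥ n^(336)`, `336 > 325 = 25*13`), so `2 k N1 ≤ m^2`,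
  `p m^2 ≤ p m^2 / 2 + 2 k h m`, `p m ≤ 4 k h ≤ 4 n h`, `p^2 m^2 ≤ 16 n^2 h^2 ≤ 16 n m^3 / 2500`.
* `ASY2`: `T = n (n/h) N3`, `T h ≤ n^2 N3`; `T^4 h^8 m^5 ≤ n^8 N3^4 h^4 m^5 ≤ 293434556416 n^8 (2n)^12`; `h^8 ≥ (m^3/(10000 n))^4`, so `T^4 m^17 ≤ C n^24`; `(100 T)^4 ≤ C' n^24 / m^17 ≤ m^4 n^4`
  because `m^21 ≥ C' n^20` (`25*21 = 525`, `24*21 = 504 > 500`).
* `ASY3` (circle): `dv (2n+1) ≤ P + L (2n+1)`, `m ≤ 2 dv + 1`, `20 L < m`, `P ≤ m^2 + 2n + 2T + p^2 ≤ m^2 + 2n + 0.03 m n`: `((m-1)/2 - m/20)(2n+1) ≤ m^2 + 2n + 0.03 mn`, so `0.87 mn ≤ m^2 + 3 n + m`,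
  `m ≥ 0.85 n` for large `n`; `m ≤ 3 + 2L + 2N4 + (n - m)`, `2 L ≤ m/10`: `1.9 m ≤ n + 3 + 2 N4`, `0.6 n ≤ 3 + 2 N4`, but `N4^4 m^9 ≤ C (2n)^12` gives `N4^4 ≤ C' n^3`: contradiction for large `n`.
* `ASY4` (line): `(m - 1 - m/20)(2n+1) ≤ P ≤ m n + 4 T + p^2 ≤ 1.05 m n`: contradiction.
-/

set_option autoImplicit false

namespace Pool.Agent.H3.LC

theorem ASY2 : ∃ N0 : ℕ, ∀ n m D h N3 : ℕ, N0 ≤ n → m ≤ n → n ^ 24 ≤ m ^ 25 → D ≤ 2 * n → 0 < h →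
    m ^ 3 ≤ 10000 * h ^ 2 * n → N3 ^ 4 * h ^ 4 * m ^ 5 ≤ 293434556416 * D ^ 12 →
    100 * (n * (n / h) * N3) ≤ m * n := by
  obtain ⟨C, hC⟩ : ∃ C : ℕ, C = 10 ^ 24 * (293434556416 * 4096) := ⟨_, rfl⟩
  refine ⟨C ^ 25, fun n m D h N3 hn hm hnm hD hh h1 h2 => ?_⟩
  by_contra hc
  push Not at hc
  obtain ⟨T, hT⟩ : ∃ T, T = n * (n / h) * N3 := ⟨_, rfl⟩
  rw [← hT] at hc
  have hC2 : 2 ≤ C := by rw [hC]; norm_num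
  have hC0 : 0 < C := by omega
  have hn2 : 2 ≤ n := by
    have h3 : C ≤ C ^ 25 := Nat.le_self_pow (by norm_num) C
    omega
  have hn0 : 0 < n := by omega
  have e1 : T * h ≤ n ^ 2 * N3 := by
    rw [hT]
    calc n * (n / h) * N3 * h = n * (n / h * h) * N3 := by ring
      _ ≤ n * n * N3 := Nat.mul_le_mul_right _ (Nat.mul_le_mul_left _ (Nat.div_mul_le_self n h))
      _ = n ^ 2 * N3 := by ring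
  have e2 : T ^ 4 * h ^ 8 * m ^ 5 ≤ 293434556416 * 4096 * n ^ 20 := by
    calc T ^ 4 * h ^ 8 * m ^ 5 = (T * h) ^ 4 * (h ^ 4 * m ^ 5) := by ring
      _ ≤ (n ^ 2 * N3) ^ 4 * (h ^ 4 * m ^ 5) := Nat.mul_le_mul_right _ (Nat.pow_le_pow_left e1 4)
      _ = n ^ 8 * (N3 ^ 4 * h ^ 4 * m ^ 5) := by ring
      _ ≤ n ^ 8 * (293434556416 * D ^ 12) := Nat.mul_le_mul_left _ h2
      _ ≤ n ^ 8 * (293434556416 * (2 * n) ^ 12) :=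
          Nat.mul_le_mul_left _ (Nat.mul_le_mul_left _ (Nat.pow_le_pow_left hD 12))
      _ = 293434556416 * 4096 * n ^ 20 := by ring
  have e3 : m ^ 12 ≤ 10 ^ 16 * h ^ 8 * n ^ 4 := by
    calc m ^ 12 = (m ^ 3) ^ 4 := by ring
      _ ≤ (10000 * h ^ 2 * n) ^ 4 := Nat.pow_le_pow_left h1 4
      _ = 10 ^ 16 * h ^ 8 * n ^ 4 := by ring
  have e4 : T ^ 4 * m ^ 17 ≤ 10 ^ 16 * (293434556416 * 4096) * n ^ 24 := by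
    calc T ^ 4 * m ^ 17 = T ^ 4 * m ^ 5 * m ^ 12 := by ring
      _ ≤ T ^ 4 * m ^ 5 * (10 ^ 16 * h ^ 8 * n ^ 4) := Nat.mul_le_mul_left _ e3
      _ = 10 ^ 16 * n ^ 4 * (T ^ 4 * h ^ 8 * m ^ 5) := by ring
      _ ≤ 10 ^ 16 * n ^ 4 * (293434556416 * 4096 * n ^ 20) := Nat.mul_le_mul_left _ e2
      _ = 10 ^ 16 * (293434556416 * 4096) * n ^ 24 := by ring
  have e5 : m ^ 21 * n ^ 4 ≤ C * n ^ 20 * n ^ 4 := by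
    calc m ^ 21 * n ^ 4 = (m * n) ^ 4 * m ^ 17 := by ring
      _ ≤ (100 * T) ^ 4 * m ^ 17 := Nat.mul_le_mul_right _ (Nat.pow_le_pow_left hc.le 4)
      _ = 10 ^ 8 * (T ^ 4 * m ^ 17) := by ring
      _ ≤ 10 ^ 8 * (10 ^ 16 * (293434556416 * 4096) * n ^ 24) := Nat.mul_le_mul_left _ e4
      _ = C * n ^ 20 * n ^ 4 := by rw [hC]; ring
  have e6 : m ^ 21 ≤ C * n ^ 20 := Nat.le_of_mul_le_mul_right e5 (pow_pos hn0 4)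
  have e7 : n ^ 4 * n ^ 500 ≤ C ^ 25 * n ^ 500 := by
    calc n ^ 4 * n ^ 500 = (n ^ 24) ^ 21 := by rw [← pow_add, ← pow_mul]
      _ ≤ (m ^ 25) ^ 21 := Nat.pow_le_pow_left hnm 21
      _ = (m ^ 21) ^ 25 := by rw [← pow_mul, ← pow_mul]
      _ ≤ (C * n ^ 20) ^ 25 := Nat.pow_le_pow_left e6 25
      _ = C ^ 25 * n ^ 500 := by rw [mul_pow, ← pow_mul]
  have e8 : n ^ 4 ≤ C ^ 25 := Nat.le_of_mul_le_mul_right e7 (pow_pos hn0 500)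
  have e9 : n ^ 1 < n ^ 4 := Nat.pow_lt_pow_right (by omega) (by norm_num)
  rw [pow_one] at e9
  omega

end Pool.Agent.H3.LC
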