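import Pool.Agent.H3.LC.Defs

/-!
# ASY: numerical inequalities (only natural numbers)

All of them: `m ≤ n`, `n^24 ≤ m^25`, `n ≥ N0`. Tool: `m^(25 j) ≥ n^(24 j)`.
* `ASY0`: `h = Nat.sqrt (m^3 / (2500 n))`: `2500 h^2 n ≤ m^3`; `m^3 < 2500 n (h+1)^2 ≤ 10000 h^2 n` as `h ≥ 1` (`m^3 ≥ 2500 n`); `h ≤ m` (`h^2 ≤ m^3/(2500 n) ≤ m^2`).
* `ASY1`: `(2 k N1)^4 ≤ 16 n^4 * 71639296 (2n)^9 / m^6 ≤ m^8`, because `m^14 ≥ C n^13` (`m^(25*14) ≥ n^(336)`, `336 > 325 = 25*13`), so `2 k N1 ≤ m^2`,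
  `p m^2 ≤ p m^2 / 2 + 2 k h m`, `p m ≤ 4 k h ≤ 4 n h`, `p^2 m^2 ≤ 16 n^2 h^2 ≤ 16 n m^3 / 2500`.
* `ASY2`: `T = n (n/h) N3`, `T h ≤ n^2 N3`; `T^4 h^8 m^5 ≤ n^8 N3^4 h^4 m^5 ≤ 293434556416 n^8 (2n)^12`; `h^8 ≥ (m^3/(10000 n))^4`, so `T^4 m^17 ≤ C n^24`; `(100 T)^4 ≤ C' n^24 / m^17 ≤ m^4 n^4`
  because `m^21 ≥ C' n^20` (`25*21 = 525`, `24*21 = 504 > 500`).
* `ASY3` (circle): `dv (2n+1) ≤ P + L (2n+1)`, `m ≤ 2 dv + 1`, `20 L < m`, `P ≤ m^2 + 2n + 2T + p^2 ≤ m^2 + 2n + 0.03 m n`: `((m-1)/2 - m/20)(2n+1) ≤ m^2 + 2n + 0.03 mn`, so `0.87 mn ≤ m^2 + 3 n + m`,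
  `m ≥ 0.85 n` for large `n`; `m ≤ 3 + 2L + 2N4 + (n - m)`, `2 L ≤ m/10`: `1.9 m ≤ n + 3 + 2 N4`, `0.6 n ≤ 3 + 2 N4`, but `N4^4 m^9 ≤ C (2n)^12` gives `N4^4 ≤ C' n^3`: contradiction for large `n`.
* `ASY4` (line): `(m - 1 - m/20)(2n+1) ≤ P ≤ m n + 4 T + p^2 ≤ 1.05 m n`: contradiction.
-/

set_option autoImplicit false

namespace Pool.Agent.H3.LC

theorem ASY3 : ∃ N0 : ℕ, ∀ n m L D N4 p T P dv : ℕ, N0 ≤ n → m ≤ n → n ^ 24 ≤ m ^ 25 → D ≤ 2 * n → 20 * L < m →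
    100 * p ^ 2 ≤ m * n → 100 * T ≤ m * n → P ≤ m ^ 2 + 2 * n + 2 * T + p ^ 2 →
    dv * (2 * n + 1) ≤ P + L * (2 * n + 1) → m ≤ 2 * dv + 1 → N4 ^ 4 * m ^ 9 ≤ 4477456 * D ^ 12 →
    m ≤ 3 + 2 * L + 2 * N4 + (n - m) → False := by
  refine ⟨10 ^ 14, ?_⟩
  intro n m L D N4 p T P dv hn hmn hpow hD hL hp hT hP hdv hm hN4 hfin
  have hm300 : 300 ≤ m := by
    by_contra h
    have h0 : m ≤ 299 := by omega
    have h1 : m ^ 25 ≤ 299 ^ 25 := Nat.pow_le_pow_left h0 25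
    have h2 : (10 ^ 14) ^ 24 ≤ n ^ 24 := Nat.pow_le_pow_left hn 24
    have h3 : (299 : ℕ) ^ 25 < (10 ^ 14) ^ 24 := by norm_num
    exact absurd (h2.trans (hpow.trans h1)) (not_le.2 h3)
  have e1 : m * (2 * n + 1) ≤ (2 * dv + 1) * (2 * n + 1) := Nat.mul_le_mul_right _ hm
  have e2 : (20 * L) * (2 * n + 1) ≤ m * (2 * n + 1) := Nat.mul_le_mul_right _ hL.le
  have key : 174 * (m * n) + 90 * m ≤ 200 * (m * m) + 600 * n + 100 := by nlinarith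
  have hmm : 300 * n ≤ m * n := Nat.mul_le_mul_right _ hm300
  have h172 : 172 * (m * n) ≤ 200 * (m * m) + 100 := by linarith
  have h172' : 172 * n ≤ 200 * m + 1 := by
    by_contra h
    have h0 : 200 * m + 2 ≤ 172 * n := by omega
    have h1 : m * (200 * m + 2) ≤ m * (172 * n) := Nat.mul_le_mul_left _ h0
    nlinarith
  have hn' : (10 : ℕ) ^ 14 ≤ n := hn
  have h85 : 85 * n ≤ 100 * m := by omega
  have h30 : 30 * n ≤ 100 * N4 := by omega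
  have f1 : (30 * n) ^ 4 ≤ (100 * N4) ^ 4 := Nat.pow_le_pow_left h30 4
  have f2 : (85 * n) ^ 9 ≤ (100 * m) ^ 9 := Nat.pow_le_pow_left h85 9
  have f3 : (30 * n) ^ 4 * (85 * n) ^ 9 ≤ (100 * N4) ^ 4 * (100 * m) ^ 9 := Nat.mul_le_mul f1 f2
  have f4 : D ^ 12 ≤ (2 * n) ^ 12 := Nat.pow_le_pow_left hD 12
  have f5 : (100 * N4) ^ 4 * (100 * m) ^ 9 = 100 ^ 13 * (N4 ^ 4 * m ^ 9) := by ring
  have f6 : 100 ^ 13 * (N4 ^ 4 * m ^ 9) ≤ 100 ^ 13 * (4477456 * (2 * n) ^ 12) :=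
    Nat.mul_le_mul_left _ (hN4.trans (Nat.mul_le_mul_left _ f4))
  have f7 : (30 * n) ^ 4 * (85 * n) ^ 9 = (30 ^ 4 * 85 ^ 9 * n) * n ^ 12 := by ring
  have f8 : 100 ^ 13 * (4477456 * (2 * n) ^ 12) = (100 ^ 13 * 4477456 * 2 ^ 12) * n ^ 12 := by ring
  have f9 : (30 ^ 4 * 85 ^ 9 * n) * n ^ 12 ≤ (100 ^ 13 * 4477456 * 2 ^ 12) * n ^ 12 := by
    rw [← f7, ← f8]
    exact f3.trans (f5 ▸ f6)
  have hpos : 0 < n ^ 12 := Nat.pow_pos (lt_of_lt_of_le (by norm_num) hn)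
  have f10 : 30 ^ 4 * 85 ^ 9 * n ≤ 100 ^ 13 * 4477456 * 2 ^ 12 := Nat.le_of_mul_le_mul_right f9 hpos
  have f11 : 30 ^ 4 * 85 ^ 9 * 10 ^ 14 ≤ 30 ^ 4 * 85 ^ 9 * n := Nat.mul_le_mul_left _ hn
  have f12 : (100 : ℕ) ^ 13 * 4477456 * 2 ^ 12 < 30 ^ 4 * 85 ^ 9 * 10 ^ 14 := by norm_num
  exact absurd (f11.trans f10) (not_le.2 f12)

theorem ASY4 : ∃ N0 : ℕ, ∀ n m L p T P dv : ℕ, N0 ≤ n → m ≤ n → n ^ 24 ≤ m ^ 25 → 20 * L < m →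
    100 * p ^ 2 ≤ m * n → 100 * T ≤ m * n → P ≤ m * n + 4 * T + p ^ 2 →
    dv * (2 * n + 1) ≤ P + L * (2 * n + 1) → m ≤ dv + 1 → False := by
  refine ⟨10, ?_⟩
  intro n m L p T P dv hn hmn hpow hL hp hT hP hdv hm
  have hm3 : 3 ≤ m := by
    by_contra h
    have h0 : m ≤ 2 := by omega
    have h1 : m ^ 25 ≤ 2 ^ 25 := Nat.pow_le_pow_left h0 25
    have h2 : 10 ^ 24 ≤ n ^ 24 := Nat.pow_le_pow_left hn 24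
    have h3 : (2 : ℕ) ^ 25 < 10 ^ 24 := by norm_num
    exact absurd (h2.trans (hpow.trans h1)) (not_le.2 h3)
  have e1 : m * (2 * n + 1) ≤ (dv + 1) * (2 * n + 1) := Nat.mul_le_mul_right _ hm
  have e2 : (20 * L) * (2 * n + 1) ≤ m * (2 * n + 1) := Nat.mul_le_mul_right _ hL.le
  have key : 85 * (m * n) + 95 * m ≤ 200 * n + 100 := by nlinarith
  have hmm : 3 * n ≤ m * n := Nat.mul_le_mul_right _ hm3
  omega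

end Pool.Agent.H3.LC
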