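import Pool.Agent.H3.LC.CLaw

/-!
# BAS: basic counts

* `kbound`: the `|A| (|A| - 1)` ordered pairs; each distance which is not low has at least `2 |A| + 1`: `(k - L)(2n+1) ≤ n (n-1)`, so `2 (k - L) ≤ n`.
* `pairLB`: at least `|dset V| - L` distances of `V` (`dset V ⊆ dset A`) are not low for `A`; each has at least `2n+1` ordered pairs of `A`; different distances have different pairs.
* `dset_circ`: from one point of the circle the other `m - 1` points have each distance at most twice (`near2`), all in `dset`.
* `mult_circ`: each of the `m` points has at most two partners at distance `d` (`near2`).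
-/

set_option autoImplicit false

namespace Pool.Agent.H3.LC

open scoped Pointwise
open Classical

private theorem BAS_sum (A : Finset Plane) (D : Finset ℝ)
    (hD : ∀ d ∈ D, 2 * A.card + 1 ≤ (A.offDiag.filter (fun p => dist p.1 p.2 = d)).card) :
    D.card * (2 * A.card + 1) ≤ (A.offDiag.filter (fun p => dist p.1 p.2 ∈ D)).card := by
  have h1 := Finset.card_eq_sum_card_fiberwise (s := A.offDiag.filter (fun p => dist p.1 p.2 ∈ D))
    (t := D) (f := fun p : Plane × Plane => dist p.1 p.2)
    (fun p hp => (Finset.mem_filter.1 hp).2)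
  rw [h1, ← smul_eq_mul, ← Finset.sum_const]
  refine Finset.sum_le_sum fun d hd => (hD d hd).trans (Finset.card_le_card ?_)
  intro p hp
  rw [Finset.mem_filter] at hp
  rw [Finset.mem_filter, Finset.mem_filter]
  exact ⟨⟨hp.1, by rw [hp.2]; exact hd⟩, hp.2⟩

private theorem BAS_lowset (A : Finset Plane) (D : Finset ℝ) (hD : D ⊆ dset A) :
    D.card ≤ (D.filter (fun d => ¬ (A.offDiag.filter (fun p => dist p.1 p.2 = d)).card ≤
      2 * A.card)).card + low A := by
  have h1 := Finset.card_filter_add_card_filter_not (s := D)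
    (fun d => (A.offDiag.filter (fun p => dist p.1 p.2 = d)).card ≤ 2 * A.card)
  have h2 : (D.filter (fun d => (A.offDiag.filter (fun p => dist p.1 p.2 = d)).card ≤
      2 * A.card)).card ≤ low A := by
    unfold low
    exact Finset.card_le_card (Finset.filter_subset_filter _ hD)
  omega

theorem kbound (A : Finset Plane) : 2 * (dset A).card ≤ 2 * low A + A.card := by
  have h1 := BAS_lowset A (dset A) (Finset.Subset.refl _)
  obtain ⟨D, hD⟩ : ∃ D, D = (dset A).filter (fun d => ¬ (A.offDiag.filter
    (fun p => dist p.1 p.2 = d)).card ≤ 2 * A.card) := ⟨_, rfl⟩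
  rw [← hD] at h1
  have h2 := BAS_sum A D (fun d hd => by
    rw [hD, Finset.mem_filter] at hd
    have := hd.2
    omega)
  have h3 : (A.offDiag.filter (fun p => dist p.1 p.2 ∈ D)).card ≤ A.card * A.card := by
    refine (Finset.card_filter_le _ _).trans ?_
    rw [Finset.offDiag_card]
    exact Nat.sub_le _ _
  have h4 : 2 * D.card ≤ A.card := by
    by_contra hc
    push Not at hc
    have h5 : (A.card + 1) * (2 * A.card + 1) ≤ 2 * D.card * (2 * A.card + 1) :=
      Nat.mul_le_mul_right _ hc
    nlinarith
  omega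

theorem pairLB (A V : Finset Plane) (hV : V ⊆ A) :
    (dset V).card * (2 * A.card + 1) ≤
      (A.offDiag.filter (fun p => dist p.1 p.2 ∈ dset V)).card + low A * (2 * A.card + 1) := by
  have hsub : dset V ⊆ dset A := by
    unfold dset
    refine Finset.image_subset_image fun p hp => ?_
    rw [Finset.mem_offDiag] at hp ⊢
    exact ⟨hV hp.1, hV hp.2.1, hp.2.2⟩
  have h1 := BAS_lowset A (dset V) hsub
  obtain ⟨D, hD⟩ : ∃ D, D = (dset V).filter (fun d => ¬ (A.offDiag.filter
    (fun p => dist p.1 p.2 = d)).card ≤ 2 * A.card) := ⟨_, rfl⟩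
  rw [← hD] at h1
  have h2 := BAS_sum A D (fun d hd => by
    rw [hD, Finset.mem_filter] at hd
    have := hd.2
    omega)
  have h3 : (A.offDiag.filter (fun p => dist p.1 p.2 ∈ D)).card ≤
      (A.offDiag.filter (fun p => dist p.1 p.2 ∈ dset V)).card := by
    refine Finset.card_le_card fun p hp => ?_
    rw [Finset.mem_filter] at hp ⊢
    refine ⟨hp.1, ?_⟩
    have := hp.2
    rw [hD] at this
    exact (Finset.mem_filter.1 this).1
  have h4 : (dset V).card * (2 * A.card + 1) ≤ (D.card + low A) * (2 * A.card + 1) :=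
    Nat.mul_le_mul_right _ h1
  rw [add_mul] at h4
  omega

private theorem BAS_ne {A : Finset Plane} {O x : Plane} {r : ℝ} (hr : 0 < r)
    (hx : x ∈ circ A O r) : x ≠ O := by
  rintro rfl
  have h := (Finset.mem_filter.1 hx).2
  rw [dist_self] at h
  exact hr.ne h

theorem dset_circ (A : Finset Plane) (O : Plane) (r : ℝ) (hr : 0 < r) :
    (circ A O r).card ≤ 2 * (dset (circ A O r)).card + 1 := by
  rcases (circ A O r).eq_empty_or_nonempty with h | ⟨x, hx⟩
  · rw [h, Finset.card_empty]
    exact Nat.zero_le _
  · have h1 : ((circ A O r).erase x).card ≤ 2 * (dset (circ A O r)).card := by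
      refine Finset.card_le_mul_card_image_of_maps_to (f := fun v => dist x v) (fun v hv => ?_) 2
        fun d _ => ?_
      · rw [Finset.mem_erase] at hv
        unfold dset
        rw [Finset.mem_image]
        exact ⟨(x, v), Finset.mem_offDiag.2 ⟨hx, hv.2, hv.1.symm⟩, rfl⟩
      · refine (Finset.card_le_card ?_).trans (near2 A O r hr x (BAS_ne hr hx) d)
        exact Finset.filter_subset_filter _ (Finset.erase_subset _ _)
    rw [Finset.card_erase_of_mem hx] at h1
    omega

theorem mult_circ (A : Finset Plane) (O : Plane) (r : ℝ) (hr : 0 < r) (d : ℝ) :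
    ((circ A O r).offDiag.filter (fun p => dist p.1 p.2 = d)).card ≤ 2 * (circ A O r).card := by
  refine Finset.card_le_mul_card_image_of_maps_to (f := fun p : Plane × Plane => p.1)
    (fun p hp => (Finset.mem_offDiag.1 (Finset.mem_filter.1 hp).1).1) 2 fun x hx => ?_
  refine le_trans ?_ (near2 A O r hr x (BAS_ne hr hx) d)
  refine Finset.card_le_card_of_injOn (fun p => p.2) (fun p hp => ?_) fun p hp q hq h => ?_
  · rw [Finset.mem_coe, Finset.mem_filter, Finset.mem_filter, Finset.mem_offDiag] at hp
    rw [Finset.mem_coe, Finset.mem_filter]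
    refine ⟨hp.1.1.2.1, ?_⟩
    rw [← hp.2]
    exact hp.1.2
  · rw [Finset.mem_coe, Finset.mem_filter] at hp hq
    exact Prod.ext (hp.2.trans hq.2.symm) h

end Pool.Agent.H3.LC
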