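import Pool.Agent.H3.LC.KB2

/-!
# L4c: the pairs of `A` whose distance is a distance of `V = lev A Y 0`

Proof. `n = |A|`, `m = |V|`. Rich absolute heights: `Rr = {|Y x| : x ∈ A, h ≤ |cla A Y (Y x)|}`; the classes are disjoint, `|Rr| ≤ n / h`; each gives at most two levels `± β`. `0 ∈ Rr` (`h ≤ m`, `0 < h`).
`N3` = maximum over `x ∈ A`, `b = ± β` with `β ∈ Rr`, `b ≠ Y x`, of `#{u ∈ lev A Y b : dist x u ∈ dset V}`: `N3^4 h^4 m^5 ≤ 293434556416 D^12` (`KB2`, `|cla A Y b| ≥ h`).
An ordered pair `(x, x')` of `A` with distance in `dset V`: same level: at most `∑_b |lev b|^2 ≤ m n` (`hmax`); different levels and the class of `x'` rich: at most `n * 2 (n/h) * N3`; the class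
of `x` rich: the same; neither: both in `poorL A Y h` (`Y ≠ 0` because the class of height `0` is rich).
-/

set_option autoImplicit false

namespace Pool.Agent.H3.LC

open scoped Pointwise
open Classical

/-- the rich heights -/
private noncomputable def L4c_B (A : Finset Plane) (Y : Plane → ℝ) (h : ℕ) : Finset ℝ :=
  (A.filter (fun x => h ≤ (cla A Y (Y x)).card)).image Y

private theorem L4c_cla_abs (A : Finset Plane) (Y : Plane → ℝ) (b c : ℝ) (hbc : |b| = |c|) :
    cla A Y b = cla A Y c := by
  unfold cla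
  rw [hbc]

private theorem L4c_card_B (A : Finset Plane) (Y : Plane → ℝ) (h : ℕ) (hh : 0 < h) :
    (L4c_B A Y h).card ≤ 2 * (A.card / h) := by
  set S := A.filter (fun x => h ≤ (cla A Y (Y x)).card) with hS
  set R := S.image (fun x => |Y x|) with hR
  have h1 : h * R.card ≤ S.card := by
    rw [hR]
    refine Finset.mul_card_image_le_card S h ?_
    intro a ha
    obtain ⟨x, hx, rfl⟩ := Finset.mem_image.1 ha
    obtain ⟨hxA, hxr⟩ := Finset.mem_filter.1 hx
    refine le_trans hxr (Finset.card_le_card ?_)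
    intro y hy
    obtain ⟨hyA, hyY⟩ := Finset.mem_filter.1 hy
    refine Finset.mem_filter.2 ⟨Finset.mem_filter.2 ⟨hyA, ?_⟩, hyY⟩
    rw [L4c_cla_abs A Y (Y y) (Y x) hyY]
    exact hxr
  have h2 : R.card ≤ A.card / h := by
    rw [Nat.le_div_iff_mul_le hh, mul_comm]
    exact le_trans h1 (Finset.card_filter_le _ _)
  have h3 : L4c_B A Y h ⊆ R ∪ R.image (fun b => -b) := by
    intro b hb
    obtain ⟨x, hx, rfl⟩ := Finset.mem_image.1 hb
    have hR1 : |Y x| ∈ R := Finset.mem_image.2 ⟨x, hx, rfl⟩
    rcases abs_cases (Y x) with ⟨h4, _⟩ | ⟨h4, _⟩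
    · exact Finset.mem_union_left _ (by rw [← h4]; exact hR1)
    · refine Finset.mem_union_right _ (Finset.mem_image.2 ⟨|Y x|, hR1, ?_⟩)
      rw [h4]; ring
  calc (L4c_B A Y h).card ≤ (R ∪ R.image (fun b => -b)).card := Finset.card_le_card h3
    _ ≤ R.card + (R.image (fun b => -b)).card := Finset.card_union_le _ _
    _ ≤ R.card + R.card := Nat.add_le_add_left Finset.card_image_le _
    _ = 2 * R.card := by ring
    _ ≤ 2 * (A.card / h) := Nat.mul_le_mul_left 2 h2

theorem L4c (A : Finset Plane) (X Y : Plane → ℝ) (hXY : ∀ p q : Plane, dist p q ^ 2 = (X p - X q) ^ 2 + (Y p - Y q) ^ 2)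
    (hmax : ∀ b : ℝ, (lev A Y b).card ≤ (lev A Y 0).card)
    (D h : ℕ) (hD : 2 * (dset A).card + 1 ≤ D) (hh : 0 < h) (hV : h ≤ (lev A Y 0).card) :
    ∃ N3 : ℕ, N3 ^ 4 * h ^ 4 * (lev A Y 0).card ^ 5 ≤ 293434556416 * D ^ 12 ∧
      (A.offDiag.filter (fun p => dist p.1 p.2 ∈ dset (lev A Y 0))).card ≤
        (lev A Y 0).card * A.card + 4 * (A.card * (A.card / h) * N3) + (poorL A Y h).card ^ 2 := by
  classical
  set V := lev A Y 0 with hVdef
  set B := L4c_B A Y h with hB
  set f : Plane × ℝ → ℕ := fun q => if Y q.1 ≠ q.2 then ((lev A Y q.2).filter (fun u => dist q.1 u ∈ dset V)).card else 0 with hf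
  refine ⟨(A ×ˢ B).sup f, ?_, ?_⟩
  · by_cases h0 : (A ×ˢ B).sup f = 0
    · rw [h0]; simp
    · have hne : (A ×ˢ B).Nonempty := by
        rcases Finset.eq_empty_or_nonempty (A ×ˢ B) with he | he
        · rw [he] at h0; simp at h0
        · exact he
      obtain ⟨q, hq, hqe⟩ := Finset.exists_mem_eq_sup (A ×ˢ B) hne f
      obtain ⟨_, hq2⟩ := Finset.mem_product.1 hq
      have hqn : Y q.1 ≠ q.2 := by
        intro hc
        apply h0
        rw [hqe, hf]
        simp [hc]
      have hfq : f q = ((lev A Y q.2).filter (fun u => dist q.1 u ∈ dset V)).card := by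
        rw [hf]; simp only; rw [if_pos hqn]
      obtain ⟨x, hx, hxq⟩ := Finset.mem_image.1 hq2
      have hrich : h ≤ (cla A Y q.2).card := by
        rw [← hxq]; exact (Finset.mem_filter.1 hx).2
      have hk := KB2 A X Y hXY D hD q.1 q.2 hqn
      rw [hqe, hfq]
      refine le_trans ?_ hk
      gcongr
  · set N3 := (A ×ˢ B).sup f with hN3
    set S1 := A.biUnion (fun x => (lev A Y (Y x)).image (fun u => (x, u))) with hS1
    set S2 := (A ×ˢ B).biUnion (fun q => ((lev A Y q.2).filter (fun u => dist q.1 u ∈ dset V ∧ Y q.1 ≠ q.2)).image (fun u => (q.1, u))) with hS2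
    set S3 := (A ×ˢ B).biUnion (fun q => ((lev A Y q.2).filter (fun u => dist q.1 u ∈ dset V ∧ Y q.1 ≠ q.2)).image (fun u => (u, q.1))) with hS3
    have hcard : ∀ q ∈ A ×ˢ B, ((lev A Y q.2).filter (fun u => dist q.1 u ∈ dset V ∧ Y q.1 ≠ q.2)).card ≤ N3 := by
      intro q hq
      by_cases hqn : Y q.1 ≠ q.2
      · have h1 : f q ≤ N3 := Finset.le_sup hq
        have hfq : f q = ((lev A Y q.2).filter (fun u => dist q.1 u ∈ dset V)).card := by
          rw [hf]; simp only; rw [if_pos hqn]
        rw [hfq] at h1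
        refine le_trans (Finset.card_le_card ?_) h1
        intro u hu
        obtain ⟨hu1, hu2, _⟩ := Finset.mem_filter.1 hu
        exact Finset.mem_filter.2 ⟨hu1, hu2⟩
      · have : ((lev A Y q.2).filter (fun u => dist q.1 u ∈ dset V ∧ Y q.1 ≠ q.2)) = ∅ := by
          rw [Finset.filter_eq_empty_iff]
          intro u _ hu
          exact hqn hu.2
        rw [this]; simp
    have c1 : S1.card ≤ A.card * V.card := by
      refine Finset.card_biUnion_le_card_mul _ _ _ ?_
      intro x _
      exact le_trans Finset.card_image_le (hmax _)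
    have cB : (A ×ˢ B).card * N3 ≤ 2 * (A.card * (A.card / h) * N3) := by
      rw [Finset.card_product]
      calc A.card * B.card * N3 ≤ A.card * (2 * (A.card / h)) * N3 := by
            gcongr
            exact L4c_card_B A Y h hh
        _ = 2 * (A.card * (A.card / h) * N3) := by ring
    have c2 : S2.card ≤ 2 * (A.card * (A.card / h) * N3) := by
      refine le_trans (Finset.card_biUnion_le_card_mul _ _ N3 ?_) cB
      intro q hq
      exact le_trans Finset.card_image_le (hcard q hq)
    have c3 : S3.card ≤ 2 * (A.card * (A.card / h) * N3) := by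
      refine le_trans (Finset.card_biUnion_le_card_mul _ _ N3 ?_) cB
      intro q hq
      exact le_trans Finset.card_image_le (hcard q hq)
    have hsub : A.offDiag.filter (fun p => dist p.1 p.2 ∈ dset V) ⊆ (S1 ∪ (S2 ∪ S3)) ∪ (poorL A Y h ×ˢ poorL A Y h) := by
      intro p hp
      obtain ⟨hpo, hpd⟩ := Finset.mem_filter.1 hp
      obtain ⟨hp1, hp2, hpne⟩ := Finset.mem_offDiag.1 hpo
      by_cases hY : Y p.1 = Y p.2
      · refine Finset.mem_union_left _ (Finset.mem_union_left _ ?_)
        exact Finset.mem_biUnion.2 ⟨p.1, hp1, Finset.mem_image.2 ⟨p.2, Finset.mem_filter.2 ⟨hp2, hY.symm⟩, rfl⟩⟩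
      · by_cases hr2 : h ≤ (cla A Y (Y p.2)).card
        · refine Finset.mem_union_left _ (Finset.mem_union_right _ (Finset.mem_union_left _ ?_))
          refine Finset.mem_biUnion.2 ⟨(p.1, Y p.2), Finset.mem_product.2 ⟨hp1, ?_⟩, Finset.mem_image.2 ⟨p.2, ?_, rfl⟩⟩
          · exact Finset.mem_image.2 ⟨p.2, Finset.mem_filter.2 ⟨hp2, hr2⟩, rfl⟩
          · exact Finset.mem_filter.2 ⟨Finset.mem_filter.2 ⟨hp2, rfl⟩, hpd, hY⟩
        · by_cases hr1 : h ≤ (cla A Y (Y p.1)).card
          · refine Finset.mem_union_left _ (Finset.mem_union_right _ (Finset.mem_union_right _ ?_))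
            refine Finset.mem_biUnion.2 ⟨(p.2, Y p.1), Finset.mem_product.2 ⟨hp2, ?_⟩, Finset.mem_image.2 ⟨p.1, ?_, rfl⟩⟩
            · exact Finset.mem_image.2 ⟨p.1, Finset.mem_filter.2 ⟨hp1, hr1⟩, rfl⟩
            · refine Finset.mem_filter.2 ⟨Finset.mem_filter.2 ⟨hp1, rfl⟩, ?_, fun hc => hY hc.symm⟩
              show dist p.2 p.1 ∈ dset V
              rw [dist_comm]
              exact hpd
          · refine Finset.mem_union_right _ (Finset.mem_product.2 ⟨?_, ?_⟩)
            · refine Finset.mem_filter.2 ⟨hp1, ?_, not_le.1 hr1⟩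
              intro hz
              apply hr1
              rw [hz]
              refine le_trans hV (Finset.card_le_card ?_)
              intro y hy
              obtain ⟨hyA, hyY⟩ := Finset.mem_filter.1 hy
              exact Finset.mem_filter.2 ⟨hyA, by rw [hyY]⟩
            · refine Finset.mem_filter.2 ⟨hp2, ?_, not_le.1 hr2⟩
              intro hz
              apply hr2
              rw [hz]
              refine le_trans hV (Finset.card_le_card ?_)
              intro y hy
              obtain ⟨hyA, hyY⟩ := Finset.mem_filter.1 hy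
              exact Finset.mem_filter.2 ⟨hyA, by rw [hyY]⟩
    have c4 : (poorL A Y h ×ˢ poorL A Y h).card = (poorL A Y h).card ^ 2 := by
      rw [Finset.card_product]; ring
    calc (A.offDiag.filter (fun p => dist p.1 p.2 ∈ dset V)).card
        ≤ ((S1 ∪ (S2 ∪ S3)) ∪ (poorL A Y h ×ˢ poorL A Y h)).card := Finset.card_le_card hsub
      _ ≤ (S1 ∪ (S2 ∪ S3)).card + (poorL A Y h ×ˢ poorL A Y h).card := Finset.card_union_le _ _
      _ ≤ (S1.card + (S2.card + S3.card)) + (poorL A Y h ×ˢ poorL A Y h).card := by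
          refine Nat.add_le_add_right (le_trans (Finset.card_union_le _ _) (Nat.add_le_add_left (Finset.card_union_le _ _) _)) _
      _ ≤ V.card * A.card + 4 * (A.card * (A.card / h) * N3) + (poorL A Y h).card ^ 2 := by
          rw [c4]
          have e1 : A.card * V.card = V.card * A.card := mul_comm _ _
          omega

end Pool.Agent.H3.LC
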