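import Pool.Agent.H3.LC.L4a
import Pool.Agent.H3.LC.L4c
import Pool.Agent.H3.LC.BAS
import Pool.Agent.H3.LC.ASYa
import Pool.Agent.H3.LC.ASYb
import Pool.Agent.H3.LC.ASYc

/-!
# FINL: lines

Proof. `N0` = maximum of `2` and the `N0` of `ASY0`, `ASY1`, `ASY2`, `ASY4`. Suppose `m > 20 L` (`m = |lev A Y 0|`, `n = |A|`). `kbound`: `k ≤ n`, `D = 2k+1 ≤ 2n`. `ASY0` gives `h`; `L4a`, `ASY1`:
`100 p^2 ≤ m n`; `L4c`, `ASY2`: `100 T ≤ m n`, `T = n (n/h) N3`; `pairLB` (`V = lev A Y 0`), `dset_lev`, `ASY4`: contradiction.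
-/

set_option autoImplicit false

namespace Pool.Agent.H3.LC

open scoped Pointwise
open Classical

theorem FINL : ∃ N0 : ℕ, ∀ (A : Finset Plane) (X Y : Plane → ℝ),
    (∀ p q : Plane, dist p q ^ 2 = (X p - X q) ^ 2 + (Y p - Y q) ^ 2) →
    (∀ b : ℝ, (lev A Y b).card ≤ (lev A Y 0).card) → N0 ≤ A.card →
    A.card ^ 24 ≤ (lev A Y 0).card ^ 25 → (lev A Y 0).card ≤ 20 * low A := by
  obtain ⟨N0, h0⟩ := ASY0
  obtain ⟨N1, h1⟩ := ASY1
  obtain ⟨N2, h2⟩ := ASY2
  obtain ⟨N4, h4⟩ := ASY4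
  refine ⟨max 2 (max N0 (max N1 (max N2 N4))), ?_⟩
  intro A X Y hXY hmax hN hpow
  by_contra hcon
  have hcon' : 20 * low A < (lev A Y 0).card := not_le.mp hcon
  have hn2 : 2 ≤ A.card := le_trans (le_max_left _ _) hN
  have hN' : max N0 (max N1 (max N2 N4)) ≤ A.card := le_trans (le_max_right _ _) hN
  have hn0 : N0 ≤ A.card := le_trans (le_max_left _ _) hN'
  have hN'' : max N1 (max N2 N4) ≤ A.card := le_trans (le_max_right _ _) hN'
  have hn1 : N1 ≤ A.card := le_trans (le_max_left _ _) hN''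
  have hN''' : max N2 N4 ≤ A.card := le_trans (le_max_right _ _) hN''
  have hn2' : N2 ≤ A.card := le_trans (le_max_left _ _) hN'''
  have hn4 : N4 ≤ A.card := le_trans (le_max_right _ _) hN'''
  have hm : (lev A Y 0).card ≤ A.card := Finset.card_filter_le _ _
  have hk : 2 * (dset A).card ≤ 2 * low A + A.card := kbound A
  have hkn : (dset A).card ≤ A.card := by omega
  have hD : 2 * (dset A).card + 1 ≤ 2 * A.card := by omega
  obtain ⟨h, hh0, hhm, ha, hb⟩ := h0 A.card (lev A Y 0).card hn0 hm hpow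
  obtain ⟨M1, hM1, hM1'⟩ := L4a A X Y hXY (2 * (dset A).card + 1) h le_rfl
  have e1 := h1 A.card (lev A Y 0).card (dset A).card (2 * (dset A).card + 1) h M1
    (poorL A Y h).card hn1 hm hpow hkn hD ha hM1 hM1'
  obtain ⟨M3, hM3, hM3'⟩ := L4c A X Y hXY hmax (2 * (dset A).card + 1) h le_rfl hh0 hhm
  have e2 := h2 A.card (lev A Y 0).card (2 * (dset A).card + 1) h M3 hn2' hm hpow hD hh0 hb hM3
  have e3 := pairLB A (lev A Y 0) (Finset.filter_subset _ _)
  have e4 := dset_lev A X Y hXY 0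
  exact h4 A.card (lev A Y 0).card (low A) (poorL A Y h).card
    (A.card * (A.card / h) * M3)
    (A.offDiag.filter (fun p => dist p.1 p.2 ∈ dset (lev A Y 0))).card
    (dset (lev A Y 0)).card hn4 hm hpow hcon' e1 e2 hM3' e3 e4

end Pool.Agent.H3.LC
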