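import Pool.Agent.H3.LC.Defs

/-!
# LCO: coordinates along a line

Proof. `collinear_iff_exists_forall_eq_smul_vadd` (or `collinear_iff_of_mem`): the points of `V` are `p0 + t v` with a vector `v`; replace `v` by a unit vector `e = (c, s)` (`v = 0`: take
`e = (1, 0)`). `X p = c (p 0) + s (p 1)`, `Y p = -s (p 0) + c (p 1)`, `c^2 + s^2 = 1`: `(X p - X q)^2 + (Y p - Y q)^2 = (p 0 - q 0)^2 + (p 1 - q 1)^2 = dist p q ^ 2`
(`EuclideanSpace.dist_eq`, `Fin.sum_univ_two`), and `Y` is constant on the line.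
-/

set_option autoImplicit false

namespace Pool.Agent.H3.LC

theorem LCO_aux (c s : ℝ) (hcs : c ^ 2 + s ^ 2 = 1) (p q : Plane) :
    dist p q ^ 2 = ((c * p 0 + s * p 1) - (c * q 0 + s * q 1)) ^ 2
      + ((-s * p 0 + c * p 1) - (-s * q 0 + c * q 1)) ^ 2 := by
  have h : dist p q ^ 2 = (p 0 - q 0) ^ 2 + (p 1 - q 1) ^ 2 := by
    rw [EuclideanSpace.dist_eq, Real.sq_sqrt (Finset.sum_nonneg fun i _ => sq_nonneg _),
      Fin.sum_univ_two, Real.dist_eq, Real.dist_eq, sq_abs, sq_abs]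
  rw [h]
  have h2 : ((c * p 0 + s * p 1) - (c * q 0 + s * q 1)) ^ 2
      + ((-s * p 0 + c * p 1) - (-s * q 0 + c * q 1)) ^ 2
      = (c ^ 2 + s ^ 2) * ((p 0 - q 0) ^ 2 + (p 1 - q 1) ^ 2) := by ring
  rw [h2, hcs, one_mul]

theorem LCO (V : Finset Plane) (hV : Collinear ℝ (V : Set Plane)) :
    ∃ X Y : Plane → ℝ, (∀ p q : Plane, dist p q ^ 2 = (X p - X q) ^ 2 + (Y p - Y q) ^ 2) ∧
      ∀ v ∈ V, ∀ v' ∈ V, Y v = Y v' := by
  obtain ⟨p₀, w, hw⟩ := (collinear_iff_exists_forall_eq_smul_vadd (k := ℝ) (V : Set Plane)).1 hV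
  by_cases h0 : (w 0) ^ 2 + (w 1) ^ 2 = 0
  · have hw0 : w 0 = 0 := by nlinarith [sq_nonneg (w 0), sq_nonneg (w 1)]
    have hw1 : w 1 = 0 := by nlinarith [sq_nonneg (w 0), sq_nonneg (w 1)]
    refine ⟨fun p => 1 * p 0 + 0 * p 1, fun p => -0 * p 0 + 1 * p 1,
      fun p q => LCO_aux 1 0 (by norm_num) p q, ?_⟩
    intro v hv v' hv'
    obtain ⟨r, hr⟩ := hw v (Finset.mem_coe.2 hv)
    obtain ⟨r', hr'⟩ := hw v' (Finset.mem_coe.2 hv')
    have e1 : v 1 = r * w 1 + p₀ 1 := by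
      rw [hr]
      simp
    have e2 : v' 1 = r' * w 1 + p₀ 1 := by
      rw [hr']
      simp
    simp only []
    rw [e1, e2, hw1]
    have e3 : v 0 = r * w 0 + p₀ 0 := by
      rw [hr]
      simp
    ring
  · have hpos : 0 < (w 0) ^ 2 + (w 1) ^ 2 :=
      lt_of_le_of_ne (by positivity) (Ne.symm h0)
    set n := Real.sqrt ((w 0) ^ 2 + (w 1) ^ 2) with hn
    have hn0 : 0 < n := Real.sqrt_pos.2 hpos
    have hn2 : n ^ 2 = (w 0) ^ 2 + (w 1) ^ 2 := Real.sq_sqrt hpos.le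
    have hcs : (w 0 / n) ^ 2 + (w 1 / n) ^ 2 = 1 := by
      rw [div_pow, div_pow, ← add_div, ← hn2]
      exact div_self (pow_ne_zero 2 hn0.ne')
    refine ⟨fun p => (w 0 / n) * p 0 + (w 1 / n) * p 1, fun p => -(w 1 / n) * p 0 + (w 0 / n) * p 1,
      fun p q => LCO_aux (w 0 / n) (w 1 / n) hcs p q, ?_⟩
    intro v hv v' hv'
    obtain ⟨r, hr⟩ := hw v (Finset.mem_coe.2 hv)
    obtain ⟨r', hr'⟩ := hw v' (Finset.mem_coe.2 hv')
    have e1 : ∀ i, v i = r * w i + p₀ i := fun i => by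
      rw [hr]
      simp
    have e2 : ∀ i, v' i = r' * w i + p₀ i := fun i => by
      rw [hr']
      simp
    simp only []
    rw [e1 0, e1 1, e2 0, e2 1]
    ring

end Pool.Agent.H3.LC
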