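import Pool.Agent.H3.LC.FINC
import Pool.Agent.H3.LC.FINL
import Pool.Agent.H3.LC.LCO

/-!
# FIN: the theorem

Proof. `N` = maximum of `2` and the two `N0`. `V` cospherical (`EuclideanGeometry.Cospherical`: centre `O`, radius `R`): if `R ≤ 0` then `V ⊆ {O}`, `|V| ≤ 1`, `n^24 ≤ 1`, contradiction with `n ≥ 2`;
otherwise `V ⊆ circ A O R` and `FINC` (`|V| ≤ |circ A O R|`, `n^24 ≤ |V|^25 ≤ |circ|^25`). `V` collinear: coordinates `X, Y` of `LCO`, `V ⊆ lev A Y c` (`V` nonempty). Choose `b` with `|lev A Y b|`
maximal (the heights `Y x`, `x ∈ A`, are finitely many; other levels are empty), and apply `FINL` to `X` and `Y' = Y - b` (`lev A Y' b' = lev A Y (b + b')`): `|V| ≤ |lev A Y b| ≤ 20 low A`.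
-/

set_option autoImplicit false

namespace Pool.Agent.H3.LC

open Classical

theorem FIN : ∃ N : ℕ, ∀ A V : Finset Plane, N ≤ A.card → V ⊆ A → A.card ^ 24 ≤ V.card ^ 25 →
    (Collinear ℝ (V : Set Plane) ∨ EuclideanGeometry.Cospherical (V : Set Plane)) → V.card ≤ 20 * low A := by
  obtain ⟨N1, h1⟩ := FINC
  obtain ⟨N2, h2⟩ := FINL
  refine ⟨2 + N1 + N2, fun A V hN hVA hpow hV => ?_⟩
  have hn2 : 2 ≤ A.card := by omega
  have hn1 : N1 ≤ A.card := by omega
  have hn3 : N2 ≤ A.card := by omega
  have hV2 : 2 ≤ V.card := by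
    by_contra hlt
    have hle : V.card ≤ 1 := by omega
    have h3 : V.card ^ 25 ≤ 1 := Nat.pow_le_one_iff (by norm_num) |>.2 hle
    have h4 : 2 ^ 24 ≤ A.card ^ 24 := Nat.pow_le_pow_left hn2 24
    have h5 : (1 : ℕ) < 2 ^ 24 := by norm_num
    omega
  rcases hV with hcol | hcos
  · obtain ⟨X, Y, hXY, hYc⟩ := LCO V hcol
    obtain ⟨v0, hv0⟩ : V.Nonempty := Finset.card_pos.1 (by omega)
    have hAne : A.Nonempty := ⟨v0, hVA hv0⟩
    obtain ⟨z, hz, hmax⟩ := Finset.exists_max_image A (fun x => (lev A Y (Y x)).card) hAne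
    have hall : ∀ b : ℝ, (lev A Y b).card ≤ (lev A Y (Y z)).card := by
      intro b
      by_cases hb : ∃ x ∈ A, Y x = b
      · obtain ⟨x, hx, rfl⟩ := hb
        exact hmax x hx
      · have : lev A Y b = ∅ := by
          unfold lev
          rw [Finset.filter_eq_empty_iff]
          intro x hx h
          exact hb ⟨x, hx, h⟩
        rw [this]
        simp
    have hlev : ∀ b : ℝ, lev A (fun x => Y x - Y z) b = lev A Y (b + Y z) := by
      intro b
      unfold lev
      refine Finset.filter_congr (fun x _ => ?_)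
      constructor
      · intro h
        linarith
      · intro h
        linarith
    have hVl : V ⊆ lev A Y (Y v0) := by
      intro x hx
      unfold lev
      rw [Finset.mem_filter]
      exact ⟨hVA hx, hYc x hx v0 hv0⟩
    have hc : V.card ≤ (lev A Y (Y z)).card := (Finset.card_le_card hVl).trans (hall _)
    have h0 : lev A (fun x => Y x - Y z) 0 = lev A Y (Y z) := by
      rw [hlev 0, zero_add]
    have := h2 A X (fun x => Y x - Y z) (fun p q => by rw [hXY p q]; ring)
      (fun b => by rw [h0, hlev b]; exact hall _) hn3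
      (by rw [h0]; exact hpow.trans (Nat.pow_le_pow_left hc 25))
    rw [h0] at this
    exact hc.trans this
  · obtain ⟨O, R, hR⟩ := hcos
    have hVc : V ⊆ circ A O R := by
      intro x hx
      unfold circ
      rw [Finset.mem_filter]
      exact ⟨hVA hx, hR x (Finset.mem_coe.2 hx)⟩
    have hc : V.card ≤ (circ A O R).card := Finset.card_le_card hVc
    by_cases hRp : 0 < R
    · exact hc.trans (h1 A O R hn1 hRp (hpow.trans (Nat.pow_le_pow_left hc 25)))
    · exfalso
      have hsub : V ⊆ {O} := by
        intro x hx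
        rw [Finset.mem_singleton]
        have h3 := hR x (Finset.mem_coe.2 hx)
        have h4 : dist x O ≤ 0 := by rw [h3]; exact not_lt.1 hRp
        exact dist_le_zero.1 h4
      have := Finset.card_le_card hsub
      rw [Finset.card_singleton] at this
      omega

end Pool.Agent.H3.LC
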