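import Pool.Agent.H3.LC.KLr

/-!
# KLc: the key lemma for the circle

Proof. Let `F` be the filtered set, `V' = V.image (· - α)`, `W' = W.image (· - β)`; `|V' + V' - V'| = |V + V - V|` (translation), same for `W`. `F' = F.image (· - α)`: `|F'| = |F|`,
for `x ∈ F'` there is `y ∈ W'` with `cos y = a + b cos x`. Elements of `F'` with `x = 0` or `x = π`: at most `2`. Elements having a `y ∈ W'` with `y ∈ {0, π}` and `cos y = a + b cos x`:
`cos x = (1-a)/b` or `(-1-a)/b`, at most `2` elements `x` each (`Real.Angle.cos_eq_iff_eq_or_eq_neg`), at most `4`. The others belong to four classes: `x = ↑t` or `x = -↑t` with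
`t ∈ (0, π)` (`t = |x.toReal|`), and the same for `y`. Each class: `KLr` with `±V'`, `±W'` (`|(-V') + (-V') - (-V')| = |V' + V' - V'|`): `(N_σ - 1)^4 ≤ 2304 M`,
`M = |V+V-V|^2 |W+W-W|`. If `F` is nonempty then `M ≥ 1`; with `q = M^(1/4) ≥ 1`: `N_σ ≤ 1 + 7 q` (`2304 ≤ 7^4`), `|F| ≤ 6 + 4 (1 + 7 q) ≤ 38 q ≤ 46 q`, `46^4 = 4477456`.
-/

set_option autoImplicit false

namespace Pool.Agent.H3.LC

open scoped Pointwise
open Classical

private theorem KLc_T3 (V : Finset Real.Angle) (f : Real.Angle → Real.Angle)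
    (hf : ∀ x y z, f x + f y - f z = f (x + y - z)) :
    (V.image f + V.image f - V.image f).card ≤ (V + V - V).card := by
  refine (Finset.card_le_card ?_).trans (Finset.card_image_le (s := V + V - V) (f := f))
  intro u hu
  obtain ⟨v, hv, w, hw, rfl⟩ := Finset.mem_sub.1 hu
  obtain ⟨x, hx, y, hy, rfl⟩ := Finset.mem_add.1 hv
  obtain ⟨x', hx', rfl⟩ := Finset.mem_image.1 hx
  obtain ⟨y', hy', rfl⟩ := Finset.mem_image.1 hy
  obtain ⟨z', hz', rfl⟩ := Finset.mem_image.1 hw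
  rw [hf]
  exact Finset.mem_image_of_mem f (Finset.sub_mem_sub (Finset.add_mem_add hx' hy') hz')

/-- One class. -/
private theorem KLc_one (a b : ℝ) (hb : b ≠ 0) (hab : ¬ (a = 0 ∧ b ^ 2 = 1)) (V W F : Finset Real.Angle)
    (f g : Real.Angle → Real.Angle) (hf : ∀ x y z, f x + f y - f z = f (x + y - z))
    (hg : ∀ x y z, g x + g y - g z = g (x + y - z)) (hfi : Function.Injective f)
    (hF : ∀ x ∈ F, x ∈ V ∧ 0 < (f x).toReal ∧ (f x).toReal < Real.pi ∧
      ∃ y ∈ W, 0 < (g y).toReal ∧ (g y).toReal < Real.pi ∧ (g y).cos = a + b * (f x).cos) :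
    (F.card - 1) ^ 4 ≤ 2304 * ((V + V - V).card ^ 2 * (W + W - W).card) := by
  have h1 := KLr a b hb hab (F.image (fun x => (f x).toReal)) (V.image f) (W.image g) (by
    intro u hu
    obtain ⟨x, hx, rfl⟩ := Finset.mem_image.1 hu
    obtain ⟨hxV, h1, h2, y, hy, h3, h4, h5⟩ := hF x hx
    refine ⟨h1, h2, ?_, (g y).toReal, h3, h4, ?_, ?_⟩
    · rw [Real.Angle.coe_toReal]
      exact Finset.mem_image_of_mem f hxV
    · rw [Real.Angle.coe_toReal]
      exact Finset.mem_image_of_mem g hy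
    · rw [Real.Angle.cos_toReal, Real.Angle.cos_toReal]
      exact h5)
  have h2 : (F.image (fun x => (f x).toReal)).card = F.card := by
    apply Finset.card_image_of_injective
    intro x y hxy
    exact hfi (Real.Angle.toReal_injective hxy)
  rw [h2, mul_assoc] at h1
  refine h1.trans (Nat.mul_le_mul_left _ ?_)
  exact Nat.mul_le_mul (Nat.pow_le_pow_left (KLc_T3 V f hf) 2) (KLc_T3 W g hg)

/-- At most two elements have a given cosine. -/
private theorem KLc_two (F : Finset Real.Angle) (α : Real.Angle) (c : ℝ) :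
    (F.filter (fun x => (x - α).cos = c)).card ≤ 2 := by
  rcases (F.filter (fun x => (x - α).cos = c)).eq_empty_or_nonempty with h | ⟨x₀, h₀⟩
  · rw [h]
    simp
  · have h0 := (Finset.mem_filter.1 h₀).2
    have h1 : F.filter (fun x => (x - α).cos = c) ⊆ {x₀, α - (x₀ - α)} := by
      intro x hx
      have h2 := (Finset.mem_filter.1 hx).2
      rw [← h0] at h2
      rcases Real.Angle.cos_eq_iff_eq_or_eq_neg.1 h2 with h3 | h3
      · rw [sub_left_inj] at h3
        simp [h3]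
      · have h4 : x = α - (x₀ - α) := by
          rw [sub_eq_iff_eq_add] at h3
          rw [h3]
          abel
        simp [h4]
    exact (Finset.card_le_card h1).trans Finset.card_le_two

/-- An angle with nonzero sine is in one of the two open half circles. -/
private theorem KLc_half (x : Real.Angle) (h0 : x ≠ 0) (hp : x ≠ (Real.pi : Real.Angle)) :
    (0 < x.toReal ∧ x.toReal < Real.pi) ∨ (0 < (-x).toReal ∧ (-x).toReal < Real.pi) := by
  have h1 := Real.Angle.neg_pi_lt_toReal x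
  have h2 := Real.Angle.toReal_le_pi x
  have h3 : x.toReal ≠ 0 := fun h => h0 (Real.Angle.toReal_eq_zero_iff.1 h)
  have h4 : x.toReal ≠ Real.pi := fun h => hp (Real.Angle.toReal_eq_pi_iff.1 h)
  have h5 : (-x).toReal = - x.toReal := by
    have h6 : ((-x.toReal : ℝ) : Real.Angle) = -x := by
      rw [Real.Angle.coe_neg, Real.Angle.coe_toReal]
    rw [← h6, Real.Angle.toReal_coe_eq_self_iff]
    constructor
    · have := lt_of_le_of_ne h2 h4
      linarith
    · linarith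
  rcases lt_or_gt_of_ne h3 with h6 | h6
  · right
    rw [h5]
    constructor
    · linarith
    · linarith
  · left
    exact ⟨h6, lt_of_le_of_ne h2 h4⟩

private theorem KLc_num {N N1 N2 N3 N4 M : ℕ} (hN : N ≤ 8 + N1 + N2 + N3 + N4) (hM : 1 ≤ M)
    (h1 : (N1 - 1) ^ 4 ≤ 2304 * M) (h2 : (N2 - 1) ^ 4 ≤ 2304 * M) (h3 : (N3 - 1) ^ 4 ≤ 2304 * M)
    (h4 : (N4 - 1) ^ 4 ≤ 2304 * M) : N ^ 4 ≤ 4477456 * M := by
  have hM1 : (1 : ℝ) ≤ M := by exact_mod_cast hM
  obtain ⟨q, hq0, hq⟩ : ∃ q : ℝ, 0 ≤ q ∧ q ^ 4 = M := by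
    refine ⟨(M : ℝ) ^ (1 / 4 : ℝ), by positivity, ?_⟩
    rw [← Real.rpow_natCast, ← Real.rpow_mul (by positivity)]
    norm_num
  have hq1 : 1 ≤ q := by
    by_contra hlt
    have h5 : q ^ 4 < 1 := pow_lt_one₀ hq0 (not_le.1 hlt) (by norm_num)
    rw [hq] at h5
    linarith
  have key : ∀ K : ℕ, (K - 1) ^ 4 ≤ 2304 * M → (K : ℝ) ≤ 1 + 7 * q := by
    intro K hK
    have h5 : (((K - 1 : ℕ) : ℝ)) ^ 4 ≤ (7 * q) ^ 4 := by
      have h6 : (((K - 1 : ℕ) : ℝ)) ^ 4 ≤ 2304 * M := by exact_mod_cast hK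
      have h7 : (7 * q) ^ 4 = 2401 * (M : ℝ) := by
        rw [mul_pow, hq]
        norm_num
      rw [h7]
      nlinarith
    have h6 : ((K - 1 : ℕ) : ℝ) ≤ 7 * q := le_of_pow_le_pow_left₀ (by norm_num) (by positivity) h5
    have h7 : (K : ℝ) ≤ ((K - 1 : ℕ) : ℝ) + 1 := by
      have : K ≤ K - 1 + 1 := by omega
      exact_mod_cast this
    linarith
  have k1 := key N1 h1
  have k2 := key N2 h2
  have k3 := key N3 h3
  have k4 := key N4 h4
  have hN' : (N : ℝ) ≤ 8 + N1 + N2 + N3 + N4 := by exact_mod_cast hN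
  have h5 : (N : ℝ) ≤ 46 * q := by linarith
  have h6 : (N : ℝ) ^ 4 ≤ (46 * q) ^ 4 := pow_le_pow_left₀ (by positivity) h5 4
  have h7 : (46 * q) ^ 4 = 4477456 * (M : ℝ) := by
    rw [mul_pow, hq]
    norm_num
  rw [h7] at h6
  exact_mod_cast h6

theorem KLc (a b : ℝ) (hb : b ≠ 0) (hab : ¬ (a = 0 ∧ b ^ 2 = 1)) (α β : Real.Angle) (V W : Finset Real.Angle) :
    (V.filter (fun x => ∃ y ∈ W, (y - β).cos = a + b * (x - α).cos)).card ^ 4 ≤
      4477456 * (V + V - V).card ^ 2 * (W + W - W).card := by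
  rw [mul_assoc]
  obtain ⟨F, hFdef⟩ : ∃ F, F = V.filter (fun x => ∃ y ∈ W, (y - β).cos = a + b * (x - α).cos) :=
    ⟨_, rfl⟩
  rw [← hFdef]
  rcases F.eq_empty_or_nonempty with hF0 | hF0
  · rw [hF0]
    simp
  -- the four classes
  obtain ⟨P, hP⟩ : ∃ P : (Real.Angle → Real.Angle) → (Real.Angle → Real.Angle) → Real.Angle → Prop,
      ∀ f g x, P f g x ↔ (0 < (f x).toReal ∧ (f x).toReal < Real.pi ∧
        ∃ y ∈ W, 0 < (g y).toReal ∧ (g y).toReal < Real.pi ∧ (g y).cos = a + b * (f x).cos) :=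
    ⟨_, fun _ _ _ => Iff.rfl⟩
  obtain ⟨f₁, hf₁⟩ : ∃ f : Real.Angle → Real.Angle, ∀ x, f x = x - α := ⟨_, fun _ => rfl⟩
  obtain ⟨f₂, hf₂⟩ : ∃ f : Real.Angle → Real.Angle, ∀ x, f x = -(x - α) := ⟨_, fun _ => rfl⟩
  obtain ⟨g₁, hg₁⟩ : ∃ f : Real.Angle → Real.Angle, ∀ x, f x = x - β := ⟨_, fun _ => rfl⟩
  obtain ⟨g₂, hg₂⟩ : ∃ f : Real.Angle → Real.Angle, ∀ x, f x = -(x - β) := ⟨_, fun _ => rfl⟩
  have ef₁ : ∀ x y z, f₁ x + f₁ y - f₁ z = f₁ (x + y - z) := fun x y z => by
    rw [hf₁, hf₁, hf₁, hf₁]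
    abel
  have ef₂ : ∀ x y z, f₂ x + f₂ y - f₂ z = f₂ (x + y - z) := fun x y z => by
    rw [hf₂, hf₂, hf₂, hf₂]
    abel
  have eg₁ : ∀ x y z, g₁ x + g₁ y - g₁ z = g₁ (x + y - z) := fun x y z => by
    rw [hg₁, hg₁, hg₁, hg₁]
    abel
  have eg₂ : ∀ x y z, g₂ x + g₂ y - g₂ z = g₂ (x + y - z) := fun x y z => by
    rw [hg₂, hg₂, hg₂, hg₂]
    abel
  have if₁ : Function.Injective f₁ := fun x y h => by
    rw [hf₁, hf₁] at h
    exact sub_left_injective h
  have if₂ : Function.Injective f₂ := fun x y h => by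
    rw [hf₂, hf₂, neg_inj] at h
    exact sub_left_injective h
  have hcl : ∀ f g : Real.Angle → Real.Angle, (∀ x y z, f x + f y - f z = f (x + y - z)) →
      (∀ x y z, g x + g y - g z = g (x + y - z)) → Function.Injective f →
      ((F.filter (P f g)).card - 1) ^ 4 ≤ 2304 * ((V + V - V).card ^ 2 * (W + W - W).card) := by
    intro f g hf hg hfi
    refine KLc_one a b hb hab V W _ f g hf hg hfi fun x hx => ?_
    obtain ⟨hxF, hx2⟩ := Finset.mem_filter.1 hx
    rw [hFdef] at hxF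
    exact ⟨(Finset.mem_filter.1 hxF).1, (hP f g x).1 hx2⟩
  -- the cover
  have hcov : F ⊆ (F.filter (fun x => (x - α).cos = 1) ∪ F.filter (fun x => (x - α).cos = -1) ∪
      F.filter (fun x => (x - α).cos = (1 - a) / b) ∪ F.filter (fun x => (x - α).cos = (-1 - a) / b)) ∪
      (F.filter (P f₁ g₁) ∪ F.filter (P f₁ g₂) ∪ F.filter (P f₂ g₁) ∪ F.filter (P f₂ g₂)) := by
    intro x hx
    have hxF := hx
    rw [hFdef] at hx
    obtain ⟨-, y, hy, hxy⟩ := Finset.mem_filter.1 hx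
    simp only [Finset.mem_union, Finset.mem_filter, hxF, true_and]
    by_cases h1 : x - α = 0
    · left; left; left; left
      rw [h1, Real.Angle.cos_zero]
    by_cases h2 : x - α = (Real.pi : Real.Angle)
    · left; left; left; right
      rw [h2, Real.Angle.cos_coe_pi]
    by_cases h3 : y - β = 0
    · left; left; right
      rw [h3, Real.Angle.cos_zero] at hxy
      rw [eq_div_iff hb]
      linarith
    by_cases h4 : y - β = (Real.pi : Real.Angle)
    · left; right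
      rw [h4, Real.Angle.cos_coe_pi] at hxy
      rw [eq_div_iff hb]
      linarith
    right
    rcases KLc_half _ h1 h2 with h5 | h5 <;> rcases KLc_half _ h3 h4 with h6 | h6
    · left; left; left
      rw [hP, hf₁]
      exact ⟨h5.1, h5.2, y, hy, by rw [hg₁]; exact h6.1, by rw [hg₁]; exact h6.2,
        by rw [hg₁]; exact hxy⟩
    · left; left; right
      rw [hP, hf₁]
      exact ⟨h5.1, h5.2, y, hy, by rw [hg₂]; exact h6.1, by rw [hg₂]; exact h6.2,
        by rw [hg₂, Real.Angle.cos_neg]; exact hxy⟩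
    · left; right
      rw [hP, hf₂]
      exact ⟨h5.1, h5.2, y, hy, by rw [hg₁]; exact h6.1, by rw [hg₁]; exact h6.2,
        by rw [hg₁, Real.Angle.cos_neg]; exact hxy⟩
    · right
      rw [hP, hf₂]
      exact ⟨h5.1, h5.2, y, hy, by rw [hg₂]; exact h6.1, by rw [hg₂]; exact h6.2,
        by rw [hg₂, Real.Angle.cos_neg, Real.Angle.cos_neg]; exact hxy⟩
  have hcard : F.card ≤ 8 + (F.filter (P f₁ g₁)).card + (F.filter (P f₁ g₂)).card +
      (F.filter (P f₂ g₁)).card + (F.filter (P f₂ g₂)).card := by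
    have h0 := Finset.card_le_card hcov
    have h1 := Finset.card_union_le (F.filter (fun x => (x - α).cos = 1) ∪
      F.filter (fun x => (x - α).cos = -1) ∪ F.filter (fun x => (x - α).cos = (1 - a) / b) ∪
      F.filter (fun x => (x - α).cos = (-1 - a) / b))
      (F.filter (P f₁ g₁) ∪ F.filter (P f₁ g₂) ∪ F.filter (P f₂ g₁) ∪ F.filter (P f₂ g₂))
    have h2 := Finset.card_union_le (F.filter (fun x => (x - α).cos = 1) ∪
      F.filter (fun x => (x - α).cos = -1) ∪ F.filter (fun x => (x - α).cos = (1 - a) / b))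
      (F.filter (fun x => (x - α).cos = (-1 - a) / b))
    have h3 := Finset.card_union_le (F.filter (fun x => (x - α).cos = 1) ∪
      F.filter (fun x => (x - α).cos = -1)) (F.filter (fun x => (x - α).cos = (1 - a) / b))
    have h4 := Finset.card_union_le (F.filter (fun x => (x - α).cos = 1))
      (F.filter (fun x => (x - α).cos = -1))
    have h5 := Finset.card_union_le (F.filter (P f₁ g₁) ∪ F.filter (P f₁ g₂) ∪
      F.filter (P f₂ g₁)) (F.filter (P f₂ g₂))
    have h6 := Finset.card_union_le (F.filter (P f₁ g₁) ∪ F.filter (P f₁ g₂))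
      (F.filter (P f₂ g₁))
    have h7 := Finset.card_union_le (F.filter (P f₁ g₁)) (F.filter (P f₁ g₂))
    have c1 := KLc_two F α 1
    have c2 := KLc_two F α (-1)
    have c3 := KLc_two F α ((1 - a) / b)
    have c4 := KLc_two F α ((-1 - a) / b)
    omega
  have hM : 1 ≤ (V + V - V).card ^ 2 * (W + W - W).card := by
    obtain ⟨x, hx⟩ := hF0
    rw [hFdef] at hx
    obtain ⟨hxV, y, hy, -⟩ := Finset.mem_filter.1 hx
    have h1 : 0 < (V + V - V).card :=
      Finset.card_pos.2 ⟨_, Finset.sub_mem_sub (Finset.add_mem_add hxV hxV) hxV⟩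
    have h2 : 0 < (W + W - W).card :=
      Finset.card_pos.2 ⟨_, Finset.sub_mem_sub (Finset.add_mem_add hy hy) hy⟩
    exact Nat.mul_pos (pow_pos h1 2) h2
  exact KLc_num hcard hM (hcl _ _ ef₁ eg₁ if₁) (hcl _ _ ef₁ eg₂ if₁) (hcl _ _ ef₂ eg₁ if₂)
    (hcl _ _ ef₂ eg₂ if₂)

end Pool.Agent.H3.LC
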