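import Pool.Agent.H3.LC.Defs

/-!
# PR: Pluennecke-Ruzsa

Proof. `V` empty: both sides clear. Otherwise `Finset.pluennecke_ruzsa_inequality_nsmul_sub_nsmul_sub` (the additive form of `pluennecke_ruzsa_inequality_pow_div_pow_div`) with `A = B = V`:
`|m V - n V| ≤ (|V - V| / |V|)^(m+n) |V|`. First: `m = 2, n = 1`. Second: `(V - V) + (V - V) - (V - V) = 3 • V - 3 • V`.
-/

set_option autoImplicit false

namespace Pool.Agent.H3.LC

open scoped Pointwise

lemma PR_aux {G : Type*} [AddCommGroup G] [DecidableEq G] {V : Finset G} (hV : V.Nonempty) {D : ℕ}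
    (h : (V - V).card ≤ D) (m n k : ℕ) (hk : m + n = k + 1) :
    (m • V - n • V).card * V.card ^ k ≤ D ^ (m + n) := by
  have h1 := Finset.pluennecke_ruzsa_inequality_nsmul_sub_nsmul_sub hV V m n
  have h0 : (0 : ℚ≥0) < (V.card : ℚ≥0) := by exact_mod_cast hV.card_pos
  have h2 : (((m • V - n • V).card * V.card ^ k : ℕ) : ℚ≥0) ≤ (((V - V).card ^ (m + n) : ℕ) : ℚ≥0) := by
    push_cast
    calc ((m • V - n • V).card : ℚ≥0) * (V.card : ℚ≥0) ^ k
        ≤ (((V - V).card / V.card : ℚ≥0) ^ (m + n) * V.card) * (V.card : ℚ≥0) ^ k := by gcongr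
      _ = ((V - V).card : ℚ≥0) ^ (m + n) := by
          rw [hk, div_pow]
          field_simp
          rw [pow_succ']
  have h3 : (m • V - n • V).card * V.card ^ k ≤ (V - V).card ^ (m + n) := by exact_mod_cast h2
  exact h3.trans (Nat.pow_le_pow_left h _)

theorem PR {G : Type*} [AddCommGroup G] [DecidableEq G] (V : Finset G) (D : ℕ) (h : (V - V).card ≤ D) :
    (V + V - V).card * V.card ^ 2 ≤ D ^ 3 ∧
      ((V - V) + (V - V) - (V - V)).card * V.card ^ 5 ≤ D ^ 6 := by
  rcases V.eq_empty_or_nonempty with rfl | hV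
  · simp
  · have e1 : V + V - V = 2 • V - 1 • V := by
      rw [two_nsmul, one_nsmul]
    have e2 : (V - V) + (V - V) - (V - V) = 3 • V - 3 • V := by
      have e3 : (3 : ℕ) • V = V + V + V := by
        rw [show (3 : ℕ) = 2 + 1 from rfl, add_nsmul, two_nsmul, one_nsmul]
      rw [e3, sub_add_sub_comm, sub_sub_eq_add_sub, sub_add_eq_add_sub, sub_sub]
    exact ⟨by rw [e1]; exact PR_aux hV h 2 1 2 rfl, by rw [e2]; exact PR_aux hV h 3 3 5 rfl⟩

end Pool.Agent.H3.LC
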