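import Pool.Agent.H3.LC.Defs

/-!
# EN: the energy argument (abstract)

Proof. `r(t) = #{(x, v) ∈ X × V : f x v = t}`; at most `k` values `t`, `∑ r(t) = |X| |V|`, so by Cauchy `(|X| |V|)^2 ≤ k ∑ r(t)^2`, and `∑ r(t)^2 = ∑_{x, x' ∈ X} #{(v, v') : f x v = f x' v'}`
`≤ |X|^2 N1 + |X| h 2 |V|` (for each `x` at most `h` points `x'` of the same class). Divide by `|X|` (`X` empty: clear).
-/

set_option autoImplicit false

namespace Pool.Agent.H3.LC

open Classical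

private theorem EN_sum {P : Type*} (X V : Finset P) (f : P → P → ℝ) :
    ∑ t ∈ (X ×ˢ V).image (fun p => f p.1 p.2), ((X ×ˢ V).filter (fun p => f p.1 p.2 = t)).card ^ 2 =
      ∑ x ∈ X, ∑ x' ∈ X, ((V ×ˢ V).filter (fun p => f x p.1 = f x' p.2)).card := by
  have h1 : ∀ t, ((X ×ˢ V).filter (fun p => f p.1 p.2 = t)).card ^ 2 =
      ∑ p ∈ X ×ˢ V, ∑ q ∈ X ×ˢ V, if f p.1 p.2 = t then (if f q.1 q.2 = t then 1 else 0) else 0 := by
    intro t
    rw [pow_two, Finset.card_filter, Finset.sum_mul_sum]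
    refine Finset.sum_congr rfl fun p _ => Finset.sum_congr rfl fun q _ => ?_
    split_ifs <;> rfl
  rw [Finset.sum_congr rfl fun t _ => h1 t, Finset.sum_comm]
  have h2 : ∀ p ∈ X ×ˢ V, ∑ t ∈ (X ×ˢ V).image (fun p => f p.1 p.2),
      (∑ q ∈ X ×ˢ V, if f p.1 p.2 = t then (if f q.1 q.2 = t then 1 else 0) else 0) =
      ∑ q ∈ X ×ˢ V, if f p.1 p.2 = f q.1 q.2 then 1 else 0 := by
    intro p hp
    rw [Finset.sum_comm]
    refine Finset.sum_congr rfl fun q _ => ?_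
    rw [Finset.sum_ite_eq, if_pos (Finset.mem_image_of_mem _ hp)]
    by_cases h : f p.1 p.2 = f q.1 q.2
    · rw [if_pos h, if_pos h.symm]
    · rw [if_neg h, if_neg (fun h' => h h'.symm)]
  rw [Finset.sum_congr rfl h2, Finset.sum_product]
  refine Finset.sum_congr rfl fun x _ => ?_
  have h3 : ∀ v ∈ V, ∑ q ∈ X ×ˢ V, (if f x v = f q.1 q.2 then 1 else 0) =
      ∑ x' ∈ X, ∑ v' ∈ V, if f x v = f x' v' then 1 else 0 := by
    intro v _
    rw [Finset.sum_product]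
  rw [Finset.sum_congr rfl h3, Finset.sum_comm]
  refine Finset.sum_congr rfl fun x' _ => ?_
  rw [Finset.card_filter, Finset.sum_product]

private theorem EN_row {P : Type*} (X V : Finset P) (f : P → P → ℝ) (cl : P → ℝ) (N1 h : ℕ)
    (h1 : ∀ x ∈ X, ∀ x' ∈ X, cl x ≠ cl x' → ((V ×ˢ V).filter (fun p => f x p.1 = f x' p.2)).card ≤ N1)
    (h2 : ∀ x ∈ X, ∀ x' ∈ X, cl x = cl x' → ((V ×ˢ V).filter (fun p => f x p.1 = f x' p.2)).card ≤ 2 * V.card)
    (hh : ∀ x ∈ X, (X.filter (fun x' => cl x' = cl x)).card ≤ h) {x : P} (hx : x ∈ X) :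
    ∑ x' ∈ X, ((V ×ˢ V).filter (fun p => f x p.1 = f x' p.2)).card ≤ X.card * N1 + 2 * h * V.card := by
  rw [← Finset.sum_filter_add_sum_filter_not X (fun x' => cl x' = cl x)]
  have e1 : ∑ x' ∈ X.filter (fun x' => cl x' = cl x), ((V ×ˢ V).filter (fun p => f x p.1 = f x' p.2)).card ≤
      2 * h * V.card := by
    refine (Finset.sum_le_card_nsmul _ _ (2 * V.card) ?_).trans ?_
    · intro x' hx'
      rw [Finset.mem_filter] at hx'
      exact h2 x hx x' hx'.1 hx'.2.symm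
    · rw [smul_eq_mul]
      calc _ ≤ h * (2 * V.card) := Nat.mul_le_mul_right _ (hh x hx)
        _ = 2 * h * V.card := by ring
  have e2 : ∑ x' ∈ X.filter (fun x' => ¬ cl x' = cl x), ((V ×ˢ V).filter (fun p => f x p.1 = f x' p.2)).card ≤
      X.card * N1 := by
    refine (Finset.sum_le_card_nsmul _ _ N1 ?_).trans ?_
    · intro x' hx'
      rw [Finset.mem_filter] at hx'
      exact h1 x hx x' hx'.1 (fun h' => hx'.2 h'.symm)
    · rw [smul_eq_mul]
      exact Nat.mul_le_mul_right _ (Finset.card_filter_le _ _)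
  omega

theorem EN {P : Type*} (X V : Finset P) (f : P → P → ℝ) (cl : P → ℝ) (k N1 h : ℕ)
    (hk : ((X ×ˢ V).image (fun p => f p.1 p.2)).card ≤ k)
    (h1 : ∀ x ∈ X, ∀ x' ∈ X, cl x ≠ cl x' → ((V ×ˢ V).filter (fun p => f x p.1 = f x' p.2)).card ≤ N1)
    (h2 : ∀ x ∈ X, ∀ x' ∈ X, cl x = cl x' → ((V ×ˢ V).filter (fun p => f x p.1 = f x' p.2)).card ≤ 2 * V.card)
    (hh : ∀ x ∈ X, (X.filter (fun x' => cl x' = cl x)).card ≤ h) :
    X.card * V.card ^ 2 ≤ k * (X.card * N1 + 2 * h * V.card) := by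
  set T : Finset ℝ := (X ×ˢ V).image (fun p => f p.1 p.2) with hT
  have c1 : X.card * V.card = ∑ t ∈ T, ((X ×ˢ V).filter (fun p => f p.1 p.2 = t)).card := by
    rw [← Finset.card_product]
    exact Finset.card_eq_sum_card_image (fun p : P × P => f p.1 p.2) (X ×ˢ V)
  have c2 : (X.card * V.card) ^ 2 ≤ T.card * ∑ t ∈ T, ((X ×ˢ V).filter (fun p => f p.1 p.2 = t)).card ^ 2 := by
    rw [c1]
    exact sq_sum_le_card_mul_sum_sq
  have c3 : ∑ t ∈ T, ((X ×ˢ V).filter (fun p => f p.1 p.2 = t)).card ^ 2 ≤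
      X.card * (X.card * N1 + 2 * h * V.card) := by
    rw [hT, EN_sum]
    refine (Finset.sum_le_card_nsmul _ _ _ fun x hx => EN_row X V f cl N1 h h1 h2 hh hx).trans ?_
    rw [smul_eq_mul]
  have c4 : (X.card * V.card) ^ 2 ≤ k * (X.card * (X.card * N1 + 2 * h * V.card)) :=
    c2.trans (Nat.mul_le_mul hk c3)
  rcases Nat.eq_zero_or_pos X.card with h0 | h0
  · rw [h0, zero_mul]
    exact Nat.zero_le _
  · refine Nat.le_of_mul_le_mul_left ?_ h0
    calc X.card * (X.card * V.card ^ 2) = (X.card * V.card) ^ 2 := by ring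
      _ ≤ k * (X.card * (X.card * N1 + 2 * h * V.card)) := c4
      _ = X.card * (k * (X.card * N1 + 2 * h * V.card)) := by ring

end Pool.Agent.H3.LC
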