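import Pool.Agent.H3.LC.KA1
import Pool.Agent.H3.LC.EN

/-!
# C3a: few points on poor concentric circles

Proof. `N1` = maximum over `x, x' ∈ poorC` with `dist x O ≠ dist x' O` of the number of `(v, v') ∈ V × V` with `dist x v = dist x' v'` (`0` if there are no such `x, x'`), `V = circ A O R`;
the first inequality is `KA1` at the maximum (or `0`). `EN` with `X = poorC A O R h`, `f = dist`, `cl x = dist x O`, `k = |dset A|`: `x ∈ X`, `v ∈ V` are different points of `A`
(different radii); for equal radii at most two `v'` for each `v` (`near2`); classes: contained in `circ A O (dist x O)`, fewer than `h` points.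
-/

set_option autoImplicit false

namespace Pool.Agent.H3.LC

open scoped Pointwise
open Classical

theorem C3a (A : Finset Plane) (O : Plane) (R : ℝ) (hR : 0 < R) (D h : ℕ) (hD : 2 * (dset A).card + 1 ≤ D) :
    ∃ N1 : ℕ, N1 ^ 4 * (circ A O R).card ^ 6 ≤ 71639296 * D ^ 9 ∧
      (poorC A O R h).card * (circ A O R).card ^ 2 ≤
        (dset A).card * ((poorC A O R h).card * N1 + 2 * h * (circ A O R).card) := by
  have hpoor : ∀ x ∈ poorC A O R h, x ∈ A ∧ dist x O ≠ R ∧ x ≠ O ∧
      (circ A O (dist x O)).card < h := by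
    intro x hx
    unfold poorC at hx
    exact Finset.mem_filter.1 hx
  have hcirc : ∀ v ∈ circ A O R, v ∈ A ∧ dist v O = R := by
    intro v hv
    unfold circ at hv
    exact Finset.mem_filter.1 hv
  let Q : Finset (Plane × Plane) := (poorC A O R h ×ˢ poorC A O R h).filter
    (fun q => dist q.1 O ≠ dist q.2 O)
  let cnt : Plane × Plane → ℕ := fun q => (((circ A O R) ×ˢ (circ A O R)).filter
    (fun p => dist q.1 p.1 = dist q.2 p.2)).card
  refine ⟨Q.sup cnt, ?_, ?_⟩
  · rcases Q.eq_empty_or_nonempty with hQ | hQ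
    · rw [hQ, Finset.sup_empty]
      simp
    · obtain ⟨q, hq, e⟩ := Finset.exists_mem_eq_sup Q hQ cnt
      rw [e]
      obtain ⟨hq1, hq2⟩ := Finset.mem_filter.1 hq
      obtain ⟨hq3, hq4⟩ := Finset.mem_product.1 hq1
      exact KA1 A O R hR D hD q.1 q.2 (hpoor _ hq3).2.2.1 (hpoor _ hq4).2.2.1 hq2
  · refine EN (poorC A O R h) (circ A O R) (fun x v => dist x v) (fun x => dist x O)
      (dset A).card (Q.sup cnt) h ?_ ?_ ?_ ?_
    · apply Finset.card_le_card
      intro d hd
      obtain ⟨p, hp, rfl⟩ := Finset.mem_image.1 hd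
      obtain ⟨hp1, hp2⟩ := Finset.mem_product.1 hp
      unfold dset
      refine Finset.mem_image.2 ⟨p, Finset.mem_offDiag.2 ⟨(hpoor _ hp1).1, (hcirc _ hp2).1, ?_⟩, rfl⟩
      intro e
      apply (hpoor _ hp1).2.1
      rw [e]
      exact (hcirc _ hp2).2
    · intro x hx x' hx' hne
      exact Finset.le_sup (f := cnt) (b := (x, x'))
        (Finset.mem_filter.2 ⟨Finset.mem_product.2 ⟨hx, hx'⟩, hne⟩)
    · intro x hx x' hx' _
      have h1 : ((circ A O R) ×ˢ (circ A O R)).filter (fun p => dist x p.1 = dist x' p.2) ⊆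
          (circ A O R).biUnion (fun v => ((circ A O R).filter
            (fun v' => dist x' v' = dist x v)).image (fun v' => (v, v'))) := by
        intro p hp
        obtain ⟨hp1, hp2⟩ := Finset.mem_filter.1 hp
        obtain ⟨hp3, hp4⟩ := Finset.mem_product.1 hp1
        exact Finset.mem_biUnion.2 ⟨p.1, hp3, Finset.mem_image.2
          ⟨p.2, Finset.mem_filter.2 ⟨hp4, hp2.symm⟩, rfl⟩⟩
      refine (Finset.card_le_card h1).trans ?_
      rw [mul_comm]
      refine Finset.card_biUnion_le_card_mul _ _ _ (fun v _ => ?_)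
      exact Finset.card_image_le.trans (near2 A O R hR x' (hpoor _ hx').2.2.1 (dist x v))
    · intro x hx
      refine le_trans (Finset.card_le_card ?_) (hpoor _ hx).2.2.2.le
      intro y hy
      obtain ⟨hy1, hy2⟩ := Finset.mem_filter.1 hy
      unfold circ
      exact Finset.mem_filter.2 ⟨(hpoor _ hy1).1, hy2⟩

end Pool.Agent.H3.LC
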