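import Pool.Agent.H3.LC.KA2

/-!
# C3c: the pairs of `A` whose distance is a distance of `V = circ A O R`
-/

set_option autoImplicit false

namespace Pool.Agent.H3.LC

open scoped Pointwise
open Classical

/-- the rich radii -/
noncomputable def C3c_Rr (A : Finset Plane) (O : Plane) (h : ℕ) : Finset ℝ :=
  (A.image (fun x => dist x O)).filter (fun r => 0 < r ∧ h ≤ (circ A O r).card)

/-- the pairs (point, rich radius) -/
noncomputable def C3c_I (A : Finset Plane) (O : Plane) (R : ℝ) (h : ℕ) : Finset (Plane × ℝ) :=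
  (A ×ˢ C3c_Rr A O h).filter (fun q => q.1 ≠ O ∧ ¬ (dist q.1 O = R ∧ q.2 = R))

/-- the partners of a point on a rich circle -/
noncomputable def C3c_P (A : Finset Plane) (O : Plane) (R : ℝ) (q : Plane × ℝ) : Finset Plane :=
  (circ A O q.2).filter (fun u => dist q.1 u ∈ dset (circ A O R))

theorem C3c_rich (A : Finset Plane) (O : Plane) (h : ℕ) (hh : 0 < h) : (C3c_Rr A O h).card ≤ A.card / h := by
  rw [Nat.le_div_iff_mul_le hh]
  have h1 : (C3c_Rr A O h).card * h ≤ ∑ r ∈ C3c_Rr A O h, (circ A O r).card := by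
    have := Finset.card_nsmul_le_sum (C3c_Rr A O h) (fun r => (circ A O r).card) h (by
      intro r hr
      exact (Finset.mem_filter.mp hr).2.2)
    simpa [smul_eq_mul] using this
  have h2 : ((C3c_Rr A O h).biUnion (circ A O)).card = ∑ r ∈ C3c_Rr A O h, (circ A O r).card := by
    apply Finset.card_biUnion
    intro r _ r' _ hne
    change Disjoint (circ A O r) (circ A O r')
    rw [Finset.disjoint_left]
    intro x hx hx'
    unfold circ at hx hx'
    rw [Finset.mem_filter] at hx hx'
    exact hne (hx.2.symm.trans hx'.2)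
  have h3 : ((C3c_Rr A O h).biUnion (circ A O)) ⊆ A := by
    intro x hx
    rw [Finset.mem_biUnion] at hx
    obtain ⟨r, _, hr⟩ := hx
    unfold circ at hr
    exact (Finset.mem_filter.mp hr).1
  have h4 := Finset.card_le_card h3
  omega

theorem C3c (A : Finset Plane) (O : Plane) (R : ℝ) (hR : 0 < R) (D h : ℕ) (hD : 2 * (dset A).card + 1 ≤ D)
    (hh : 0 < h) (hV : h ≤ (circ A O R).card) :
    ∃ N3 : ℕ, N3 ^ 4 * h ^ 4 * (circ A O R).card ^ 5 ≤ 4477456 * D ^ 12 ∧
      (A.offDiag.filter (fun p => dist p.1 p.2 ∈ dset (circ A O R))).card ≤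
        (circ A O R).card ^ 2 + 2 * A.card + 2 * (A.card * (A.card / h) * N3) + (poorC A O R h).card ^ 2 := by
  refine ⟨(C3c_I A O R h).sup (fun q => (C3c_P A O R q).card), ?_, ?_⟩
  · rcases Finset.eq_empty_or_nonempty (C3c_I A O R h) with he | hne
    · rw [he]
      simp
    · obtain ⟨q, hq, hqe⟩ := Finset.exists_mem_eq_sup (C3c_I A O R h) hne (fun q => (C3c_P A O R q).card)
      rw [hqe]
      unfold C3c_I at hq
      rw [Finset.mem_filter, Finset.mem_product] at hq
      obtain ⟨⟨_, hq2⟩, hqO, hqR⟩ := hq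
      have hr := (Finset.mem_filter.mp hq2).2
      have hK := KA2 A O R hR D hD q.1 hqO q.2 hr.1 hqR
      refine le_trans ?_ hK
      unfold C3c_P
      exact Nat.mul_le_mul_right _ (Nat.mul_le_mul_left _ (Nat.pow_le_pow_left hr.2 4))
  · set N3 := (C3c_I A O R h).sup (fun q => (C3c_P A O R q).card) with hN3
    set S1 : Finset (Plane × Plane) := (C3c_I A O R h).biUnion (fun q => ({q.1} : Finset Plane) ×ˢ C3c_P A O R q) with hS1
    have hS1c : S1.card ≤ A.card * (A.card / h) * N3 := by
      have h1 : S1.card ≤ (C3c_I A O R h).card * N3 := by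
        apply Finset.card_biUnion_le_card_mul
        intro q hq
        rw [Finset.card_product, Finset.card_singleton, one_mul]
        exact Finset.le_sup (f := fun q => (C3c_P A O R q).card) hq
      have h2 : (C3c_I A O R h).card ≤ A.card * (A.card / h) := by
        calc (C3c_I A O R h).card ≤ (A ×ˢ C3c_Rr A O h).card := Finset.card_filter_le _ _
          _ = A.card * (C3c_Rr A O h).card := Finset.card_product _ _
          _ ≤ A.card * (A.card / h) := Nat.mul_le_mul_left _ (C3c_rich A O h hh)
      exact h1.trans (Nat.mul_le_mul_right _ h2)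
    set V := circ A O R with hVdef
    have hVA : ∀ x, x ∈ V ↔ x ∈ A ∧ dist x O = R := by
      intro x
      rw [hVdef]
      unfold circ
      rw [Finset.mem_filter]
    have hsub : A.offDiag.filter (fun p => dist p.1 p.2 ∈ dset V) ⊆
        (((((V ×ˢ V) ∪ (({O} : Finset Plane) ×ˢ A)) ∪ (A ×ˢ ({O} : Finset Plane))) ∪ S1) ∪ S1.image Prod.swap) ∪
          (poorC A O R h ×ˢ poorC A O R h) := by
      have hmem : ∀ x x' : Plane, x ∈ A → x' ∈ A → x ≠ O → x' ≠ O → ¬ (x ∈ V ∧ x' ∈ V) →
          h ≤ (circ A O (dist x' O)).card → dist x x' ∈ dset V → (x, x') ∈ S1 := by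
        intro x x' hx hx' hxO hx'O hnV hrich hd
        rw [hS1, Finset.mem_biUnion]
        refine ⟨(x, dist x' O), ?_, ?_⟩
        · unfold C3c_I C3c_Rr
          rw [Finset.mem_filter, Finset.mem_product, Finset.mem_filter, Finset.mem_image]
          refine ⟨⟨hx, ⟨x', hx', rfl⟩, dist_pos.mpr hx'O, hrich⟩, hxO, ?_⟩
          rintro ⟨h1, h2⟩
          exact hnV ⟨(hVA x).mpr ⟨hx, h1⟩, (hVA x').mpr ⟨hx', h2⟩⟩
        · rw [Finset.mem_product, Finset.mem_singleton]
          refine ⟨rfl, ?_⟩
          unfold C3c_P circ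
          rw [Finset.mem_filter, Finset.mem_filter]
          exact ⟨⟨hx', rfl⟩, hd⟩
      have hpoor : ∀ x : Plane, x ∈ A → x ≠ O → ¬ h ≤ (circ A O (dist x O)).card → x ∈ poorC A O R h := by
        intro x hx hxO hp
        unfold poorC
        rw [Finset.mem_filter]
        refine ⟨hx, ?_, hxO, not_le.mp hp⟩
        intro hRx
        apply hp
        rw [hRx]
        exact hV
      intro p hp
      rw [Finset.mem_filter, Finset.mem_offDiag] at hp
      obtain ⟨⟨hx, hx', hne⟩, hd⟩ := hp
      obtain ⟨x, x'⟩ := p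
      simp only at hx hx' hne hd
      by_cases hxO : x = O
      · rw [Finset.mem_union, Finset.mem_union, Finset.mem_union, Finset.mem_union, Finset.mem_union]
        left; left; left; left; right
        rw [Finset.mem_product, Finset.mem_singleton]
        exact ⟨hxO, hx'⟩
      by_cases hx'O : x' = O
      · rw [Finset.mem_union, Finset.mem_union, Finset.mem_union, Finset.mem_union]
        left; left; left; right
        rw [Finset.mem_product, Finset.mem_singleton]
        exact ⟨hx, hx'O⟩
      by_cases hVV : x ∈ V ∧ x' ∈ V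
      · rw [Finset.mem_union, Finset.mem_union, Finset.mem_union, Finset.mem_union, Finset.mem_union]
        left; left; left; left; left
        rw [Finset.mem_product]
        exact hVV
      by_cases hr' : h ≤ (circ A O (dist x' O)).card
      · rw [Finset.mem_union, Finset.mem_union, Finset.mem_union]
        left; left; right
        exact hmem x x' hx hx' hxO hx'O hVV hr' hd
      by_cases hr : h ≤ (circ A O (dist x O)).card
      · rw [Finset.mem_union, Finset.mem_union]
        left; right
        rw [Finset.mem_image]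
        refine ⟨(x', x), hmem x' x hx' hx hx'O hxO (fun hc => hVV ⟨hc.2, hc.1⟩) hr ?_, rfl⟩
        rw [dist_comm]
        exact hd
      · rw [Finset.mem_union]
        right
        rw [Finset.mem_product]
        exact ⟨hpoor x hx hxO hr, hpoor x' hx' hx'O hr'⟩
    have hc := Finset.card_le_card hsub
    have e1 := Finset.card_union_le (((((V ×ˢ V) ∪ (({O} : Finset Plane) ×ˢ A)) ∪ (A ×ˢ ({O} : Finset Plane))) ∪ S1) ∪ S1.image Prod.swap)
          (poorC A O R h ×ˢ poorC A O R h)
    have e2 := Finset.card_union_le ((((V ×ˢ V) ∪ (({O} : Finset Plane) ×ˢ A)) ∪ (A ×ˢ ({O} : Finset Plane))) ∪ S1) (S1.image Prod.swap)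
    have e3 := Finset.card_union_le (((V ×ˢ V) ∪ (({O} : Finset Plane) ×ˢ A)) ∪ (A ×ˢ ({O} : Finset Plane))) S1
    have e4 := Finset.card_union_le ((V ×ˢ V) ∪ (({O} : Finset Plane) ×ˢ A)) (A ×ˢ ({O} : Finset Plane))
    have e5 := Finset.card_union_le (V ×ˢ V) (({O} : Finset Plane) ×ˢ A)
    have e6 : (S1.image Prod.swap).card ≤ S1.card := Finset.card_image_le
    rw [Finset.card_product] at e1 e4 e5
    rw [Finset.card_product, Finset.card_singleton] at e5
    rw [Finset.card_singleton] at e4
    rw [pow_two, pow_two]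
    omega

end Pool.Agent.H3.LC
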