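import Pool.Agent.H3.LC.KA2
import Pool.Agent.H3.LC.BAS

/-!
# C3d: many points on a circle

Proof. `V = circ A O R`, `n = |A|`, `m = |V|`, `t = n - m`. `N4` = maximum over `x ∈ A \ V`, `x ≠ O`, of `#{v ∈ V : dist x v ∈ dset V}` (`0` if there are none): `N4^4 m^9 ≤ 4477456 D^12`
(`KA2` with `r = R`). Let `d ∈ dset V`, `d ≠ R`, be not low for `A`: at least `2n + 1` ordered pairs of `A`, at most `2m` of them in `V × V` (`mult_circ`), so at least `2t + 1` are not in
`V × V`; such a pair is not `(O, v)` or `(v, O)` with `v ∈ V` (distance `R`), so it is `(x, v)` or `(v, x)` with `x ∈ A \ V`, `x ≠ O`, `v ∈ V`, or both points are outside `V`. Summing over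
these `d` (`q` of them): `q (2t+1) ≤ 2 t N4 + t^2`, so `2 q ≤ 2 N4 + t`. At most `1 + low A + q` distances in `dset V`, and `m ≤ 2 |dset V| + 1` (`dset_circ`).
-/

set_option autoImplicit false

namespace Pool.Agent.H3.LC

open scoped Pointwise
open Classical

/-- bad pairs of `A` with distance in `Q` -/
private theorem C3d_type1 (A V : Finset Plane) (O : Plane) (R : ℝ) (hVdef : V = circ A O R) (Q : Finset ℝ)
    (hQ : Q ⊆ dset V) (hQR : R ∉ Q) (N : ℕ)
    (hN : ∀ x ∈ A \ V, x ≠ O → (V.filter (fun v => dist x v ∈ dset V)).card ≤ N) :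
    ((A.offDiag).filter (fun p => p.1 ∉ V ∧ p.2 ∈ V ∧ dist p.1 p.2 ∈ Q)).card ≤ (A \ V).card * N := by
  rw [mul_comm]
  refine Finset.card_le_mul_card_image_of_maps_to (f := fun p : Plane × Plane => p.1)
    (fun p hp => ?_) N fun x hx => ?_
  · rw [Finset.mem_filter, Finset.mem_offDiag] at hp
    rw [Finset.mem_sdiff]
    exact ⟨hp.1.1, hp.2.1⟩
  · by_cases hxO : x = O
    · rw [Finset.card_eq_zero.2]
      · exact Nat.zero_le _
      · rw [Finset.filter_eq_empty_iff]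
        intro p hp h
        rw [Finset.mem_filter] at hp
        have h2 : p.2 ∈ V := hp.2.2.1
        rw [hVdef, circ, Finset.mem_filter] at h2
        apply hQR
        have h3 := hp.2.2.2
        rw [h, hxO, dist_comm, h2.2] at h3
        exact h3
    · refine le_trans ?_ (hN x hx hxO)
      refine Finset.card_le_card_of_injOn (fun p => p.2) (fun p hp => ?_) fun p hp q hq h => ?_
      · rw [Finset.mem_coe, Finset.mem_filter, Finset.mem_filter] at hp
        rw [Finset.mem_coe, Finset.mem_filter]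
        refine ⟨hp.1.2.2.1, ?_⟩
        rw [← hp.2]
        exact hQ hp.1.2.2.2
      · rw [Finset.mem_coe, Finset.mem_filter] at hp hq
        exact Prod.ext (hp.2.trans hq.2.symm) h

private theorem C3d_type2 (A V : Finset Plane) (O : Plane) (R : ℝ) (hVdef : V = circ A O R) (Q : Finset ℝ)
    (hQ : Q ⊆ dset V) (hQR : R ∉ Q) (N : ℕ)
    (hN : ∀ x ∈ A \ V, x ≠ O → (V.filter (fun v => dist x v ∈ dset V)).card ≤ N) :
    ((A.offDiag).filter (fun p => p.1 ∈ V ∧ p.2 ∉ V ∧ dist p.1 p.2 ∈ Q)).card ≤ (A \ V).card * N := by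
  refine le_trans ?_ (C3d_type1 A V O R hVdef Q hQ hQR N hN)
  refine Finset.card_le_card_of_injOn Prod.swap (fun p hp => ?_) (Prod.swap_injective.injOn)
  rw [Finset.mem_coe, Finset.mem_filter, Finset.mem_offDiag] at hp
  rw [Finset.mem_coe, Finset.mem_filter, Finset.mem_offDiag]
  refine ⟨⟨hp.1.2.1, hp.1.1, fun h => hp.1.2.2 h.symm⟩, hp.2.2.1, hp.2.1, ?_⟩
  have := hp.2.2.2
  rw [dist_comm] at this
  exact this

private theorem C3d_type3 (A V : Finset Plane) (Q : Finset ℝ) :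
    ((A.offDiag).filter (fun p => p.1 ∉ V ∧ p.2 ∉ V ∧ dist p.1 p.2 ∈ Q)).card ≤ (A \ V).card * (A \ V).card := by
  rw [← Finset.card_product]
  refine Finset.card_le_card fun p hp => ?_
  rw [Finset.mem_filter, Finset.mem_offDiag] at hp
  rw [Finset.mem_product, Finset.mem_sdiff, Finset.mem_sdiff]
  exact ⟨⟨hp.1.1, hp.2.1⟩, hp.1.2.1, hp.2.2.1⟩

private theorem C3d_count (A : Finset Plane) (O : Plane) (R : ℝ) (hR : 0 < R) (Q : Finset ℝ)
    (hQ : Q ⊆ dset (circ A O R)) (hQR : R ∉ Q)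
    (hlow : ∀ d ∈ Q, 2 * A.card + 1 ≤ (A.offDiag.filter (fun p => dist p.1 p.2 = d)).card) (N : ℕ)
    (hN : ∀ x ∈ A \ circ A O R, x ≠ O →
      ((circ A O R).filter (fun v => dist x v ∈ dset (circ A O R))).card ≤ N) :
    2 * Q.card ≤ 2 * N + (A.card - (circ A O R).card) := by
  obtain ⟨V, hV⟩ : ∃ V, V = circ A O R := ⟨_, rfl⟩
  rw [← hV] at hQ hN ⊢
  have hVA : V ⊆ A := by rw [hV]; exact Finset.filter_subset _ _
  have hcard : (A \ V).card = A.card - V.card := Finset.card_sdiff_of_subset hVA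
  have hle : V.card ≤ A.card := Finset.card_le_card hVA
  have h1 : ∀ d ∈ Q, 2 * (A \ V).card + 1 ≤ ((A.offDiag.filter (fun p => ¬ (p.1 ∈ V ∧ p.2 ∈ V) ∧ dist p.1 p.2 ∈ Q)).filter
      (fun p => dist p.1 p.2 = d)).card := by
    intro d hd
    have h2 := hlow d hd
    have h3 := mult_circ A O R hR d
    rw [← hV] at h3
    have h4 : A.offDiag.filter (fun p => dist p.1 p.2 = d) ⊆
        ((A.offDiag.filter (fun p => ¬ (p.1 ∈ V ∧ p.2 ∈ V) ∧ dist p.1 p.2 ∈ Q)).filter
          (fun p => dist p.1 p.2 = d)) ∪ (V.offDiag.filter (fun p => dist p.1 p.2 = d)) := by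
      intro p hp
      rw [Finset.mem_filter] at hp
      rw [Finset.mem_union]
      by_cases hc : p.1 ∈ V ∧ p.2 ∈ V
      · right
        exact Finset.mem_filter.2 ⟨Finset.mem_offDiag.2 ⟨hc.1, hc.2, (Finset.mem_offDiag.1 hp.1).2.2⟩, hp.2⟩
      · left
        exact Finset.mem_filter.2 ⟨Finset.mem_filter.2 ⟨hp.1, hc, by rw [hp.2]; exact hd⟩, hp.2⟩
    have h5 := (Finset.card_le_card h4).trans (Finset.card_union_le _ _)
    omega
  have h2 : Q.card * (2 * (A \ V).card + 1) ≤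
      (A.offDiag.filter (fun p => ¬ (p.1 ∈ V ∧ p.2 ∈ V) ∧ dist p.1 p.2 ∈ Q)).card := by
    have h3 := Finset.card_eq_sum_card_fiberwise
      (s := A.offDiag.filter (fun p => ¬ (p.1 ∈ V ∧ p.2 ∈ V) ∧ dist p.1 p.2 ∈ Q))
      (t := Q) (f := fun p : Plane × Plane => dist p.1 p.2)
      (fun p hp => (Finset.mem_filter.1 hp).2.2)
    rw [h3, ← smul_eq_mul, ← Finset.sum_const]
    exact Finset.sum_le_sum fun d hd => h1 d hd
  have h3 : A.offDiag.filter (fun p => ¬ (p.1 ∈ V ∧ p.2 ∈ V) ∧ dist p.1 p.2 ∈ Q) ⊆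
      (((A.offDiag).filter (fun p => p.1 ∉ V ∧ p.2 ∈ V ∧ dist p.1 p.2 ∈ Q)) ∪
      ((A.offDiag).filter (fun p => p.1 ∈ V ∧ p.2 ∉ V ∧ dist p.1 p.2 ∈ Q))) ∪
      ((A.offDiag).filter (fun p => p.1 ∉ V ∧ p.2 ∉ V ∧ dist p.1 p.2 ∈ Q)) := by
    intro p hp
    rw [Finset.mem_filter] at hp
    rw [Finset.mem_union, Finset.mem_union, Finset.mem_filter, Finset.mem_filter, Finset.mem_filter]
    by_cases h1 : p.1 ∈ V
    · by_cases h2 : p.2 ∈ V
      · exact absurd ⟨h1, h2⟩ hp.2.1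
      · exact Or.inl (Or.inr ⟨hp.1, h1, h2, hp.2.2⟩)
    · by_cases h2 : p.2 ∈ V
      · exact Or.inl (Or.inl ⟨hp.1, h1, h2, hp.2.2⟩)
      · exact Or.inr ⟨hp.1, h1, h2, hp.2.2⟩
  have h4 := (Finset.card_le_card h3).trans (Finset.card_union_le _ _)
  have h5 := Finset.card_union_le ((A.offDiag).filter (fun p => p.1 ∉ V ∧ p.2 ∈ V ∧ dist p.1 p.2 ∈ Q))
    ((A.offDiag).filter (fun p => p.1 ∈ V ∧ p.2 ∉ V ∧ dist p.1 p.2 ∈ Q))
  have t1 := C3d_type1 A V O R hV Q hQ hQR N hN
  have t2 := C3d_type2 A V O R hV Q hQ hQR N hN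
  have t3 := C3d_type3 A V Q
  rw [← hcard]
  obtain ⟨t, ht⟩ : ∃ t, t = (A \ V).card := ⟨_, rfl⟩
  rw [← ht] at h2 t1 t2 t3 ⊢
  have h6 : Q.card * (2 * t + 1) ≤ t * N + t * N + t * t := by omega
  by_contra hc
  push Not at hc
  have h7 : (2 * N + t + 1) * (2 * t + 1) ≤ 2 * Q.card * (2 * t + 1) := Nat.mul_le_mul_right _ hc
  nlinarith

theorem C3d (A : Finset Plane) (O : Plane) (R : ℝ) (hR : 0 < R) (D : ℕ) (hD : 2 * (dset A).card + 1 ≤ D) :
    ∃ N4 : ℕ, N4 ^ 4 * (circ A O R).card ^ 9 ≤ 4477456 * D ^ 12 ∧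
      (circ A O R).card ≤ 3 + 2 * low A + 2 * N4 + (A.card - (circ A O R).card) := by
  obtain ⟨N, hN⟩ : ∃ N : ℕ, N = ((A \ circ A O R).filter (fun x => x ≠ O)).sup
      (fun x => ((circ A O R).filter (fun v => dist x v ∈ dset (circ A O R))).card) := ⟨_, rfl⟩
  refine ⟨N, ?_, ?_⟩
  · rcases ((A \ circ A O R).filter (fun x => x ≠ O)).eq_empty_or_nonempty with h | h
    · rw [h, Finset.sup_empty] at hN
      rw [hN]
      simp
    · obtain ⟨x, hx, hx2⟩ := Finset.exists_mem_eq_sup _ h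
        (fun x => ((circ A O R).filter (fun v => dist x v ∈ dset (circ A O R))).card)
      rw [hN, hx2]
      rw [Finset.mem_filter, Finset.mem_sdiff] at hx
      have h1 := KA2 A O R hR D hD x hx.2 R hR (by
        rintro ⟨h1, -⟩
        exact hx.1.2 (Finset.mem_filter.2 ⟨hx.1.1, h1⟩))
      calc _ = ((circ A O R).filter (fun u => dist x u ∈ dset (circ A O R))).card ^ 4 *
            (circ A O R).card ^ 4 * (circ A O R).card ^ 5 := by ring
        _ ≤ _ := h1
  · obtain ⟨Q, hQ⟩ : ∃ Q, Q = (dset (circ A O R)).filter (fun d => d ≠ R ∧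
      ¬ (A.offDiag.filter (fun p => dist p.1 p.2 = d)).card ≤ 2 * A.card) := ⟨_, rfl⟩
    have h1 := C3d_count A O R hR Q (by rw [hQ]; exact Finset.filter_subset _ _)
      (by rw [hQ, Finset.mem_filter]; exact fun h => h.2.1 rfl)
      (fun d hd => by
        rw [hQ, Finset.mem_filter] at hd
        have := hd.2.2
        omega) N (fun x hx hxO => by
        rw [hN]
        exact Finset.le_sup (f := fun x => ((circ A O R).filter
          (fun v => dist x v ∈ dset (circ A O R))).card) (Finset.mem_filter.2 ⟨hx, hxO⟩))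
    have h2 : dset (circ A O R) ⊆ insert R (Q ∪ (dset A).filter (fun d =>
        (A.offDiag.filter (fun p => dist p.1 p.2 = d)).card ≤ 2 * A.card)) := by
      intro d hd
      have hdA : d ∈ dset A := by
        unfold dset at hd ⊢
        rw [Finset.mem_image] at hd ⊢
        obtain ⟨p, hp, hp2⟩ := hd
        rw [Finset.mem_offDiag] at hp
        exact ⟨p, Finset.mem_offDiag.2 ⟨(Finset.mem_filter.1 hp.1).1, (Finset.mem_filter.1 hp.2.1).1, hp.2.2⟩, hp2⟩
      rw [Finset.mem_insert, Finset.mem_union, hQ, Finset.mem_filter, Finset.mem_filter]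
      by_cases h1 : d = R
      · exact Or.inl h1
      · by_cases h2 : (A.offDiag.filter (fun p => dist p.1 p.2 = d)).card ≤ 2 * A.card
        · exact Or.inr (Or.inr ⟨hdA, h2⟩)
        · exact Or.inr (Or.inl ⟨hd, h1, h2⟩)
    have h3 := (Finset.card_le_card h2).trans (Finset.card_insert_le _ _)
    have h4 := Finset.card_union_le Q ((dset A).filter (fun d =>
        (A.offDiag.filter (fun p => dist p.1 p.2 = d)).card ≤ 2 * A.card))
    have h5 : ((dset A).filter (fun d =>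
        (A.offDiag.filter (fun p => dist p.1 p.2 = d)).card ≤ 2 * A.card)).card = low A := rfl
    have h6 := dset_circ A O R hR
    omega

end Pool.Agent.H3.LC
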