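import Pool.Agent.H3.LC.CLaw

/-!
# CDIF: angle differences of points of `A` on circles about `O`

Proof. Let `δ = ang O u - ang O u'`, `u` on the circle of radius `r`, `u'` on the one of radius `r'`. By `CLaw` `cos δ = (r^2 + r'^2 - d^2) / (2 r r')` with `d = dist u u'`. If `u ≠ u'` then
`d ∈ dset A`; for each `d` there are at most two `δ` (`Real.Angle.cos_eq_iff_eq_or_eq_neg`). If `u = u'` then `δ = 0`. So the set of differences is contained in `{0}` and, for each
`d ∈ dset A`, a set of at most two elements (`Finset.card_biUnion_le`, or map `δ` to `d`: `Finset.card_le_mul_card_image`).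
-/

set_option autoImplicit false

namespace Pool.Agent.H3.LC

open scoped Pointwise
open Classical

theorem CDIF_two (S : Finset Real.Angle) (r r' d : ℝ) (hr : 0 < r) (hr' : 0 < r') :
    (S.filter (fun s : Real.Angle => d ^ 2 = r ^ 2 + r' ^ 2 - 2 * r * r' * s.cos)).card ≤ 2 := by
  rcases (S.filter (fun s : Real.Angle => d ^ 2 = r ^ 2 + r' ^ 2 - 2 * r * r' * s.cos)).eq_empty_or_nonempty with h | ⟨s0, hs0⟩
  · rw [h]; simp
  · have hsub : S.filter (fun s : Real.Angle => d ^ 2 = r ^ 2 + r' ^ 2 - 2 * r * r' * s.cos) ⊆ {s0, -s0} := by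
      intro s hs
      rw [Finset.mem_filter] at hs hs0
      have h1 : 2 * r * r' * s.cos = 2 * r * r' * s0.cos := by linarith [hs.2, hs0.2]
      have h2 : s.cos = s0.cos := mul_left_cancel₀ (by positivity) h1
      rcases Real.Angle.cos_eq_iff_eq_or_eq_neg.1 h2 with h | h
      · rw [h]; simp
      · rw [h]; simp
    exact (Finset.card_le_card hsub).trans Finset.card_le_two

theorem CDIF (A : Finset Plane) (O : Plane) (r r' : ℝ) (hr : 0 < r) (hr' : 0 < r') :
    ((circ A O r).image (ang O) - (circ A O r').image (ang O)).card ≤ 2 * (dset A).card + 1 := by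
  set S := (circ A O r).image (ang O) - (circ A O r').image (ang O) with hS
  have hsub : S ⊆ {0} ∪ (dset A).biUnion (fun d => S.filter (fun s : Real.Angle => d ^ 2 = r ^ 2 + r' ^ 2 - 2 * r * r' * s.cos)) := by
    intro s hs
    obtain ⟨x, hx, y, hy, hxy⟩ := Finset.mem_sub.1 (hS ▸ hs)
    obtain ⟨u, hu, rfl⟩ := Finset.mem_image.1 hx
    obtain ⟨v, hv, rfl⟩ := Finset.mem_image.1 hy
    by_cases huv : u = v
    · subst huv
      rw [sub_self] at hxy
      rw [← hxy]
      simp
    · refine Finset.mem_union_right _ (Finset.mem_biUnion.2 ⟨dist u v, ?_, Finset.mem_filter.2 ⟨hs, ?_⟩⟩)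
      · refine Finset.mem_image.2 ⟨(u, v), Finset.mem_offDiag.2 ⟨?_, ?_, huv⟩, rfl⟩
        · exact (Finset.mem_filter.1 hu).1
        · exact (Finset.mem_filter.1 hv).1
      · have h1 := CLaw O u v
        rw [hxy, (Finset.mem_filter.1 hu).2, (Finset.mem_filter.1 hv).2] at h1
        exact h1
  calc S.card ≤ ({0} ∪ (dset A).biUnion (fun d => S.filter (fun s : Real.Angle => d ^ 2 = r ^ 2 + r' ^ 2 - 2 * r * r' * s.cos))).card :=
        Finset.card_le_card hsub
    _ ≤ ({0} : Finset Real.Angle).card + ((dset A).biUnion (fun d => S.filter (fun s : Real.Angle => d ^ 2 = r ^ 2 + r' ^ 2 - 2 * r * r' * s.cos))).card :=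
        Finset.card_union_le _ _
    _ ≤ 1 + (dset A).card * 2 := by
        gcongr
        · simp
        · exact Finset.card_biUnion_le_card_mul _ _ _ (fun d _ => CDIF_two S r r' d hr hr')
    _ = 2 * (dset A).card + 1 := by ring

end Pool.Agent.H3.LC
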