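import Pool.Agent.H3.LC.Defs

/-!
# CLaw: law of cosines, angles of the points of a circle

`CLaw`: with `z = (x 0 - O 0) + i (x 1 - O 1)`, `w` the same for `v`: `dist x v = ‖z - w‖`, `dist x O = ‖z‖`, `z = ‖z‖ (cos arg z + i sin arg z)` (`Complex.norm_mul_cos_arg`,
`Complex.norm_mul_sin_arg`), `cos (arg z - arg w) = cos cos + sin sin` (`Real.Angle.cos_coe`, `Real.Angle.coe_sub`). Distances in the plane: `EuclideanSpace.dist_eq`, `Fin.sum_univ_two`.
`ang_inj`: `arg z = arg w` as angles gives equality of the real arguments (`Real.Angle.toReal` of `arg`, `Complex.arg_mem_Ioc`; or `CLaw`: the cosine is `1`, so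
`dist x v ^ 2 = (dist x O - dist v O) ^ 2 = 0`). `ang_card`: `Finset.card_image_of_injOn`.
`near2`: a point `x ≠ O` has at most two points at distance `d` on a circle about `O` of radius `r > 0`: by `CLaw` `cos (ang O v - ang O x)` is determined, so `ang O v - ang O x` has at most
two values (`Real.Angle.cos_eq_iff_eq_or_eq_neg`), and `ang` is injective on the circle.
-/

set_option autoImplicit false

namespace Pool.Agent.H3.LC

open scoped Pointwise
open Classical

theorem CLaw_dsq (x y : Plane) : dist x y ^ 2 = (x 0 - y 0) ^ 2 + (x 1 - y 1) ^ 2 := by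
  rw [EuclideanSpace.dist_eq, Real.sq_sqrt (Finset.sum_nonneg fun i _ => sq_nonneg _), Fin.sum_univ_two,
    Real.dist_eq, Real.dist_eq, sq_abs, sq_abs]

theorem CLaw_norm (O x : Plane) : dist x O = ‖Complex.mk (x 0 - O 0) (x 1 - O 1)‖ := by
  have h1 : dist x O ^ 2 = ‖Complex.mk (x 0 - O 0) (x 1 - O 1)‖ ^ 2 := by
    rw [CLaw_dsq, Complex.sq_norm, Complex.normSq_apply]
    ring
  exact (sq_eq_sq₀ dist_nonneg (norm_nonneg _)).1 h1

theorem CLaw_re (O x : Plane) :
    dist x O * Real.cos (Complex.mk (x 0 - O 0) (x 1 - O 1)).arg = x 0 - O 0 := by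
  rw [CLaw_norm, Complex.norm_mul_cos_arg]

theorem CLaw_im (O x : Plane) :
    dist x O * Real.sin (Complex.mk (x 0 - O 0) (x 1 - O 1)).arg = x 1 - O 1 := by
  rw [CLaw_norm, Complex.norm_mul_sin_arg]

theorem CLaw (O x v : Plane) :
    dist x v ^ 2 = dist x O ^ 2 + dist v O ^ 2 - 2 * dist x O * dist v O * (ang O x - ang O v).cos := by
  have hc : (ang O x - ang O v).cos
      = Real.cos (Complex.mk (x 0 - O 0) (x 1 - O 1)).arg * Real.cos (Complex.mk (v 0 - O 0) (v 1 - O 1)).arg
        + Real.sin (Complex.mk (x 0 - O 0) (x 1 - O 1)).arg * Real.sin (Complex.mk (v 0 - O 0) (v 1 - O 1)).arg := by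
    unfold ang
    rw [← Real.Angle.coe_sub, Real.Angle.cos_coe, Real.cos_sub]
  have h1 := CLaw_re O x
  have h2 := CLaw_im O x
  have h3 := CLaw_re O v
  have h4 := CLaw_im O v
  rw [hc]
  have e1 : 2 * dist x O * dist v O
        * (Real.cos (Complex.mk (x 0 - O 0) (x 1 - O 1)).arg * Real.cos (Complex.mk (v 0 - O 0) (v 1 - O 1)).arg
        + Real.sin (Complex.mk (x 0 - O 0) (x 1 - O 1)).arg * Real.sin (Complex.mk (v 0 - O 0) (v 1 - O 1)).arg)
      = 2 * ((dist x O * Real.cos (Complex.mk (x 0 - O 0) (x 1 - O 1)).arg)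
          * (dist v O * Real.cos (Complex.mk (v 0 - O 0) (v 1 - O 1)).arg)
        + (dist x O * Real.sin (Complex.mk (x 0 - O 0) (x 1 - O 1)).arg)
          * (dist v O * Real.sin (Complex.mk (v 0 - O 0) (v 1 - O 1)).arg)) := by
    ring
  rw [e1, h1, h2, h3, h4, CLaw_dsq, CLaw_dsq, CLaw_dsq]
  ring

theorem ang_inj (O x v : Plane) (h : dist x O = dist v O) (h' : ang O x = ang O v) : x = v := by
  have h1 := CLaw O x v
  rw [h', sub_self, Real.Angle.cos_zero, h] at h1
  have h2 : dist x v ^ 2 = 0 := by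
    rw [h1]
    ring
  exact dist_eq_zero.1 (pow_eq_zero_iff (two_ne_zero)|>.1 h2)

theorem ang_card (A : Finset Plane) (O : Plane) (r : ℝ) : ((circ A O r).image (ang O)).card = (circ A O r).card := by
  refine Finset.card_image_of_injOn ?_
  intro x hx v hv hxv
  have hx' : dist x O = r := (Finset.mem_filter.1 (Finset.mem_coe.1 hx)).2
  have hv' : dist v O = r := (Finset.mem_filter.1 (Finset.mem_coe.1 hv)).2
  exact ang_inj O x v (hx'.trans hv'.symm) hxv

theorem near2 (A : Finset Plane) (O : Plane) (r : ℝ) (hr : 0 < r) (x : Plane) (hx : x ≠ O) (d : ℝ) :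
    ((circ A O r).filter (fun v => dist x v = d)).card ≤ 2 := by
  rcases Finset.eq_empty_or_nonempty ((circ A O r).filter (fun v => dist x v = d)) with he | ⟨v0, hv0⟩
  · rw [he]
    simp
  have hx0 : 0 < dist x O := dist_pos.2 hx
  have hm : ∀ v ∈ (circ A O r).filter (fun v => dist x v = d), dist v O = r ∧ dist x v = d := by
    intro v hv
    have h1 := Finset.mem_filter.1 hv
    exact ⟨(Finset.mem_filter.1 h1.1).2, h1.2⟩
  obtain ⟨hr0, hd0⟩ := hm v0 hv0
  set θ : Real.Angle := ang O x - ang O v0 with hθ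
  have hcos : ∀ v ∈ (circ A O r).filter (fun v => dist x v = d),
      ang O x - ang O v = θ ∨ ang O x - ang O v = -θ := by
    intro v hv
    obtain ⟨hrv, hdv⟩ := hm v hv
    have h1 := CLaw O x v
    have h2 := CLaw O x v0
    rw [hrv, hdv] at h1
    rw [hr0, hd0] at h2
    have h3 : 2 * dist x O * r * ((ang O x - ang O v).cos - (ang O x - ang O v0).cos) = 0 := by
      linarith
    have h4 : 2 * dist x O * r ≠ 0 := by positivity
    have h5 : (ang O x - ang O v).cos = (ang O x - ang O v0).cos := by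
      have := (mul_eq_zero.1 h3).resolve_left h4
      linarith
    exact Real.Angle.cos_eq_iff_eq_or_eq_neg.1 h5
  have hsub : ((circ A O r).filter (fun v => dist x v = d)).image (ang O)
      ⊆ {ang O x - θ, ang O x + θ} := by
    intro a ha
    obtain ⟨v, hv, rfl⟩ := Finset.mem_image.1 ha
    rw [Finset.mem_insert, Finset.mem_singleton]
    rcases hcos v hv with h | h
    · left
      rw [← h]
      abel
    · right
      have : θ = -(ang O x - ang O v) := by rw [h, neg_neg]
      rw [this]
      abel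
  have hinj : Set.InjOn (ang O) ((circ A O r).filter (fun v => dist x v = d) : Finset Plane) := by
    intro u hu v hv huv
    have h1 := (hm u (Finset.mem_coe.1 hu)).1
    have h2 := (hm v (Finset.mem_coe.1 hv)).1
    exact ang_inj O u v (h1.trans h2.symm) huv
  calc ((circ A O r).filter (fun v => dist x v = d)).card
      = (((circ A O r).filter (fun v => dist x v = d)).image (ang O)).card :=
        (Finset.card_image_of_injOn hinj).symm
    _ ≤ ({ang O x - θ, ang O x + θ} : Finset Real.Angle).card := Finset.card_le_card hsub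
    _ ≤ 2 := Finset.card_le_two

end Pool.Agent.H3.LC
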