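import Mathlib

/-!
# MP_78a685 LineCircle: definitions

Paper: `/team-store/UP3_helper3_78a685.md`.
* `dset A`: the distances of a finite planar set; `low A`: number of distances with at most `2 |A|` ordered pairs (at most `|A|` unordered pairs).
* `T3r S`: number of elements of `S + S - S` between two elements of `S` (real sets).
* `ang O x`: the direction of `x` seen from `O`, as a `Real.Angle`.
-/

set_option autoImplicit false

namespace Pool.Agent.H3.LC

open scoped Pointwise
open Classical

abbrev Plane := EuclideanSpace ℝ (Fin 2)

/-- the distances of `A` -/
noncomputable def dset (A : Finset Plane) : Finset ℝ := A.offDiag.image (fun p => dist p.1 p.2)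

/-- the number of low-multiplicity distances -/
noncomputable def low (A : Finset Plane) : ℕ :=
  ((A.offDiag.image (fun p => dist p.1 p.2)).filter
    (fun d => (A.offDiag.filter (fun p => dist p.1 p.2 = d)).card ≤ 2 * A.card)).card

/-- number of elements of `S + S - S` between two elements of `S` -/
noncomputable def T3r (S : Finset ℝ) : ℕ :=
  ((S + S - S).filter (fun x => ∃ a ∈ S, ∃ b ∈ S, a ≤ x ∧ x ≤ b)).card

/-- direction of `x` seen from `O` -/
noncomputable def ang (O x : Plane) : Real.Angle := ((Complex.mk (x 0 - O 0) (x 1 - O 1)).arg : Real.Angle)

/-- the points of `A` on the circle with centre `O` and radius `r` -/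
noncomputable def circ (A : Finset Plane) (O : Plane) (r : ℝ) : Finset Plane := A.filter (fun x => dist x O = r)

/-- the points of `A` not on the circle of radius `R` about `O`, not `O`, whose own circle about `O` has fewer than `h` points of `A` -/
noncomputable def poorC (A : Finset Plane) (O : Plane) (R : ℝ) (h : ℕ) : Finset Plane :=
  A.filter (fun x => dist x O ≠ R ∧ x ≠ O ∧ (circ A O (dist x O)).card < h)

/-- the points of `A` of height `b` -/
noncomputable def lev (A : Finset Plane) (Y : Plane → ℝ) (b : ℝ) : Finset Plane := A.filter (fun x => Y x = b)

/-- the points of `A` of height `b` or `-b` -/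
noncomputable def cla (A : Finset Plane) (Y : Plane → ℝ) (b : ℝ) : Finset Plane := A.filter (fun x => |Y x| = |b|)

/-- the points of `A` of nonzero height whose class (same absolute height) has fewer than `h` points -/
noncomputable def poorL (A : Finset Plane) (Y : Plane → ℝ) (h : ℕ) : Finset Plane :=
  A.filter (fun x => Y x ≠ 0 ∧ (cla A Y (Y x)).card < h)

end Pool.Agent.H3.LC
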