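import Pool.Agent.H3.LC.C3a
import Pool.Agent.H3.LC.C3c
import Pool.Agent.H3.LC.C3d
import Pool.Agent.H3.LC.ASYa
import Pool.Agent.H3.LC.ASYb
import Pool.Agent.H3.LC.ASYc

/-!
# FINC: circles

Proof. `N0` = maximum of `2` and the `N0` of `ASY0`-`ASY3`. Suppose `m > 20 L` (`m = |circ A O R|`, `n = |A|`, `m ≤ n`). `kbound`: `2 k ≤ 2 L + n`, `20 L < m ≤ n`, so `k ≤ n`, and `D = 2 k + 1 ≤ 2 n`
(`2k + 1 ≤ n/10 + n + 1`, `n ≥ 2`). `ASY0` gives `h`; `C3a`, `ASY1`: `100 p^2 ≤ m n`, `p = |poorC A O R h|`; `C3c`, `ASY2`: `100 T ≤ m n`, `T = n (n/h) N3`; `pairLB` (`V = circ A O R`),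
`dset_circ`, `C3d`, `ASY3`: contradiction.
-/

set_option autoImplicit false

namespace Pool.Agent.H3.LC

open scoped Pointwise
open Classical

theorem FINC : ∃ N0 : ℕ, ∀ (A : Finset Plane) (O : Plane) (R : ℝ), N0 ≤ A.card → 0 < R →
    A.card ^ 24 ≤ (circ A O R).card ^ 25 → (circ A O R).card ≤ 20 * low A := by
  obtain ⟨n0, H0⟩ := ASY0
  obtain ⟨n1, H1⟩ := ASY1
  obtain ⟨n2, H2⟩ := ASY2
  obtain ⟨n3, H3⟩ := ASY3
  refine ⟨n0 + n1 + n2 + n3 + 2, fun A O R hn hR hpow => ?_⟩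
  by_contra hc
  have hc' : 20 * low A < (circ A O R).card := not_le.1 hc
  have hV : circ A O R ⊆ A := by
    unfold circ
    exact Finset.filter_subset _ _
  have hm : (circ A O R).card ≤ A.card := Finset.card_le_card hV
  have hk := kbound A
  have hk' : (dset A).card ≤ A.card := by omega
  have hD2 : 2 * (dset A).card + 1 ≤ 2 * A.card := by omega
  obtain ⟨h, hh, hhm, ha, hb⟩ := H0 A.card (circ A O R).card (by omega) hm hpow
  obtain ⟨N1, hN1, hp⟩ := C3a A O R hR (2 * (dset A).card + 1) h le_rfl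
  have hp' := H1 A.card (circ A O R).card (dset A).card (2 * (dset A).card + 1) h N1
    (poorC A O R h).card (by omega) hm hpow hk' hD2 ha hN1 hp
  obtain ⟨N3, hN3, hP⟩ := C3c A O R hR (2 * (dset A).card + 1) h le_rfl hh hhm
  have hT := H2 A.card (circ A O R).card (2 * (dset A).card + 1) h N3 (by omega) hm hpow hD2 hh hb
    (hN3.trans (Nat.mul_le_mul_right _ (by norm_num)))
  obtain ⟨N4, hN4, hm4⟩ := C3d A O R hR (2 * (dset A).card + 1) le_rfl
  exact H3 A.card (circ A O R).card (low A) (2 * (dset A).card + 1) N4 (poorC A O R h).card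
    (A.card * (A.card / h) * N3) _ (dset (circ A O R)).card (by omega) hm hpow hD2 hc' hp' hT hP
    (pairLB A (circ A O R) hV) (dset_circ A O R hR) hN4 hm4

end Pool.Agent.H3.LC
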