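import Pool.Agent.H3.LC.KLc
import Pool.Agent.H3.LC.PR
import Pool.Agent.H3.LC.CDIF

/-!
# KA: the key lemma applied to circles

`V = circ A O R`, `m = |V|`, `Θ = V.image (ang O)` (`|Θ| = m` by `ang_card`), `|Θ - Θ| ≤ 2k+1 ≤ D` (`CDIF`), `PR`: `|Θ+Θ-Θ| m^2 ≤ D^3`, `|(Θ-Θ)+(Θ-Θ)-(Θ-Θ)| m^5 ≤ D^6`.
`KA1`: `ρ = dist x O`, `ρ' = dist x' O` positive and different. For `v, v' ∈ V` with `dist x v = dist x' v'`, `CLaw` gives (`cos` even)
`cos (θ' - α') = (ρ'^2 - ρ^2)/(2 ρ' R) + (ρ/ρ') cos (θ - α)`; here `a ≠ 0`, `b ≠ 0`. Each `v` has at most two `v'` (`near2`, `x' ≠ O`), so the number of pairs is at most `2 N`,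
`N = #{θ ∈ Θ : ∃ θ' ∈ Θ, ...}`, `N^4 ≤ 4477456 M^3` (`KLc`), `M m^2 ≤ D^3`: `(2N)^4 m^6 ≤ 16 * 4477456 D^9`.
`KA2`: `U = circ A O r`, `Θ_U` its angles. If `u ∈ U` and `d = dist x u ∈ dset V`, `d = dist v v'`, `y = ang v - ang v' ∈ Θ - Θ`: `d^2 = 2R^2 - 2R^2 cos y` and
`d^2 = ρ^2 + r^2 - 2 ρ r cos (θ - α)`, so `cos y = (2R^2 - ρ^2 - r^2)/(2R^2) + (ρ r/R^2) cos (θ - α)`; `b ≠ 0`, and `a = 0, b^2 = 1` would give `ρ r = R^2`, `ρ^2 + r^2 = 2R^2`, so
`ρ = r = R`: excluded. `KLc` with `V := Θ_U`, `W := Θ - Θ`, `β = 0`: `count^4 ≤ 4477456 M1^2 M2`, `M1 |U|^2 ≤ D^3`, `M2 m^5 ≤ D^6`.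
-/

set_option autoImplicit false

namespace Pool.Agent.H3.LC

open scoped Pointwise
open Classical

private theorem KA1_eq {ρ ρ' R d c c' : ℝ} (hR : 0 < R) (hρ' : 0 < ρ')
    (h1 : d ^ 2 = ρ ^ 2 + R ^ 2 - 2 * ρ * R * c) (h2 : d ^ 2 = ρ' ^ 2 + R ^ 2 - 2 * ρ' * R * c') :
    c' = (ρ' ^ 2 - ρ ^ 2) / (2 * ρ' * R) + ρ / ρ' * c := by
  have hR' := hR.ne'
  have hρ'' := hρ'.ne'
  field_simp
  linarith

theorem KA1 (A : Finset Plane) (O : Plane) (R : ℝ) (hR : 0 < R) (D : ℕ) (hD : 2 * (dset A).card + 1 ≤ D)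
    (x x' : Plane) (hx : x ≠ O) (hx' : x' ≠ O) (hne : dist x O ≠ dist x' O) :
    (((circ A O R) ×ˢ (circ A O R)).filter (fun p => dist x p.1 = dist x' p.2)).card ^ 4 * (circ A O R).card ^ 6 ≤
      71639296 * D ^ 9 := by
  have hρ : 0 < dist x O := dist_pos.2 hx
  have hρ' : 0 < dist x' O := dist_pos.2 hx'
  obtain ⟨V, hV⟩ : ∃ V, V = circ A O R := ⟨_, rfl⟩
  obtain ⟨T, hT⟩ : ∃ T, T = V.image (ang O) := ⟨_, rfl⟩
  obtain ⟨a, ha⟩ : ∃ a : ℝ, a = (dist x' O ^ 2 - dist x O ^ 2) / (2 * dist x' O * R) := ⟨_, rfl⟩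
  obtain ⟨b, hb⟩ : ∃ b : ℝ, b = dist x O / dist x' O := ⟨_, rfl⟩
  have hb0 : b ≠ 0 := by
    rw [hb]
    exact (div_pos hρ hρ').ne'
  have ha0 : a ≠ 0 := by
    rw [ha]
    refine div_ne_zero ?_ (by positivity)
    intro h
    apply hne
    have h1 : dist x O ^ 2 = dist x' O ^ 2 := by linarith
    exact (sq_eq_sq₀ hρ.le hρ'.le).1 h1
  have hmem : ∀ v ∈ V, dist v O = R := by
    intro v hv
    rw [hV] at hv
    exact (Finset.mem_filter.1 hv).2
  have hlaw : ∀ v ∈ V, ∀ v' ∈ V, dist x v = dist x' v' →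
      (ang O v' - ang O x').cos = a + b * (ang O v - ang O x).cos := by
    intro v hv v' hv' h
    have h1 := CLaw O x v
    have h2 := CLaw O x' v'
    rw [hmem v hv] at h1
    rw [hmem v' hv', ← h] at h2
    have h3 := KA1_eq hR hρ' h1 h2
    have c1 : (ang O v - ang O x).cos = (ang O x - ang O v).cos := by
      rw [← Real.Angle.cos_neg, neg_sub]
    have c2 : (ang O v' - ang O x').cos = (ang O x' - ang O v').cos := by
      rw [← Real.Angle.cos_neg, neg_sub]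
    rw [c1, c2, h3, ha, hb]
  have hK := KLc a b hb0 (fun h => ha0 h.1) (ang O x) (ang O x') T T
  obtain ⟨N, hN⟩ : ∃ N, N = (T.filter (fun t => ∃ y ∈ T, (y - ang O x').cos = a + b * (t - ang O x).cos)).card :=
    ⟨_, rfl⟩
  rw [← hN] at hK
  -- the points with a partner
  have hF : (V.filter (fun v => ∃ v' ∈ V, dist x v = dist x' v')).card ≤ N := by
    rw [hN]
    refine Finset.card_le_card_of_injOn (ang O) (fun v hv => ?_) (fun v hv w hw hvw => ?_)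
    · rw [Finset.mem_coe, Finset.mem_filter] at hv ⊢
      obtain ⟨hv, v', hv', h⟩ := hv
      refine ⟨?_, ang O v', ?_, hlaw v hv v' hv' h⟩
      · rw [hT]
        exact Finset.mem_image_of_mem _ hv
      · rw [hT]
        exact Finset.mem_image_of_mem _ hv'
    · rw [Finset.mem_coe, Finset.mem_filter] at hv hw
      exact ang_inj O v w ((hmem v hv.1).trans (hmem w hw.1).symm) hvw
  have hP : ((V ×ˢ V).filter (fun p => dist x p.1 = dist x' p.2)).card ≤ 2 * N := by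
    refine le_trans ?_ (Nat.mul_le_mul_left 2 hF)
    refine Finset.card_le_mul_card_image_of_maps_to (f := fun p : Plane × Plane => p.1)
      (fun p hp => ?_) 2 fun v _ => ?_
    · rw [Finset.mem_filter, Finset.mem_product] at hp
      exact Finset.mem_filter.2 ⟨hp.1.1, p.2, hp.1.2, hp.2⟩
    · refine le_trans ?_ (near2 A O R hR x' hx' (dist x v))
      refine Finset.card_le_card_of_injOn (fun p => p.2) (fun p hp => ?_) fun p hp q hq h => ?_
      · rw [Finset.mem_coe, Finset.mem_filter, Finset.mem_filter, Finset.mem_product] at hp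
        rw [Finset.mem_coe, Finset.mem_filter]
        obtain ⟨⟨⟨-, h2⟩, h3⟩, h4⟩ := hp
        refine ⟨by rw [← hV]; exact h2, ?_⟩
        rw [← h4]
        exact h3.symm
      · rw [Finset.mem_coe, Finset.mem_filter] at hp hq
        exact Prod.ext (hp.2.trans hq.2.symm) h
  -- Ruzsa
  have hTT : (T - T).card ≤ D := by
    rw [hT, hV]
    exact (CDIF A O R R hR hR).trans hD
  have hPR := (PR T D hTT).1
  have hTc : T.card = V.card := by
    rw [hT, hV]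
    exact ang_card A O R
  rw [hTc] at hPR
  rw [← hV]
  obtain ⟨M, hM⟩ : ∃ M, M = (T + T - T).card := ⟨_, rfl⟩
  rw [← hM] at hPR hK
  calc ((V ×ˢ V).filter (fun p => dist x p.1 = dist x' p.2)).card ^ 4 * V.card ^ 6
      ≤ (2 * N) ^ 4 * V.card ^ 6 := Nat.mul_le_mul_right _ (Nat.pow_le_pow_left hP 4)
    _ = 16 * (N ^ 4) * V.card ^ 6 := by ring
    _ ≤ 16 * (4477456 * M ^ 2 * M) * V.card ^ 6 :=
        Nat.mul_le_mul_right _ (Nat.mul_le_mul_left _ hK)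
    _ = 71639296 * (M * V.card ^ 2) ^ 3 := by ring
    _ ≤ 71639296 * (D ^ 3) ^ 3 := Nat.mul_le_mul_left _ (Nat.pow_le_pow_left hPR 3)
    _ = 71639296 * D ^ 9 := by ring

end Pool.Agent.H3.LC
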