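import Pool.Agent.H3.LC.KLc
import Pool.Agent.H3.LC.PR
import Pool.Agent.H3.LC.CDIF

/-!
# KA: the key lemma applied to circles

`V = circ A O R`, `m = |V|`, `Θ = V.image (ang O)` (`|Θ| = m` by `ang_card`), `|Θ - Θ| ≤ 2k+1 ≤ D` (`CDIF`), `PR`: `|Θ+Θ-Θ| m^2 ≤ D^3`, `|(Θ-Θ)+(Θ-Θ)-(Θ-Θ)| m^5 ≤ D^6`.
`KA1`: `ρ = dist x O`, `ρ' = dist x' O` positive and different. For `v, v' ∈ V` with `dist x v = dist x' v'`, `CLaw` gives (`cos` even)
`cos (θ' - α') = (ρ'^2 - ρ^2)/(2 ρ' R) + (ρ/ρ') cos (θ - α)`; here `a ≠ 0`, `b ≠ 0`. Each `v` has at most two `v'` (`near2`, `x' ≠ O`), so the number of pairs is at most `2 N`,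
`N = #{θ ∈ Θ : ∃ θ' ∈ Θ, ...}`, `N^4 ≤ 4477456 M^3` (`KLc`), `M m^2 ≤ D^3`: `(2N)^4 m^6 ≤ 16 * 4477456 D^9`.
`KA2`: `U = circ A O r`, `Θ_U` its angles. If `u ∈ U` and `d = dist x u ∈ dset V`, `d = dist v v'`, `y = ang v - ang v' ∈ Θ - Θ`: `d^2 = 2R^2 - 2R^2 cos y` and
`d^2 = ρ^2 + r^2 - 2 ρ r cos (θ - α)`, so `cos y = (2R^2 - ρ^2 - r^2)/(2R^2) + (ρ r/R^2) cos (θ - α)`; `b ≠ 0`, and `a = 0, b^2 = 1` would give `ρ r = R^2`, `ρ^2 + r^2 = 2R^2`, so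
`ρ = r = R`: excluded. `KLc` with `V := Θ_U`, `W := Θ - Θ`, `β = 0`: `count^4 ≤ 4477456 M1^2 M2`, `M1 |U|^2 ≤ D^3`, `M2 m^5 ≤ D^6`.
-/

set_option autoImplicit false

namespace Pool.Agent.H3.LC

open scoped Pointwise
open Classical

private theorem KA2_eq {ρ r R d c c' : ℝ} (hR : 0 < R)
    (h1 : d ^ 2 = ρ ^ 2 + r ^ 2 - 2 * ρ * r * c) (h2 : d ^ 2 = R ^ 2 + R ^ 2 - 2 * R * R * c') :
    c' = (2 * R ^ 2 - ρ ^ 2 - r ^ 2) / (2 * R ^ 2) + ρ * r / R ^ 2 * c := by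
  have hR' := hR.ne'
  field_simp
  linarith

private theorem KA2_ab {ρ r R : ℝ} (hρ : 0 < ρ) (hr : 0 < r) (hR : 0 < R)
    (h1 : (2 * R ^ 2 - ρ ^ 2 - r ^ 2) / (2 * R ^ 2) = 0) (h2 : (ρ * r / R ^ 2) ^ 2 = 1) :
    ρ = R ∧ r = R := by
  have hR2 : 0 < R ^ 2 := by positivity
  have e1 : 2 * R ^ 2 - ρ ^ 2 - r ^ 2 = 0 := by
    rcases div_eq_zero_iff.1 h1 with h | h
    · exact h
    · exact absurd h (by positivity)
  have hb : 0 ≤ ρ * r / R ^ 2 := by positivity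
  have e2 : ρ * r / R ^ 2 = 1 := by nlinarith
  have e3 : ρ * r = R ^ 2 := by
    rw [div_eq_one_iff_eq hR2.ne'] at e2
    exact e2
  have e4 : (ρ - r) ^ 2 = 0 := by nlinarith
  have e5 : ρ = r := by
    have := pow_eq_zero_iff (two_ne_zero) |>.1 e4
    linarith
  have e6 : ρ ^ 2 = R ^ 2 := by
    rw [← e3, e5]
    ring
  have e7 : ρ = R := (sq_eq_sq₀ hρ.le hR.le).1 e6
  exact ⟨e7, by rw [← e5, e7]⟩

theorem KA2 (A : Finset Plane) (O : Plane) (R : ℝ) (hR : 0 < R) (D : ℕ) (hD : 2 * (dset A).card + 1 ≤ D)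
    (x : Plane) (hx : x ≠ O) (r : ℝ) (hr : 0 < r) (hne : ¬ (dist x O = R ∧ r = R)) :
    ((circ A O r).filter (fun u => dist x u ∈ dset (circ A O R))).card ^ 4 * (circ A O r).card ^ 4 * (circ A O R).card ^ 5 ≤
      4477456 * D ^ 12 := by
  have hρ : 0 < dist x O := dist_pos.2 hx
  obtain ⟨V, hV⟩ : ∃ V, V = circ A O R := ⟨_, rfl⟩
  obtain ⟨U, hU⟩ : ∃ U, U = circ A O r := ⟨_, rfl⟩
  obtain ⟨T, hT⟩ : ∃ T, T = V.image (ang O) := ⟨_, rfl⟩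
  obtain ⟨S, hS⟩ : ∃ S, S = U.image (ang O) := ⟨_, rfl⟩
  obtain ⟨a, ha⟩ : ∃ a : ℝ, a = (2 * R ^ 2 - dist x O ^ 2 - r ^ 2) / (2 * R ^ 2) := ⟨_, rfl⟩
  obtain ⟨b, hb⟩ : ∃ b : ℝ, b = dist x O * r / R ^ 2 := ⟨_, rfl⟩
  have hb0 : b ≠ 0 := by
    rw [hb]
    exact (div_pos (mul_pos hρ hr) (by positivity)).ne'
  have hab : ¬ (a = 0 ∧ b ^ 2 = 1) := by
    rintro ⟨h1, h2⟩
    rw [ha] at h1
    rw [hb] at h2
    exact hne (KA2_ab hρ hr hR h1 h2)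
  have hmV : ∀ v ∈ V, dist v O = R := by
    intro v hv
    rw [hV] at hv
    exact (Finset.mem_filter.1 hv).2
  have hmU : ∀ v ∈ U, dist v O = r := by
    intro v hv
    rw [hU] at hv
    exact (Finset.mem_filter.1 hv).2
  have hlaw : ∀ u ∈ U, ∀ v ∈ V, ∀ v' ∈ V, dist x u = dist v v' →
      (ang O v - ang O v' - 0).cos = a + b * (ang O u - ang O x).cos := by
    intro u hu v hv v' hv' h
    have h1 := CLaw O x u
    have h2 := CLaw O v v'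
    rw [hmU u hu] at h1
    rw [hmV v hv, hmV v' hv', ← h] at h2
    have h3 := KA2_eq hR h1 h2
    have c1 : (ang O u - ang O x).cos = (ang O x - ang O u).cos := by
      rw [← Real.Angle.cos_neg, neg_sub]
    rw [sub_zero, c1, h3, ha, hb]
  have hK := KLc a b hb0 hab (ang O x) 0 S (T - T)
  obtain ⟨N, hN⟩ : ∃ N, N = (S.filter (fun t => ∃ y ∈ T - T, (y - 0).cos = a + b * (t - ang O x).cos)).card :=
    ⟨_, rfl⟩
  rw [← hN] at hK
  have hF : (U.filter (fun u => dist x u ∈ dset V)).card ≤ N := by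
    rw [hN]
    refine Finset.card_le_card_of_injOn (ang O) (fun u hu => ?_) (fun u hu w hw huw => ?_)
    · rw [Finset.mem_coe, Finset.mem_filter] at hu ⊢
      obtain ⟨hu, hd⟩ := hu
      unfold dset at hd
      obtain ⟨p, hp, hpd⟩ := Finset.mem_image.1 hd
      rw [Finset.mem_offDiag] at hp
      refine ⟨?_, ang O p.1 - ang O p.2, ?_, hlaw u hu p.1 hp.1 p.2 hp.2.1 hpd.symm⟩
      · rw [hS]
        exact Finset.mem_image_of_mem _ hu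
      · rw [hT]
        exact Finset.sub_mem_sub (Finset.mem_image_of_mem _ hp.1) (Finset.mem_image_of_mem _ hp.2.1)
    · rw [Finset.mem_coe, Finset.mem_filter] at hu hw
      exact ang_inj O u w ((hmU u hu.1).trans (hmU w hw.1).symm) huw
  have hTT : (T - T).card ≤ D := by
    rw [hT, hV]
    exact (CDIF A O R R hR hR).trans hD
  have hSS : (S - S).card ≤ D := by
    rw [hS, hU]
    exact (CDIF A O r r hr hr).trans hD
  have hPT := (PR T D hTT).2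
  have hPS := (PR S D hSS).1
  have hTc : T.card = V.card := by
    rw [hT, hV]
    exact ang_card A O R
  have hSc : S.card = U.card := by
    rw [hS, hU]
    exact ang_card A O r
  rw [hTc] at hPT
  rw [hSc] at hPS
  rw [← hV, ← hU]
  obtain ⟨M1, hM1⟩ : ∃ M, M = (S + S - S).card := ⟨_, rfl⟩
  obtain ⟨M2, hM2⟩ : ∃ M, M = ((T - T) + (T - T) - (T - T)).card := ⟨_, rfl⟩
  rw [← hM1] at hPS hK
  rw [← hM2] at hPT hK
  calc (U.filter (fun u => dist x u ∈ dset V)).card ^ 4 * U.card ^ 4 * V.card ^ 5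
      ≤ N ^ 4 * U.card ^ 4 * V.card ^ 5 :=
        Nat.mul_le_mul_right _ (Nat.mul_le_mul_right _ (Nat.pow_le_pow_left hF 4))
    _ ≤ (4477456 * M1 ^ 2 * M2) * U.card ^ 4 * V.card ^ 5 :=
        Nat.mul_le_mul_right _ (Nat.mul_le_mul_right _ hK)
    _ = 4477456 * ((M1 * U.card ^ 2) ^ 2 * (M2 * V.card ^ 5)) := by ring
    _ ≤ 4477456 * ((D ^ 3) ^ 2 * D ^ 6) :=
        Nat.mul_le_mul_left _ (Nat.mul_le_mul (Nat.pow_le_pow_left hPS 2) hPT)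
    _ = 4477456 * D ^ 12 := by ring

end Pool.Agent.H3.LC
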