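import Pool.Agent.H3.LC.Defs

/-!
# LDIF: differences of abscissas

`X`, `Y` are coordinates: `dist p q ^ 2 = (X p - X q)^2 + (Y p - Y q)^2`.
* `lev_card`: `X` is injective on a level (`dist = 0`).
* `LDIF`: `δ = X u - X u'`, `δ^2 = d^2 - (b - b')^2` with `d = dist u u'`: `u ≠ u'`: `d ∈ dset A`, at most two `δ` for each `d`; `u = u'`: `δ = 0`.
* `CDL`: `cla A Y b = lev A Y b ∪ lev A Y (-b)` (`|y| = |b|` iff `y = b` or `y = -b`): four difference sets, each by `LDIF`. `cla_card`: at most two points with the same `X`.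
* `dset_lev`: with `v` the point of the level with the smallest `X`, the distances `X v' - X v > 0` are different. `near2l`: `dist x v = d` determines `(X v - X x)^2`, at most two `v`.
-/

set_option autoImplicit false

namespace Pool.Agent.H3.LC

open scoped Pointwise
open Classical

/-- points of one level with the same abscissa are equal -/
theorem LDIF_inj (X Y : Plane → ℝ) (hXY : ∀ p q : Plane, dist p q ^ 2 = (X p - X q) ^ 2 + (Y p - Y q) ^ 2)
    (p q : Plane) (hY : Y p = Y q) (hX : X p = X q) : p = q := by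
  have h := hXY p q
  rw [hY, hX] at h
  have h0 : dist p q ^ 2 = 0 := by rw [h]; ring
  exact dist_eq_zero.1 (pow_eq_zero_iff (two_ne_zero) |>.1 h0)

theorem LDIF_mem_lev (A : Finset Plane) (Y : Plane → ℝ) (b : ℝ) (p : Plane) : p ∈ lev A Y b ↔ p ∈ A ∧ Y p = b := by
  unfold lev
  rw [Finset.mem_filter]

theorem lev_card (A : Finset Plane) (X Y : Plane → ℝ) (hXY : ∀ p q : Plane, dist p q ^ 2 = (X p - X q) ^ 2 + (Y p - Y q) ^ 2)
    (b : ℝ) : ((lev A Y b).image X).card = (lev A Y b).card := by
  apply Finset.card_image_of_injOn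
  intro p hp q hq hpq
  have hp' := (LDIF_mem_lev A Y b p).1 (Finset.mem_coe.1 hp)
  have hq' := (LDIF_mem_lev A Y b q).1 (Finset.mem_coe.1 hq)
  exact LDIF_inj X Y hXY p q (hp'.2.trans hq'.2.symm) hpq

/-- a number whose square is known is one of two numbers -/
theorem LDIF_pm (x c : ℝ) (h : x ^ 2 = c) : x = Real.sqrt c ∨ x = - Real.sqrt c := by
  have hc : 0 ≤ c := by rw [← h]; positivity
  have h1 : x ^ 2 = Real.sqrt c ^ 2 := by rw [Real.sq_sqrt hc, h]
  exact sq_eq_sq_iff_eq_or_eq_neg.1 h1

theorem LDIF (A : Finset Plane) (X Y : Plane → ℝ) (hXY : ∀ p q : Plane, dist p q ^ 2 = (X p - X q) ^ 2 + (Y p - Y q) ^ 2)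
    (b b' : ℝ) : ((lev A Y b).image X - (lev A Y b').image X).card ≤ 2 * (dset A).card + 1 := by
  have hsub : ((lev A Y b).image X - (lev A Y b').image X) ⊆
      insert 0 ((dset A).image (fun d => Real.sqrt (d ^ 2 - (b - b') ^ 2)) ∪
        (dset A).image (fun d => - Real.sqrt (d ^ 2 - (b - b') ^ 2))) := by
    intro δ hδ
    obtain ⟨x, hx, y, hy, rfl⟩ := Finset.mem_sub.1 hδ
    obtain ⟨u, hu, rfl⟩ := Finset.mem_image.1 hx
    obtain ⟨u', hu', rfl⟩ := Finset.mem_image.1 hy
    have hu1 := (LDIF_mem_lev A Y b u).1 hu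
    have hu1' := (LDIF_mem_lev A Y b' u').1 hu'
    by_cases he : u = u'
    · rw [he, sub_self]
      exact Finset.mem_insert_self _ _
    · have hd : dist u u' ∈ dset A := by
        unfold dset
        exact Finset.mem_image.2 ⟨(u, u'), Finset.mem_offDiag.2 ⟨hu1.1, hu1'.1, he⟩, rfl⟩
      have h2 : (X u - X u') ^ 2 = dist u u' ^ 2 - (b - b') ^ 2 := by
        rw [hXY u u', hu1.2, hu1'.2]; ring
      rcases LDIF_pm _ _ h2 with h | h
      · exact Finset.mem_insert_of_mem (Finset.mem_union_left _ (Finset.mem_image.2 ⟨_, hd, h.symm⟩))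
      · exact Finset.mem_insert_of_mem (Finset.mem_union_right _ (Finset.mem_image.2 ⟨_, hd, h.symm⟩))
  have h1 := Finset.card_le_card hsub
  have h2 := Finset.card_insert_le (0 : ℝ) ((dset A).image (fun d => Real.sqrt (d ^ 2 - (b - b') ^ 2)) ∪
        (dset A).image (fun d => - Real.sqrt (d ^ 2 - (b - b') ^ 2)))
  have h3 := Finset.card_union_le ((dset A).image (fun d => Real.sqrt (d ^ 2 - (b - b') ^ 2)))
        ((dset A).image (fun d => - Real.sqrt (d ^ 2 - (b - b') ^ 2)))
  have h4 : ((dset A).image (fun d => Real.sqrt (d ^ 2 - (b - b') ^ 2))).card ≤ (dset A).card := Finset.card_image_le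
  have h5 : ((dset A).image (fun d => - Real.sqrt (d ^ 2 - (b - b') ^ 2))).card ≤ (dset A).card := Finset.card_image_le
  omega

/-- a class is the union of two levels -/
theorem LDIF_cla (A : Finset Plane) (Y : Plane → ℝ) (b : ℝ) : cla A Y b = lev A Y b ∪ lev A Y (-b) := by
  ext p
  rw [Finset.mem_union, LDIF_mem_lev, LDIF_mem_lev]
  unfold cla
  rw [Finset.mem_filter, abs_eq_abs]
  tauto

theorem CDL (A : Finset Plane) (X Y : Plane → ℝ) (hXY : ∀ p q : Plane, dist p q ^ 2 = (X p - X q) ^ 2 + (Y p - Y q) ^ 2)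
    (b : ℝ) : ((cla A Y b).image X - (cla A Y b).image X).card ≤ 4 * (2 * (dset A).card + 1) := by
  rw [LDIF_cla, Finset.image_union, Finset.union_sub, Finset.sub_union, Finset.sub_union]
  have h1 := LDIF A X Y hXY b b
  have h2 := LDIF A X Y hXY b (-b)
  have h3 := LDIF A X Y hXY (-b) b
  have h4 := LDIF A X Y hXY (-b) (-b)
  have e1 := Finset.card_union_le
    (((lev A Y b).image X - (lev A Y b).image X) ∪ ((lev A Y b).image X - (lev A Y (-b)).image X))
    (((lev A Y (-b)).image X - (lev A Y b).image X) ∪ ((lev A Y (-b)).image X - (lev A Y (-b)).image X))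
  have e2 := Finset.card_union_le ((lev A Y b).image X - (lev A Y b).image X) ((lev A Y b).image X - (lev A Y (-b)).image X)
  have e3 := Finset.card_union_le ((lev A Y (-b)).image X - (lev A Y b).image X) ((lev A Y (-b)).image X - (lev A Y (-b)).image X)
  omega

theorem cla_card (A : Finset Plane) (X Y : Plane → ℝ) (hXY : ∀ p q : Plane, dist p q ^ 2 = (X p - X q) ^ 2 + (Y p - Y q) ^ 2)
    (b : ℝ) : (cla A Y b).card ≤ 2 * ((cla A Y b).image X).card := by
  have h0 := LDIF_cla A Y b
  have h1 : (cla A Y b).card ≤ (lev A Y b).card + (lev A Y (-b)).card := by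
    rw [h0]; exact Finset.card_union_le _ _
  have h2 : (lev A Y b).card ≤ ((cla A Y b).image X).card := by
    rw [← lev_card A X Y hXY b]
    apply Finset.card_le_card
    apply Finset.image_subset_image
    rw [h0]
    exact Finset.subset_union_left
  have h3 : (lev A Y (-b)).card ≤ ((cla A Y b).image X).card := by
    rw [← lev_card A X Y hXY (-b)]
    apply Finset.card_le_card
    apply Finset.image_subset_image
    rw [h0]
    exact Finset.subset_union_right
  omega

theorem dset_lev (A : Finset Plane) (X Y : Plane → ℝ) (hXY : ∀ p q : Plane, dist p q ^ 2 = (X p - X q) ^ 2 + (Y p - Y q) ^ 2)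
    (b : ℝ) : (lev A Y b).card ≤ (dset (lev A Y b)).card + 1 := by
  rcases (lev A Y b).eq_empty_or_nonempty with he | hne
  · rw [he]; simp
  obtain ⟨v, hv, hmin⟩ := Finset.exists_min_image (lev A Y b) X hne
  have hdist : ∀ w ∈ lev A Y b, dist w v = X w - X v := by
    intro w hw
    have h1 := (LDIF_mem_lev A Y b w).1 hw
    have h2 := (LDIF_mem_lev A Y b v).1 hv
    have h3 : dist w v ^ 2 = (X w - X v) ^ 2 := by
      rw [hXY w v, h1.2, h2.2]; ring
    have h4 : 0 ≤ X w - X v := sub_nonneg.2 (hmin w hw)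
    exact (sq_eq_sq₀ dist_nonneg h4).1 h3
  have hle : ((lev A Y b).erase v).card ≤ (dset (lev A Y b)).card := by
    apply Finset.card_le_card_of_injOn (fun w => dist w v)
    · intro w hw
      have hw' := Finset.mem_erase.1 (Finset.mem_coe.1 hw)
      unfold dset
      exact Finset.mem_coe.2 (Finset.mem_image.2 ⟨(w, v), Finset.mem_offDiag.2 ⟨hw'.2, hv, hw'.1⟩, rfl⟩)
    · intro w hw w' hw' h
      have h1 := Finset.mem_erase.1 (Finset.mem_coe.1 hw)
      have h2 := Finset.mem_erase.1 (Finset.mem_coe.1 hw')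
      have h3 : dist w v = dist w' v := h
      rw [hdist w h1.2, hdist w' h2.2] at h3
      have h4 : X w = X w' := by linarith
      have h5 := (LDIF_mem_lev A Y b w).1 h1.2
      have h6 := (LDIF_mem_lev A Y b w').1 h2.2
      exact LDIF_inj X Y hXY w w' (h5.2.trans h6.2.symm) h4
  have hc := Finset.card_erase_add_one hv
  omega

theorem near2l (A : Finset Plane) (X Y : Plane → ℝ) (hXY : ∀ p q : Plane, dist p q ^ 2 = (X p - X q) ^ 2 + (Y p - Y q) ^ 2)
    (b : ℝ) (x : Plane) (d : ℝ) : ((lev A Y b).filter (fun v => dist x v = d)).card ≤ 2 := by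
  have hle : ((lev A Y b).filter (fun v => dist x v = d)).card ≤
      ({X x - Real.sqrt (d ^ 2 - (Y x - b) ^ 2), X x + Real.sqrt (d ^ 2 - (Y x - b) ^ 2)} : Finset ℝ).card := by
    apply Finset.card_le_card_of_injOn X
    · intro v hv
      have hv' := Finset.mem_filter.1 (Finset.mem_coe.1 hv)
      have h1 := (LDIF_mem_lev A Y b v).1 hv'.1
      have h2 : (X x - X v) ^ 2 = d ^ 2 - (Y x - b) ^ 2 := by
        rw [← hv'.2, hXY x v, h1.2]; ring
      apply Finset.mem_coe.2
      rw [Finset.mem_insert, Finset.mem_singleton]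
      rcases LDIF_pm _ _ h2 with h | h
      · left; linarith
      · right; linarith
    · intro v hv w hw h
      have hv' := Finset.mem_filter.1 (Finset.mem_coe.1 hv)
      have hw' := Finset.mem_filter.1 (Finset.mem_coe.1 hw)
      have h5 := (LDIF_mem_lev A Y b v).1 hv'.1
      have h6 := (LDIF_mem_lev A Y b w).1 hw'.1
      exact LDIF_inj X Y hXY v w (h5.2.trans h6.2.symm) h
  exact hle.trans (Finset.card_le_two)

end Pool.Agent.H3.LC
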