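import Pool.Agent.H3.LC.KLl
import Pool.Agent.H3.LC.PR
import Pool.Agent.H3.LC.LDIF

/-!
# KB: the key lemma applied to lines

`V = lev A Y 0`, `m = |V|`, `Θ = V.image X` (`|Θ| = m`), `|Θ - Θ| ≤ 2k+1 ≤ D` (`LDIF`), `PR`: `|Θ+Θ-Θ| m^2 ≤ D^3`, `|(Θ-Θ)+(Θ-Θ)-(Θ-Θ)| m^5 ≤ D^6`.
`KB1`: `dist x v = dist x' v'` gives `(X v' - X x')^2 = (X v - X x)^2 + κ`, `κ = (Y x)^2 - (Y x')^2 ≠ 0`: `KLl` (`V = W = Θ`); each `v` has at most two `v'` (`near2l`): `(2N)^4 m^6 ≤ 16 * 4477456 D^9`.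
`KB2`: `Θ_U = (cla A Y b).image X`; for `u ∈ lev A Y b` with `dist x u = d = dist v v' ∈ dset V`, `y = X v - X v' ∈ Θ - Θ`: `y^2 = d^2 = (X u - X x)^2 + (b - Y x)^2`, `κ = (b - Y x)^2 ≠ 0`; `X` is
injective on the level, so the count is at most `#{t ∈ Θ_U : ∃ y ∈ Θ - Θ, (y - 0)^2 = (t - X x)^2 + κ}`. `|Θ_U - Θ_U| ≤ 4 D` (`CDL`), so `M1 |Θ_U|^2 ≤ (4D)^3`, `|cla| ≤ 2 |Θ_U|`, `M2 m^5 ≤ D^6`:
`count^4 |cla|^4 m^5 ≤ 4477456 * 16 * 4^6 D^12 = 293434556416 D^12`.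
-/

set_option autoImplicit false

namespace Pool.Agent.H3.LC

open scoped Pointwise
open Classical

theorem KB1 (A : Finset Plane) (X Y : Plane → ℝ) (hXY : ∀ p q : Plane, dist p q ^ 2 = (X p - X q) ^ 2 + (Y p - Y q) ^ 2)
    (D : ℕ) (hD : 2 * (dset A).card + 1 ≤ D) (x x' : Plane) (hne : |Y x| ≠ |Y x'|) :
    (((lev A Y 0) ×ˢ (lev A Y 0)).filter (fun p => dist x p.1 = dist x' p.2)).card ^ 4 * (lev A Y 0).card ^ 6 ≤
      71639296 * D ^ 9 := by
  set V : Finset Plane := lev A Y 0 with hV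
  set Θ : Finset ℝ := V.image X with hΘ
  have hΘc : Θ.card = V.card := lev_card A X Y hXY 0
  have hmem : ∀ v ∈ V, Y v = 0 := fun v hv => by
    rw [hV] at hv
    exact (Finset.mem_filter.mp hv).2
  have hinj : Set.InjOn X (V : Set Plane) := by
    rw [← Finset.card_image_iff]
    exact hΘc
  have hdiff : (Θ - Θ).card ≤ D := (LDIF A X Y hXY 0 0).trans hD
  have hPR := (PR Θ D hdiff).1
  have hκ : (Y x) ^ 2 - (Y x') ^ 2 ≠ 0 := by
    intro h
    exact hne ((sq_eq_sq_iff_abs_eq_abs _ _).mp (by linarith))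
  set F : Finset ℝ := Θ.filter (fun t => ∃ y ∈ Θ, (y - X x') ^ 2 = (t - X x) ^ 2 + ((Y x) ^ 2 - (Y x') ^ 2)) with hF
  have hKL := KLl ((Y x) ^ 2 - (Y x') ^ 2) hκ (X x) (X x') Θ Θ
  rw [← hF] at hKL
  set P : Finset (Plane × Plane) := (V ×ˢ V).filter (fun p => dist x p.1 = dist x' p.2) with hP
  have hfst : ∀ p ∈ P, X p.1 ∈ F := by
    intro p hp
    rw [hP, Finset.mem_filter, Finset.mem_product] at hp
    obtain ⟨⟨h1, h2⟩, h3⟩ := hp
    rw [hF, Finset.mem_filter]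
    refine ⟨Finset.mem_image_of_mem X h1, X p.2, Finset.mem_image_of_mem X h2, ?_⟩
    have e1 := hXY x p.1
    have e2 := hXY x' p.2
    rw [h3, e2, hmem _ h1, hmem _ h2] at e1
    linear_combination e1
  have hN : P.card ≤ 2 * F.card := by
    have h1 : P.card ≤ ∑ t ∈ F, (P.filter (fun p => X p.1 = t)).card :=
      le_of_eq (Finset.card_eq_sum_card_fiberwise (fun p hp => hfst p hp))
    refine h1.trans ?_
    rw [mul_comm, ← smul_eq_mul, ← Finset.sum_const]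
    refine Finset.sum_le_sum fun t _ => ?_
    by_cases hne' : (P.filter (fun p => X p.1 = t)).Nonempty
    · obtain ⟨q, hq⟩ := hne'
      have hqP : q ∈ P := (Finset.mem_filter.mp hq).1
      have hqt : X q.1 = t := (Finset.mem_filter.mp hq).2
      have hq1 : q.1 ∈ V := (Finset.mem_product.mp (Finset.mem_filter.mp hqP).1).1
      refine le_trans ?_ (near2l A X Y hXY 0 x' (dist x q.1))
      refine Finset.card_le_card_of_injOn (fun p => p.2) (fun p hp => ?_) (fun p hp p' hp' hpp => ?_)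
      · rw [Finset.mem_coe, Finset.mem_filter] at hp
        obtain ⟨hpP, hpt⟩ := hp
        rw [hP, Finset.mem_filter, Finset.mem_product] at hpP
        obtain ⟨⟨h1, h2⟩, h3⟩ := hpP
        have h4 : p.1 = q.1 := hinj (Finset.mem_coe.mpr h1) (Finset.mem_coe.mpr hq1) (hpt.trans hqt.symm)
        rw [Finset.mem_coe, Finset.mem_filter]
        refine ⟨h2, ?_⟩
        rw [← h3, h4]
      · rw [Finset.mem_coe, Finset.mem_filter] at hp hp'
        have h1 : p.1 ∈ V := (Finset.mem_product.mp (Finset.mem_filter.mp hp.1).1).1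
        have h1' : p'.1 ∈ V := (Finset.mem_product.mp (Finset.mem_filter.mp hp'.1).1).1
        have h4 : p.1 = p'.1 := hinj (Finset.mem_coe.mpr h1) (Finset.mem_coe.mpr h1') (hp.2.trans hp'.2.symm)
        exact Prod.ext h4 hpp
    · rw [Finset.not_nonempty_iff_eq_empty] at hne'
      rw [hne']
      simp
  rw [hΘc] at hPR
  calc P.card ^ 4 * V.card ^ 6 ≤ (2 * F.card) ^ 4 * V.card ^ 6 :=
        Nat.mul_le_mul_right _ (Nat.pow_le_pow_left hN 4)
    _ = 16 * F.card ^ 4 * V.card ^ 6 := by ring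
    _ ≤ 16 * (4477456 * (Θ + Θ - Θ).card ^ 2 * (Θ + Θ - Θ).card) * V.card ^ 6 :=
        Nat.mul_le_mul_right _ (Nat.mul_le_mul_left _ hKL)
    _ = 71639296 * ((Θ + Θ - Θ).card * V.card ^ 2) ^ 3 := by ring
    _ ≤ 71639296 * (D ^ 3) ^ 3 := Nat.mul_le_mul_left _ (Nat.pow_le_pow_left hPR 3)
    _ = 71639296 * D ^ 9 := by ring

end Pool.Agent.H3.LC
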