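import Pool.Agent.H3.LC.KLl
import Pool.Agent.H3.LC.PR
import Pool.Agent.H3.LC.LDIF

/-!
# KB2: the key lemma applied to a level of a rich class

`T = (lev A Y 0).image X`, `TU = (cla A Y b).image X`: if `dist x u` is a distance of the level `0`, then `y = X v - X v'` satisfies
`y^2 = (X u - X x)^2 + (b - Y x)^2`; `KLl`, `PR`, `CDL`, `LDIF`.
-/

set_option autoImplicit false

namespace Pool.Agent.H3.LC

open scoped Pointwise
open Classical

private theorem KB2_arith (N c v t th M1 M2 D : ℕ) (h1 : N ^ 4 ≤ 4477456 * M1 ^ 2 * M2)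
    (h2 : c ≤ 2 * t) (h3 : v = th) (h4 : M1 * t ^ 2 ≤ (4 * D) ^ 3) (h5 : M2 * th ^ 5 ≤ D ^ 6) :
    N ^ 4 * c ^ 4 * v ^ 5 ≤ 293434556416 * D ^ 12 := by
  subst h3
  calc N ^ 4 * c ^ 4 * v ^ 5 ≤ (4477456 * M1 ^ 2 * M2) * (2 * t) ^ 4 * v ^ 5 := by gcongr
    _ = 4477456 * 16 * (M1 * t ^ 2) ^ 2 * (M2 * v ^ 5) := by ring
    _ ≤ 4477456 * 16 * ((4 * D) ^ 3) ^ 2 * (D ^ 6) := by gcongr
    _ = 293434556416 * D ^ 12 := by ring

theorem KB2 (A : Finset Plane) (X Y : Plane → ℝ) (hXY : ∀ p q : Plane, dist p q ^ 2 = (X p - X q) ^ 2 + (Y p - Y q) ^ 2)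
    (D : ℕ) (hD : 2 * (dset A).card + 1 ≤ D) (x : Plane) (b : ℝ) (hne : Y x ≠ b) :
    ((lev A Y b).filter (fun u => dist x u ∈ dset (lev A Y 0))).card ^ 4 * (cla A Y b).card ^ 4 * (lev A Y 0).card ^ 5 ≤
      293434556416 * D ^ 12 := by
  have hinj : Set.InjOn X (lev A Y b : Finset Plane) :=
    Finset.card_image_iff.1 (lev_card A X Y hXY b)
  have hκ : (b - Y x) ^ 2 ≠ 0 := pow_ne_zero 2 (sub_ne_zero.2 (Ne.symm hne))
  set F := (lev A Y b).filter (fun u => dist x u ∈ dset (lev A Y 0)) with hF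
  set TU := (cla A Y b).image X with hTU
  set T := (lev A Y 0).image X with hT
  have hFcard : F.card = (F.image X).card := by
    symm
    apply Finset.card_image_of_injOn
    intro p hp q hq hpq
    have hp' : p ∈ lev A Y b := (Finset.mem_filter.1 (Finset.mem_coe.1 hp)).1
    have hq' : q ∈ lev A Y b := (Finset.mem_filter.1 (Finset.mem_coe.1 hq)).1
    exact hinj (Finset.mem_coe.2 hp') (Finset.mem_coe.2 hq') hpq
  have hsub : F.image X ⊆ TU.filter (fun t => ∃ y ∈ T - T, (y - 0) ^ 2 = (t - X x) ^ 2 + (b - Y x) ^ 2) := by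
    intro t ht
    obtain ⟨u, hu, rfl⟩ := Finset.mem_image.1 ht
    obtain ⟨hul, hud⟩ := Finset.mem_filter.1 hu
    have huA : u ∈ A := (Finset.mem_filter.1 hul).1
    have huY : Y u = b := (Finset.mem_filter.1 hul).2
    rw [Finset.mem_filter]
    refine ⟨Finset.mem_image.2 ⟨u, Finset.mem_filter.2 ⟨huA, by rw [huY]⟩, rfl⟩, ?_⟩
    obtain ⟨p, hp, hpd⟩ := Finset.mem_image.1 hud
    obtain ⟨hp1, hp2, _⟩ := Finset.mem_offDiag.1 hp
    have hY1 : Y p.1 = 0 := (Finset.mem_filter.1 hp1).2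
    have hY2 : Y p.2 = 0 := (Finset.mem_filter.1 hp2).2
    refine ⟨X p.1 - X p.2, Finset.sub_mem_sub (Finset.mem_image_of_mem X hp1) (Finset.mem_image_of_mem X hp2), ?_⟩
    have e1 := hXY p.1 p.2
    have e2 := hXY x u
    rw [hY1, hY2] at e1
    rw [huY] at e2
    have e3 : dist p.1 p.2 = dist x u := hpd
    rw [e3] at e1
    nlinarith [e1, e2]
  have h1 : F.card ^ 4 ≤ 4477456 * (TU + TU - TU).card ^ 2 * ((T - T) + (T - T) - (T - T)).card := by
    refine le_trans ?_ (KLl ((b - Y x) ^ 2) hκ (X x) 0 TU (T - T))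
    rw [hFcard]
    exact Nat.pow_le_pow_left (Finset.card_le_card hsub) 4
  have h4 := (PR TU (4 * D) (le_trans (CDL A X Y hXY b) (Nat.mul_le_mul_left 4 hD))).1
  have h5 := (PR T D (le_trans (LDIF A X Y hXY 0 0) hD)).2
  exact KB2_arith _ _ _ _ _ _ _ D h1 (cla_card A X Y hXY b) (lev_card A X Y hXY 0).symm h4 h5

end Pool.Agent.H3.LC
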