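import Pool.Agent.H3.LC.Defs

/-!
# LIFT: real lifts of sets of angles

* `T3r_angle`: `S` a real set in `(0, π)` whose classes are in `V`: an element of `S + S - S` between two elements of `S` lies in `(0, π)`; the coercion `ℝ → Real.Angle` is additive
  (`Real.Angle.coe_add`, `Real.Angle.coe_sub`), so it maps it into `V + V - V`, and it is injective on `(0, π)` (`Real.Angle.angle_eq_iff_two_pi_dvd_sub` or `Real.Angle.toReal_coe`).
* `T3r_real`: the same for a translate of a real set (the map `x ↦ x + u`).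
-/

set_option autoImplicit false

namespace Pool.Agent.H3.LC

open scoped Pointwise
open Classical

theorem T3r_angle (S : Finset ℝ) (V : Finset Real.Angle) (hS : ∀ x ∈ S, 0 < x ∧ x < Real.pi ∧ (x : Real.Angle) ∈ V) :
    T3r S ≤ (V + V - V).card := by
  unfold T3r
  refine Finset.card_le_card_of_injOn (fun x : ℝ => (x : Real.Angle)) ?_ ?_
  · intro x hx
    have hx' := Finset.mem_coe.1 hx
    rw [Finset.mem_filter, Finset.mem_sub] at hx'
    obtain ⟨⟨y, hy, c, hc, rfl⟩, -⟩ := hx'
    obtain ⟨a, ha, b, hb, rfl⟩ := Finset.mem_add.1 hy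
    simp only [Finset.mem_coe, Real.Angle.coe_sub, Real.Angle.coe_add]
    exact Finset.sub_mem_sub (Finset.add_mem_add (hS a ha).2.2 (hS b hb).2.2) (hS c hc).2.2
  · have key : ∀ x : ℝ, x ∈ (((S + S - S).filter (fun x => ∃ a ∈ S, ∃ b ∈ S, a ≤ x ∧ x ≤ b) :
        Finset ℝ) : Set ℝ) → ((x : Real.Angle)).toReal = x := by
      intro x hx
      have hx' := Finset.mem_coe.1 hx
      rw [Finset.mem_filter] at hx'
      obtain ⟨-, a, ha, b, hb, hax, hxb⟩ := hx'
      rw [Real.Angle.toReal_coe_eq_self_iff]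
      have h1 := (hS a ha).1
      have h2 := (hS b hb).2.1
      have h3 := Real.pi_pos
      constructor
      · linarith
      · linarith
    intro x hx y hy hxy
    have h1 := congrArg Real.Angle.toReal hxy
    simp only at h1
    rwa [key x hx, key y hy] at h1

theorem T3r_real (S V : Finset ℝ) (u : ℝ) (hS : ∀ x ∈ S, x + u ∈ V) : T3r S ≤ (V + V - V).card := by
  unfold T3r
  refine Finset.card_le_card_of_injOn (fun x : ℝ => x + u) ?_ ?_
  · intro x hx
    have hx' := Finset.mem_coe.1 hx
    rw [Finset.mem_filter, Finset.mem_sub] at hx'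
    obtain ⟨⟨y, hy, c, hc, rfl⟩, -⟩ := hx'
    obtain ⟨a, ha, b, hb, rfl⟩ := Finset.mem_add.1 hy
    have e : a + b - c + u = (a + u) + (b + u) - (c + u) := by ring
    simp only [Finset.mem_coe]
    rw [e]
    exact Finset.sub_mem_sub (Finset.add_mem_add (hS a ha) (hS b hb)) (hS c hc)
  · intro x _ y _ hxy
    simpa using hxy

end Pool.Agent.H3.LC
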