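import Pool.Agent.H3.LC.Defs

/-!
# MUl: a translate of the hyperbola `y^2 = x^2 + κ` meets it at most twice

Proof. Subtracting: `2 e y = 2 g x + g^2 - e^2`, so `(2 g x + g^2 - e^2)^2 = 4 e^2 (x^2 + κ)`: the quadratic `4 (g^2-e^2) x^2 + 4 g (g^2-e^2) x + (g^2-e^2)^2 - 4 e^2 κ = 0`;
if `g^2 = e^2` it reads `-4 e^2 κ = 0`, impossible; otherwise it has at most two roots.
-/

set_option autoImplicit false

namespace Pool.Agent.H3.LC

theorem MUl (κ g e : ℝ) (hκ : κ ≠ 0) (he : e ≠ 0) (S : Finset ℝ)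
    (hS : ∀ x ∈ S, ∃ y : ℝ, y ^ 2 = x ^ 2 + κ ∧ (y + e) ^ 2 = (x + g) ^ 2 + κ) :
    S.card ≤ 4 := by
  classical
  rcases S.eq_empty_or_nonempty with h | ⟨x1, hx1⟩
  · simp [h]
  have key : ∀ x ∈ S,
      4 * (g ^ 2 - e ^ 2) * x ^ 2 + 4 * g * (g ^ 2 - e ^ 2) * x + (g ^ 2 - e ^ 2) ^ 2
        - 4 * e ^ 2 * κ = 0 := by
    intro x hx
    obtain ⟨y, h1, h2⟩ := hS x hx
    have h3 : 2 * e * y = 2 * g * x + g ^ 2 - e ^ 2 := by linear_combination h2 - h1
    have h4 : (2 * g * x + g ^ 2 - e ^ 2) ^ 2 = 4 * e ^ 2 * (x ^ 2 + κ) := by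
      rw [← h3]
      linear_combination 4 * e ^ 2 * h1
    linear_combination h4
  have hne : g ^ 2 - e ^ 2 ≠ 0 := by
    intro h0
    have h5 := key x1 hx1
    rw [h0] at h5
    have h6 : e ^ 2 * κ = 0 := by linear_combination (-1 / 4 : ℝ) * h5
    rcases mul_eq_zero.mp h6 with h7 | h7
    · exact he (pow_eq_zero_iff (two_ne_zero) |>.mp h7)
    · exact hκ h7
  have hsub : S ⊆ {x1, -g - x1} := by
    intro x hx
    have h5 := key x hx
    have h6 := key x1 hx1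
    have h7 : (g ^ 2 - e ^ 2) * ((x - x1) * (x + x1 + g)) = 0 := by
      linear_combination (1 / 4 : ℝ) * h5 - (1 / 4 : ℝ) * h6
    rcases mul_eq_zero.mp h7 with h8 | h8
    · exact absurd h8 hne
    rcases mul_eq_zero.mp h8 with h9 | h9
    · have : x = x1 := by linarith
      simp [this]
    · have : x = -g - x1 := by linarith
      simp [this]
  calc S.card ≤ ({x1, -g - x1} : Finset ℝ).card := Finset.card_le_card hsub
    _ ≤ 2 := Finset.card_le_two
    _ ≤ 4 := by norm_num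

end Pool.Agent.H3.LC
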