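import Pool.Agent.H3.LC.SQ
import Pool.Agent.H3.LC.MUl
import Pool.Agent.H3.LC.LIFT

/-!
# KLl: the key lemma for lines

Proof. Let `F` be the filtered set. At most one `x ∈ F` has `x = u`; at most two have `y = w` (`(x-u)^2 = -κ`). The rest is in four classes: signs of `x - u` and of `y - w`. For the
signs `σ, τ = ±1` let `S = {σ (x - u)}` (positive reals), `φ t = √(t^2 + κ)`, strictly increasing on `S` (`t^2 + κ = (y-w)^2 > 0` there); `S.image φ ⊆ {τ (y - w)}`.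
`T3r S ≤ |V + V - V|`, `T3r (S.image φ) ≤ |W + W - W|` by `T3r_real` (for `σ = -1` use `S.image Neg.neg` and `T3r (S.image Neg.neg) = T3r S`, or the set `V.image Neg.neg`).
`h4` of `SQ` by `MUl` with `y = φ x` (`φ (x+g) = φ x + e`, both square to `(·)^2 + κ` because the radicands are positive on `S`). So `(N_σ - 1)^4 ≤ 2304 M`,
`M = |V+V-V|^2 |W+W-W|`; if `F` is nonempty `M ≥ 1`, `q = M^(1/4) ≥ 1`, `|F| ≤ 3 + 4 (1 + 7q) ≤ 46 q`.
-/

set_option autoImplicit false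

namespace Pool.Agent.H3.LC

open scoped Pointwise
open Classical

theorem KLl_neg (V : Finset ℝ) :
    (V.image Neg.neg + V.image Neg.neg - V.image Neg.neg).card = (V + V - V).card := by
  have h : (V.image Neg.neg + V.image Neg.neg - V.image Neg.neg) = (V + V - V).image Neg.neg := by
    ext x
    simp only [Finset.mem_sub, Finset.mem_add, Finset.mem_image]
    constructor
    · rintro ⟨_, ⟨_, ⟨a, ha, rfl⟩, _, ⟨b, hb, rfl⟩, rfl⟩, _, ⟨c, hc, rfl⟩, rfl⟩
      exact ⟨a + b - c, ⟨_, ⟨a, ha, b, hb, rfl⟩, c, hc, rfl⟩, by ring⟩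
    · rintro ⟨_, ⟨_, ⟨a, ha, b, hb, rfl⟩, c, hc, rfl⟩, rfl⟩
      exact ⟨-a + -b, ⟨-a, ⟨a, ha, rfl⟩, -b, ⟨b, hb, rfl⟩, rfl⟩, -c, ⟨c, hc, rfl⟩, by ring⟩
  rw [h, Finset.card_image_of_injective _ neg_injective]

theorem KLl_T3r (S V : Finset ℝ) (u σ : ℝ) (hσ : σ = 1 ∨ σ = -1) (hS : ∀ x ∈ S, σ * x + u ∈ V) :
    T3r S ≤ (V + V - V).card := by
  rcases hσ with rfl | rfl
  · exact T3r_real S V u fun x hx => by simpa using hS x hx
  · rw [← KLl_neg V]
    refine T3r_real S (V.image Neg.neg) (-u) fun x hx => ?_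
    exact Finset.mem_image.2 ⟨_, hS x hx, by ring⟩

theorem KLl_class (κ : ℝ) (hκ : κ ≠ 0) (u w : ℝ) (V W : Finset ℝ) (σ τ : ℝ)
    (hσ : σ = 1 ∨ σ = -1) (hτ : τ = 1 ∨ τ = -1) :
    ((V.filter (fun x => 0 < σ * (x - u) ∧
      ∃ y ∈ W, 0 < τ * (y - w) ∧ (y - w) ^ 2 = (x - u) ^ 2 + κ)).card - 1) ^ 4 ≤
      2304 * (V + V - V).card ^ 2 * (W + W - W).card := by
  have hσ2 : σ * σ = 1 := by rcases hσ with rfl | rfl <;> norm_num
  have hτ2 : τ * τ = 1 := by rcases hτ with rfl | rfl <;> norm_num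
  have hσ0 : σ ≠ 0 := by rcases hσ with rfl | rfl <;> norm_num
  set F := V.filter (fun x => 0 < σ * (x - u) ∧
      ∃ y ∈ W, 0 < τ * (y - w) ∧ (y - w) ^ 2 = (x - u) ^ 2 + κ) with hF
  set S : Finset ℝ := F.image (fun x => σ * (x - u)) with hS
  set φ : ℝ → ℝ := fun t => Real.sqrt (t ^ 2 + κ) with hφ
  have hcard : S.card = F.card := by
    refine Finset.card_image_of_injective _ fun x y hxy => ?_
    have h1 : σ * (x - u) = σ * (y - u) := hxy
    have h2 := mul_left_cancel₀ hσ0 h1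
    linarith
  have hmem : ∀ t ∈ S, 0 < t ∧ σ * t + u ∈ V ∧ ∃ y ∈ W, 0 < τ * (y - w) ∧
      (τ * (y - w)) ^ 2 = t ^ 2 + κ := by
    intro t ht
    obtain ⟨x, hx, rfl⟩ := Finset.mem_image.1 ht
    obtain ⟨hxV, hx0, y, hy, hy0, hxy⟩ := Finset.mem_filter.1 hx
    refine ⟨hx0, ?_, y, hy, hy0, ?_⟩
    · have : σ * (σ * (x - u)) + u = x := by
        rw [← mul_assoc, hσ2]
        ring
      rw [this]
      exact hxV
    · have e1 : (τ * (y - w)) ^ 2 = (τ * τ) * (y - w) ^ 2 := by ring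
      have e2 : (σ * (x - u)) ^ 2 = (σ * σ) * (x - u) ^ 2 := by ring
      rw [e1, e2, hσ2, hτ2, one_mul, one_mul]
      exact hxy
  have hpos : ∀ t ∈ S, 0 < t ^ 2 + κ := by
    intro t ht
    obtain ⟨_, _, y, _, hy0, hy⟩ := hmem t ht
    rw [← hy]
    positivity
  have hsq : ∀ t ∈ S, φ t ^ 2 = t ^ 2 + κ := fun t ht => Real.sq_sqrt (hpos t ht).le
  have hval : ∀ t ∈ S, ∃ y ∈ W, φ t = τ * (y - w) := by
    intro t ht
    obtain ⟨_, _, y, hyW, hy0, hy⟩ := hmem t ht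
    refine ⟨y, hyW, ?_⟩
    change Real.sqrt (t ^ 2 + κ) = _
    rw [← hy]
    exact Real.sqrt_sq hy0.le
  rw [← hcard]
  refine SQ S φ (Or.inl ?_) ?_ _ _ ?_ ?_
  · intro s hs t ht hst
    have h0 := (hmem s hs).1
    refine Real.sqrt_lt_sqrt (hpos s hs).le ?_
    have : s ^ 2 < t ^ 2 := by nlinarith
    linarith
  · intro g e _ he
    refine MUl κ g e hκ he _ fun x hx => ?_
    obtain ⟨hxS, hxg, hxe⟩ := Finset.mem_filter.1 hx
    refine ⟨φ x, hsq x hxS, ?_⟩
    rw [← hxe]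
    exact hsq _ hxg
  · exact KLl_T3r S V u σ hσ fun x hx => (hmem x hx).2.1
  · refine KLl_T3r (S.image φ) W w τ hτ fun z hz => ?_
    obtain ⟨t, ht, rfl⟩ := Finset.mem_image.1 hz
    obtain ⟨y, hy, hty⟩ := hval t ht
    have : τ * φ t + w = y := by
      rw [hty, ← mul_assoc, hτ2]
      ring
    rw [this]
    exact hy

theorem KLl_num (F N1 N2 N3 N4 M : ℕ) (hM : 1 ≤ M) (h1 : (N1 - 1) ^ 4 ≤ 2304 * M)
    (h2 : (N2 - 1) ^ 4 ≤ 2304 * M) (h3 : (N3 - 1) ^ 4 ≤ 2304 * M) (h4 : (N4 - 1) ^ 4 ≤ 2304 * M)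
    (hF : F ≤ 3 + N1 + N2 + N3 + N4) : F ^ 4 ≤ 4477456 * M := by
  set q : ℝ := Real.sqrt (Real.sqrt M) with hq
  have hM0 : (0 : ℝ) ≤ M := Nat.cast_nonneg M
  have hq4 : q ^ 4 = M := by
    have e : q ^ 4 = (q ^ 2) ^ 2 := by ring
    rw [e, hq, Real.sq_sqrt (Real.sqrt_nonneg _), Real.sq_sqrt hM0]
  have hq0 : 0 ≤ q := Real.sqrt_nonneg _
  have hq1 : 1 ≤ q := by
    have hM1 : (1 : ℝ) ≤ M := by exact_mod_cast hM
    rw [hq, Real.one_le_sqrt, Real.one_le_sqrt]
    exact hM1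
  have key : ∀ N : ℕ, (N - 1) ^ 4 ≤ 2304 * M → (N : ℝ) ≤ 1 + 7 * q := by
    intro N hN
    have h5 : (((N - 1 : ℕ) : ℝ)) ^ 4 ≤ (7 * q) ^ 4 := by
      have h6 : (((N - 1 : ℕ) : ℝ)) ^ 4 ≤ 2304 * M := by exact_mod_cast hN
      have h7 : (7 * q) ^ 4 = 2401 * M := by rw [mul_pow, hq4]; norm_num
      rw [h7]
      nlinarith
    have h8 : ((N - 1 : ℕ) : ℝ) ≤ 7 * q :=
      (pow_le_pow_iff_left₀ (Nat.cast_nonneg _) (by positivity) (by norm_num)).1 h5
    have h9 : (N : ℝ) ≤ ((N - 1 : ℕ) : ℝ) + 1 := by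
      have : N ≤ (N - 1) + 1 := by omega
      exact_mod_cast this
    linarith
  have k1 := key N1 h1
  have k2 := key N2 h2
  have k3 := key N3 h3
  have k4 := key N4 h4
  have hF' : (F : ℝ) ≤ 3 + N1 + N2 + N3 + N4 := by exact_mod_cast hF
  have hF2 : (F : ℝ) ≤ 46 * q := by linarith
  have hF3 : (F : ℝ) ^ 4 ≤ (46 * q) ^ 4 := pow_le_pow_left₀ (Nat.cast_nonneg _) hF2 4
  rw [mul_pow, hq4] at hF3
  have hF4 : (F : ℝ) ^ 4 ≤ 4477456 * M := by
    refine hF3.trans (le_of_eq ?_)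
    norm_num
  exact_mod_cast hF4

theorem KLl (κ : ℝ) (hκ : κ ≠ 0) (u w : ℝ) (V W : Finset ℝ) :
    (V.filter (fun x => ∃ y ∈ W, (y - w) ^ 2 = (x - u) ^ 2 + κ)).card ^ 4 ≤
      4477456 * (V + V - V).card ^ 2 * (W + W - W).card := by
  set F := V.filter (fun x => ∃ y ∈ W, (y - w) ^ 2 = (x - u) ^ 2 + κ) with hF
  rcases F.eq_empty_or_nonempty with h0 | ⟨x0, hx0⟩
  · rw [h0]
    simp
  obtain ⟨hx0V, y0, hy0, _⟩ := Finset.mem_filter.1 hx0
  have hV1 : 1 ≤ (V + V - V).card :=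
    Finset.card_pos.2 ⟨x0 + x0 - x0, Finset.sub_mem_sub (Finset.add_mem_add hx0V hx0V) hx0V⟩
  have hW1 : 1 ≤ (W + W - W).card :=
    Finset.card_pos.2 ⟨y0 + y0 - y0, Finset.sub_mem_sub (Finset.add_mem_add hy0 hy0) hy0⟩
  let C : ℝ → ℝ → Finset ℝ := fun σ τ => V.filter (fun x => 0 < σ * (x - u) ∧
      ∃ y ∈ W, 0 < τ * (y - w) ∧ (y - w) ^ 2 = (x - u) ^ 2 + κ)
  have hC : ∀ σ τ : ℝ, (σ = 1 ∨ σ = -1) → (τ = 1 ∨ τ = -1) →
      ((C σ τ).card - 1) ^ 4 ≤ 2304 * ((V + V - V).card ^ 2 * (W + W - W).card) := by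
    intro σ τ hσ hτ
    have := KLl_class κ hκ u w V W σ τ hσ hτ
    rw [mul_assoc] at this
    exact this
  let E : Finset ℝ := {u, u + Real.sqrt (-κ), u - Real.sqrt (-κ)}
  have hE : E.card ≤ 3 := Finset.card_le_three
  have hsub : F ⊆ E ∪ C 1 1 ∪ C 1 (-1) ∪ C (-1) 1 ∪ C (-1) (-1) := by
    intro x hx
    obtain ⟨hxV, y, hy, hxy⟩ := Finset.mem_filter.1 hx
    rcases lt_trichotomy x u with hxu | hxu | hxu
    · rcases lt_trichotomy y w with hyw | hyw | hyw
      · refine Finset.mem_union_right _ (Finset.mem_filter.2 ⟨hxV, by linarith, y, hy, by linarith, hxy⟩)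
      · refine Finset.mem_union_left _ (Finset.mem_union_left _ (Finset.mem_union_left _
          (Finset.mem_union_left _ ?_)))
        have h1 : (x - u) ^ 2 = -κ := by
          rw [hyw] at hxy
          linarith [hxy, sq_nonneg (w - w), (by ring : (w - w) ^ 2 = 0)]
        have h2 : Real.sqrt (-κ) = |x - u| := by rw [← h1, Real.sqrt_sq_eq_abs]
        have h3 : |x - u| = -(x - u) := abs_of_neg (by linarith)
        simp only [E, Finset.mem_insert, Finset.mem_singleton]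
        right; right
        rw [h2, h3]
        ring
      · refine Finset.mem_union_left _ (Finset.mem_union_right _
          (Finset.mem_filter.2 ⟨hxV, by linarith, y, hy, by linarith, hxy⟩))
    · refine Finset.mem_union_left _ (Finset.mem_union_left _ (Finset.mem_union_left _
          (Finset.mem_union_left _ ?_)))
      simp only [E, Finset.mem_insert]
      left
      exact hxu
    · rcases lt_trichotomy y w with hyw | hyw | hyw
      · refine Finset.mem_union_left _ (Finset.mem_union_left _ (Finset.mem_union_right _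
          (Finset.mem_filter.2 ⟨hxV, by linarith, y, hy, by linarith, hxy⟩)))
      · refine Finset.mem_union_left _ (Finset.mem_union_left _ (Finset.mem_union_left _
          (Finset.mem_union_left _ ?_)))
        have h1 : (x - u) ^ 2 = -κ := by
          rw [hyw] at hxy
          linarith [hxy, sq_nonneg (w - w), (by ring : (w - w) ^ 2 = 0)]
        have h2 : Real.sqrt (-κ) = |x - u| := by rw [← h1, Real.sqrt_sq_eq_abs]
        have h3 : |x - u| = x - u := abs_of_pos (by linarith)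
        simp only [E, Finset.mem_insert, Finset.mem_singleton]
        right; left
        rw [h2, h3]
        ring
      · refine Finset.mem_union_left _ (Finset.mem_union_left _ (Finset.mem_union_left _
          (Finset.mem_union_right _
          (Finset.mem_filter.2 ⟨hxV, by linarith, y, hy, by linarith, hxy⟩))))
  have hle : F.card ≤ 3 + (C 1 1).card + (C 1 (-1)).card + (C (-1) 1).card + (C (-1) (-1)).card := by
    refine (Finset.card_le_card hsub).trans ?_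
    refine (Finset.card_union_le _ _).trans (Nat.add_le_add_right ?_ _)
    refine (Finset.card_union_le _ _).trans (Nat.add_le_add_right ?_ _)
    refine (Finset.card_union_le _ _).trans (Nat.add_le_add_right ?_ _)
    refine (Finset.card_union_le _ _).trans (Nat.add_le_add_right hE _)
  have hM : 1 ≤ (V + V - V).card ^ 2 * (W + W - W).card :=
    Nat.mul_pos (pow_pos hV1 2) hW1
  have := KLl_num F.card _ _ _ _ _ hM (hC 1 1 (Or.inl rfl) (Or.inl rfl))
    (hC 1 (-1) (Or.inl rfl) (Or.inr rfl)) (hC (-1) 1 (Or.inr rfl) (Or.inl rfl))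
    (hC (-1) (-1) (Or.inr rfl) (Or.inr rfl)) hle
  rw [mul_assoc]
  exact this

end Pool.Agent.H3.LC
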