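import Pool.Agent.H3.LC.Defs

/-!
# MU4: a translate of the curve `cos y = a + b cos x` meets it at most four times

Proof. `E = sin e ≠ 0`, `p = a (cos e - 1)`, `q = b (cos e - cos g)`, `r = b sin g`, `c = cos x`, `s = sin x`. Expanding `cos (y+e) = cos y cos e - sin y sin e`,
`cos (x+g) = c cos g - s sin g`: `E sin y = p + q c + r s`. So `E^2 (1 - (a + b c)^2) = (p + q c + r s)^2`, and with `s^2 = 1 - c^2`
`(q^2 - r^2 + E^2 b^2) c^2 + 2 q r c s + (2 p q + 2 E^2 a b) c + 2 p r s + (p^2 + r^2 - E^2 + E^2 a^2) = 0`.     (*)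
With `u = tan (x/2)` (injective on `(0, π)`), `c = (1-u^2)/(1+u^2)`, `s = 2u/(1+u^2)`, (*) times `(1+u^2)^2` is a polynomial of degree at most `4` in `u`: if
`α = q^2 - r^2 + E^2 b^2`, `β = 2 q r`, `γ = 2 p q + 2 E^2 a b`, `δ = 2 p r`, `ε = p^2 + r^2 - E^2 + E^2 a^2`, its coefficients are
`u^0: α+γ+ε`, `u^1: 2β+2δ`, `u^2: -2α+2ε`, `u^3: -2β+2δ`, `u^4: α-γ+ε`. If all vanish then `α=β=γ=δ=ε=0`; `α = 0`: `r^2 = q^2 + E^2 b^2 > 0`, so `r ≠ 0`, `q = 0` (`β`),
`p = 0` (`δ`), so `a = 0` (`γ`: `E^2 a b = 0`), `r^2 = E^2 b^2` and `r^2 = E^2` (`ε`), so `b^2 = 1`: excluded by `hab`. So the polynomial is not zero and has at most `4` roots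
(`Polynomial.card_roots'`).
-/

set_option autoImplicit false

namespace Pool.Agent.H3.LC

open Polynomial in
lemma MU4_poly (a0 a1 a2 a3 a4 : ℝ) (h : ¬ (a0 = 0 ∧ a1 = 0 ∧ a2 = 0 ∧ a3 = 0 ∧ a4 = 0))
    (T : Finset ℝ) (hT : ∀ u ∈ T, a0 + a1 * u + a2 * u ^ 2 + a3 * u ^ 3 + a4 * u ^ 4 = 0) :
    T.card ≤ 4 := by
  classical
  set P : ℝ[X] := C a0 + C a1 * X + C a2 * X ^ 2 + C a3 * X ^ 3 + C a4 * X ^ 4 with hP
  have hc0 : P.coeff 0 = a0 := by simp [hP, coeff_X, coeff_C]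
  have hc1 : P.coeff 1 = a1 := by simp [hP, coeff_X, coeff_C]
  have hc2 : P.coeff 2 = a2 := by simp [hP, coeff_X, coeff_C]
  have hc3 : P.coeff 3 = a3 := by simp [hP, coeff_X, coeff_C]
  have hc4 : P.coeff 4 = a4 := by simp [hP, coeff_X, coeff_C]
  have hne : P ≠ 0 := by
    intro h0
    apply h
    rw [← hc0, ← hc1, ← hc2, ← hc3, ← hc4, h0]
    simp
  have hdeg : P.natDegree ≤ 4 := by
    rw [hP]
    compute_degree
  have hsub : T ⊆ P.roots.toFinset := by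
    intro u hu
    rw [Multiset.mem_toFinset, mem_roots hne, IsRoot.def]
    have := hT u hu
    simp only [hP, eval_add, eval_mul, eval_C, eval_X, eval_pow]
    exact this
  calc T.card ≤ P.roots.toFinset.card := Finset.card_le_card hsub
    _ ≤ Multiset.card P.roots := Multiset.toFinset_card_le _
    _ ≤ P.natDegree := card_roots' P
    _ ≤ 4 := hdeg

lemma MU4_eq (a b g e x y : ℝ) (h1 : Real.cos y = a + b * Real.cos x)
    (h2 : Real.cos (y + e) = a + b * Real.cos (x + g)) :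
    (( b * (Real.cos e - Real.cos g)) ^ 2 - (b * Real.sin g) ^ 2 + Real.sin e ^ 2 * b ^ 2) *
        Real.cos x ^ 2 +
      2 * (b * (Real.cos e - Real.cos g)) * (b * Real.sin g) * Real.cos x * Real.sin x +
      (2 * (a * (Real.cos e - 1)) * (b * (Real.cos e - Real.cos g)) +
        2 * Real.sin e ^ 2 * a * b) * Real.cos x +
      2 * (a * (Real.cos e - 1)) * (b * Real.sin g) * Real.sin x +
      ((a * (Real.cos e - 1)) ^ 2 + (b * Real.sin g) ^ 2 - Real.sin e ^ 2 +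
        Real.sin e ^ 2 * a ^ 2) = 0 := by
  rw [Real.cos_add, Real.cos_add] at h2
  have hs : Real.sin x ^ 2 = 1 - Real.cos x ^ 2 := by
    have := Real.sin_sq_add_cos_sq x
    linarith
  have hy : Real.sin y ^ 2 = 1 - Real.cos y ^ 2 := by
    have := Real.sin_sq_add_cos_sq y
    linarith
  have hE : Real.sin e * Real.sin y = a * (Real.cos e - 1) +
      b * (Real.cos e - Real.cos g) * Real.cos x + b * Real.sin g * Real.sin x := by
    rw [h1] at h2
    linarith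
  have hE2 : Real.sin e ^ 2 * (1 - (a + b * Real.cos x) ^ 2) =
      (a * (Real.cos e - 1) + b * (Real.cos e - Real.cos g) * Real.cos x +
        b * Real.sin g * Real.sin x) ^ 2 := by
    rw [← hE, mul_pow, hy, h1]
  linear_combination (-1) * hE2 - (b * Real.sin g) ^ 2 * hs

theorem MU4 (a b g e : ℝ) (hb : b ≠ 0) (hab : ¬ (a = 0 ∧ b ^ 2 = 1)) (he : Real.sin e ≠ 0) (S : Finset ℝ)
    (hS : ∀ x ∈ S, 0 < x ∧ x < Real.pi ∧
      ∃ y : ℝ, Real.cos y = a + b * Real.cos x ∧ Real.cos (y + e) = a + b * Real.cos (x + g)) :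
    S.card ≤ 4 := by
  classical
  obtain ⟨p, hp⟩ : ∃ p, p = a * (Real.cos e - 1) := ⟨_, rfl⟩
  obtain ⟨q, hq⟩ : ∃ q, q = b * (Real.cos e - Real.cos g) := ⟨_, rfl⟩
  obtain ⟨r, hr⟩ : ∃ r, r = b * Real.sin g := ⟨_, rfl⟩
  obtain ⟨E, hE⟩ : ∃ E, E = Real.sin e := ⟨_, rfl⟩
  obtain ⟨al, hal⟩ : ∃ t, t = q ^ 2 - r ^ 2 + E ^ 2 * b ^ 2 := ⟨_, rfl⟩
  obtain ⟨be, hbe⟩ : ∃ t, t = 2 * q * r := ⟨_, rfl⟩
  obtain ⟨ga, hga⟩ : ∃ t, t = 2 * p * q + 2 * E ^ 2 * a * b := ⟨_, rfl⟩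
  obtain ⟨de, hde⟩ : ∃ t, t = 2 * p * r := ⟨_, rfl⟩
  obtain ⟨ep, hep⟩ : ∃ t, t = p ^ 2 + r ^ 2 - E ^ 2 + E ^ 2 * a ^ 2 := ⟨_, rfl⟩
  have hinj : Set.InjOn (fun x : ℝ => Real.tan (x / 2)) (S : Set ℝ) := by
    intro x hx x' hx' h
    obtain ⟨h1, h2, _⟩ := hS x hx
    obtain ⟨h3, h4, _⟩ := hS x' hx'
    have hm : x / 2 ∈ Set.Ioo (-(Real.pi / 2)) (Real.pi / 2) :=
      ⟨by linarith [Real.pi_pos], by linarith⟩
    have hm' : x' / 2 ∈ Set.Ioo (-(Real.pi / 2)) (Real.pi / 2) :=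
      ⟨by linarith [Real.pi_pos], by linarith⟩
    have := Real.injOn_tan hm hm' h
    linarith
  rw [← Finset.card_image_of_injOn hinj]
  refine MU4_poly (al + ga + ep) (2 * be + 2 * de) (-2 * al + 2 * ep) (-2 * be + 2 * de)
    (al - ga + ep) ?_ _ ?_
  · rintro ⟨c0, c1, c2, c3, c4⟩
    have g1 : ga = 0 := by linarith
    have g2 : al = 0 := by linarith
    have g3 : ep = 0 := by linarith
    have g4 : be = 0 := by linarith
    have g5 : de = 0 := by linarith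
    have hE0 : E ≠ 0 := by
      rw [hE]
      exact he
    have hEb : 0 < E ^ 2 * b ^ 2 := by positivity
    have hr0 : r ≠ 0 := by
      intro h0
      rw [h0] at hal
      nlinarith [sq_nonneg q]
    have hq0 : q = 0 := by
      rw [g4] at hbe
      rcases mul_eq_zero.1 hbe.symm with h | h
      · linarith
      · exact absurd h hr0
    have hp0 : p = 0 := by
      rw [g5] at hde
      rcases mul_eq_zero.1 hde.symm with h | h
      · linarith
      · exact absurd h hr0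
    have ha0 : a = 0 := by
      rw [g1, hp0, hq0] at hga
      have h : E ^ 2 * (a * b) = 0 := by linarith
      rcases mul_eq_zero.1 h with h | h
      · exact absurd (pow_eq_zero_iff (two_ne_zero)|>.1 h) hE0
      · rcases mul_eq_zero.1 h with h | h
        · exact h
        · exact absurd h hb
    refine hab ⟨ha0, ?_⟩
    rw [g2, hq0] at hal
    rw [g3, hp0, ha0] at hep
    have h5 : E ^ 2 * (b ^ 2 - 1) = 0 := by linarith
    rcases mul_eq_zero.1 h5 with h | h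
    · exact absurd (pow_eq_zero_iff (two_ne_zero)|>.1 h) hE0
    · linarith
  · intro u hu
    obtain ⟨x, hx, rfl⟩ := Finset.mem_image.1 hu
    obtain ⟨h1, h2, y, h3, h4⟩ := hS x hx
    have key := MU4_eq a b g e x y h3 h4
    rw [← hp, ← hq, ← hr, ← hE, ← hal] at key
    have key2 : al * Real.cos x ^ 2 + be * Real.cos x * Real.sin x + ga * Real.cos x +
        de * Real.sin x + ep = 0 := by
      rw [hbe, hga, hde, hep]
      exact key
    have hh : Real.cos (x / 2) ≠ 0 :=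
      (Real.cos_pos_of_mem_Ioo ⟨by linarith [Real.pi_pos], by linarith⟩).ne'
    have hc : Real.cos x = Real.cos (x / 2) ^ 2 - Real.sin (x / 2) ^ 2 := by
      have := Real.cos_two_mul' (x / 2)
      rwa [show 2 * (x / 2) = x by ring] at this
    have hs : Real.sin x = 2 * Real.sin (x / 2) * Real.cos (x / 2) := by
      have := Real.sin_two_mul (x / 2)
      rwa [show 2 * (x / 2) = x by ring] at this
    have hone : Real.sin (x / 2) ^ 2 + Real.cos (x / 2) ^ 2 = 1 := Real.sin_sq_add_cos_sq _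
    simp only [Real.tan_eq_sin_div_cos]
    obtain ⟨k, hk⟩ : ∃ k, k = Real.sin (x / 2) := ⟨_, rfl⟩
    obtain ⟨t, ht⟩ : ∃ t, t = Real.cos (x / 2) := ⟨_, rfl⟩
    rw [← hk, ← ht] at hc hs hone
    rw [← ht] at hh
    rw [← hk, ← ht]
    rw [hc, hs] at key2
    have h4 : t ^ 4 * (al + ga + ep + (2 * be + 2 * de) * (k / t) +
        (-2 * al + 2 * ep) * (k / t) ^ 2 + (-2 * be + 2 * de) * (k / t) ^ 3 +
        (al - ga + ep) * (k / t) ^ 4) = 0 := by
      have e1 : t ^ 4 * (al + ga + ep + (2 * be + 2 * de) * (k / t) +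
        (-2 * al + 2 * ep) * (k / t) ^ 2 + (-2 * be + 2 * de) * (k / t) ^ 3 +
        (al - ga + ep) * (k / t) ^ 4) = (al + ga + ep) * t ^ 4 + (2 * be + 2 * de) * (k * t ^ 3) +
        (-2 * al + 2 * ep) * (k ^ 2 * t ^ 2) + (-2 * be + 2 * de) * (k ^ 3 * t) +
        (al - ga + ep) * k ^ 4 := by
        field_simp
      rw [e1]
      have e2 : k ^ 2 + t ^ 2 = 1 := hone
      have e3 : (al + ga + ep) * t ^ 4 + (2 * be + 2 * de) * (k * t ^ 3) +
        (-2 * al + 2 * ep) * (k ^ 2 * t ^ 2) + (-2 * be + 2 * de) * (k ^ 3 * t) +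
        (al - ga + ep) * k ^ 4 = al * (t ^ 2 - k ^ 2) ^ 2 +
        be * (t ^ 2 - k ^ 2) * (2 * k * t) + ga * (t ^ 2 - k ^ 2) * (k ^ 2 + t ^ 2) +
        de * (2 * k * t) * (k ^ 2 + t ^ 2) + ep * (k ^ 2 + t ^ 2) ^ 2 := by ring
      rw [e3, e2]
      linarith
    rcases mul_eq_zero.1 h4 with h | h
    · exact absurd (pow_eq_zero_iff (by norm_num)|>.1 h) hh
    · exact h

end Pool.Agent.H3.LC
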