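import Pool.Agent.H3.LC.SQ
import Pool.Agent.H3.LC.MU4
import Pool.Agent.H3.LC.LIFT

/-!
# KLr: the key lemma for the circle, one class

Proof. Put `φ x = Real.arccos (a + b cos x)`. For `x ∈ S` the `y` of the hypothesis is `φ x` (`Real.arccos_cos`, `0 < y < π`), so `φ x ∈ (0, π)`, `(φ x : Real.Angle) ∈ W`,
`cos (φ x) = a + b cos x`. `φ` is strictly monotone or strictly antitone on `S` (according to the sign of `b`: `Real.strictAntiOn_cos` on `[0, π]`; if `φ x = φ x'` then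
`cos x = cos x'`). Apply `SQ` with `M1 = |V + V - V|`, `M2 = |W + W - W|` (`T3r_angle` for `S` and for `S.image φ`). Hypothesis `h4`: for `g > 0`, `e ≠ 0`, if the filtered set is
nonempty then `φ s, φ s + e ∈ (0, π)`, so `0 < |e| < π`, `sin e ≠ 0`, and `MU4` applies to the filtered set with `y = φ x`.
-/

set_option autoImplicit false

namespace Pool.Agent.H3.LC

open scoped Pointwise
open Classical

theorem KLr (a b : ℝ) (hb : b ≠ 0) (hab : ¬ (a = 0 ∧ b ^ 2 = 1)) (S : Finset ℝ) (V W : Finset Real.Angle)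
    (hS : ∀ x ∈ S, 0 < x ∧ x < Real.pi ∧ (x : Real.Angle) ∈ V ∧
      ∃ y : ℝ, 0 < y ∧ y < Real.pi ∧ (y : Real.Angle) ∈ W ∧ Real.cos y = a + b * Real.cos x) :
    (S.card - 1) ^ 4 ≤ 2304 * (V + V - V).card ^ 2 * (W + W - W).card := by
  obtain ⟨φ, hφd⟩ : ∃ φ : ℝ → ℝ, φ = fun x => Real.arccos (a + b * Real.cos x) := ⟨_, rfl⟩
  have hφ : ∀ x ∈ S, 0 < φ x ∧ φ x < Real.pi ∧ ((φ x : ℝ) : Real.Angle) ∈ W ∧ Real.cos (φ x) = a + b * Real.cos x := by
    intro x hx
    obtain ⟨-, -, -, y, hy0, hy1, hyW, hyc⟩ := hS x hx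
    have h : φ x = y := by
      rw [hφd]
      show Real.arccos (a + b * Real.cos x) = y
      rw [← hyc]
      exact Real.arccos_cos hy0.le hy1.le
    rw [h]
    exact ⟨hy0, hy1, hyW, hyc⟩
  have hcos : ∀ x ∈ S, ∀ x' ∈ S, x < x' → Real.cos x' < Real.cos x := by
    intro x hx x' hx' hlt
    exact Real.strictAntiOn_cos ⟨(hS x hx).1.le, (hS x hx).2.1.le⟩ ⟨(hS x' hx').1.le, (hS x' hx').2.1.le⟩ hlt
  have hinv : ∀ x ∈ S, ∀ x' ∈ S, Real.cos (φ x') < Real.cos (φ x) → φ x < φ x' := by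
    intro x hx x' hx' hlt
    by_contra hc
    have hc' : φ x' ≤ φ x := not_lt.mp hc
    have := Real.strictAntiOn_cos.antitoneOn ⟨(hφ x' hx').1.le, (hφ x' hx').2.1.le⟩ ⟨(hφ x hx).1.le, (hφ x hx).2.1.le⟩ hc'
    exact absurd hlt (not_lt.mpr this)
  have hmono : StrictMonoOn φ (S : Set ℝ) ∨ StrictAntiOn φ (S : Set ℝ) := by
    rcases lt_or_gt_of_ne hb with hneg | hpos
    · right
      intro x hx x' hx' hlt
      have hx1 := Finset.mem_coe.mp hx
      have hx1' := Finset.mem_coe.mp hx'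
      apply hinv x' hx1' x hx1
      rw [(hφ x hx1).2.2.2, (hφ x' hx1').2.2.2]
      have := hcos x hx1 x' hx1' hlt
      nlinarith
    · left
      intro x hx x' hx' hlt
      have hx1 := Finset.mem_coe.mp hx
      have hx1' := Finset.mem_coe.mp hx'
      apply hinv x hx1 x' hx1'
      rw [(hφ x hx1).2.2.2, (hφ x' hx1').2.2.2]
      have := hcos x hx1 x' hx1' hlt
      nlinarith
  refine SQ S φ hmono ?_ (V + V - V).card (W + W - W).card ?_ ?_
  · intro g e hg he
    rcases (S.filter (fun s => s + g ∈ S ∧ φ (s + g) = φ s + e)).eq_empty_or_nonempty with h0 | ⟨s, hs⟩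
    · rw [h0]
      simp
    · have hsin : Real.sin e ≠ 0 := by
        rw [Finset.mem_filter] at hs
        obtain ⟨hs1, hs2, hs3⟩ := hs
        have h1 := hφ s hs1
        have h2 := hφ (s + g) hs2
        rcases lt_or_gt_of_ne he with hneg | hpos
        · have : Real.sin e < 0 := Real.sin_neg_of_neg_of_neg_pi_lt hneg (by linarith [h1.2.1, h2.1])
          exact this.ne
        · have : 0 < Real.sin e := Real.sin_pos_of_pos_of_lt_pi hpos (by linarith [h1.1, h2.2.1])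
          exact this.ne'
      refine MU4 a b g e hb hab hsin _ ?_
      intro x hx
      rw [Finset.mem_filter] at hx
      obtain ⟨hx1, hx2, hx3⟩ := hx
      refine ⟨(hS x hx1).1, (hS x hx1).2.1, φ x, (hφ x hx1).2.2.2, ?_⟩
      rw [← hx3]
      exact (hφ (x + g) hx2).2.2.2
  · exact T3r_angle S V (fun x hx => ⟨(hS x hx).1, (hS x hx).2.1, (hS x hx).2.2.1⟩)
  · refine T3r_angle (S.image φ) W ?_
    intro y hy
    obtain ⟨x, hx, rfl⟩ := Finset.mem_image.mp hy
    exact ⟨(hφ x hx).1, (hφ x hx).2.1, (hφ x hx).2.2.1⟩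

end Pool.Agent.H3.LC
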