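import Pool.Agent.H3.LC.KB1
import Pool.Agent.H3.LC.EN

/-!
# L4a: few points in poor classes

Proof. `N1` = maximum over `x, x' ∈ poorL` with `|Y x| ≠ |Y x'|` of the number of `(v, v') ∈ V × V` with `dist x v = dist x' v'` (`0` if there are none), `V = lev A Y 0`: `KB1`. `EN` with
`X := poorL A Y h`, `f = dist`, `cl x = |Y x|`, `k = |dset A|` (`x ≠ v` because `Y x ≠ 0 = Y v`); same class: at most two `v'` for each `v` (`near2l`); classes are contained in `cla A Y (Y x)`.
-/

set_option autoImplicit false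

namespace Pool.Agent.H3.LC

open scoped Pointwise
open Classical

theorem L4a (A : Finset Plane) (X Y : Plane → ℝ) (hXY : ∀ p q : Plane, dist p q ^ 2 = (X p - X q) ^ 2 + (Y p - Y q) ^ 2)
    (D h : ℕ) (hD : 2 * (dset A).card + 1 ≤ D) :
    ∃ N1 : ℕ, N1 ^ 4 * (lev A Y 0).card ^ 6 ≤ 71639296 * D ^ 9 ∧
      (poorL A Y h).card * (lev A Y 0).card ^ 2 ≤
        (dset A).card * ((poorL A Y h).card * N1 + 2 * h * (lev A Y 0).card) := by
  set V : Finset Plane := lev A Y 0 with hV
  set P : Finset Plane := poorL A Y h with hP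
  set T : Finset (Plane × Plane) := (P ×ˢ P).filter (fun q => |Y q.1| ≠ |Y q.2|) with hT
  set g : Plane × Plane → ℕ := fun q => ((V ×ˢ V).filter (fun p => dist q.1 p.1 = dist q.2 p.2)).card with hg
  refine ⟨T.sup g, ?_, ?_⟩
  · rcases T.eq_empty_or_nonempty with h0 | h0
    · rw [h0, Finset.sup_empty]
      simp
    · obtain ⟨q, hq, he⟩ := Finset.exists_mem_eq_sup T h0 g
      rw [he]
      exact KB1 A X Y hXY D hD q.1 q.2 (Finset.mem_filter.mp hq).2
  · refine EN P V (fun x v => dist x v) (fun x => |Y x|) (dset A).card (T.sup g) h ?_ ?_ ?_ ?_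
    · refine Finset.card_le_card fun t ht => ?_
      obtain ⟨p, hp, rfl⟩ := Finset.mem_image.mp ht
      obtain ⟨h1, h2⟩ := Finset.mem_product.mp hp
      rw [hP, poorL, Finset.mem_filter] at h1
      rw [hV, lev, Finset.mem_filter] at h2
      refine Finset.mem_image.mpr ⟨p, Finset.mem_offDiag.mpr ⟨h1.1, h2.1, fun e => ?_⟩, rfl⟩
      exact h1.2.1 (by rw [e]; exact h2.2)
    · intro x hx x' hx' hne
      exact Finset.le_sup (f := g) (b := (x, x'))
        (Finset.mem_filter.mpr ⟨Finset.mem_product.mpr ⟨hx, hx'⟩, hne⟩)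
    · intro x hx x' hx' _
      set F : Finset (Plane × Plane) := (V ×ˢ V).filter (fun p => dist x p.1 = dist x' p.2) with hF
      have hfst : ∀ p ∈ F, p.1 ∈ V := fun p hp =>
        (Finset.mem_product.mp (Finset.mem_filter.mp hp).1).1
      have h1 : F.card ≤ ∑ v ∈ V, (F.filter (fun p => p.1 = v)).card :=
        le_of_eq (Finset.card_eq_sum_card_fiberwise (fun p hp => hfst p hp))
      refine h1.trans ?_
      rw [mul_comm, ← smul_eq_mul, ← Finset.sum_const]
      refine Finset.sum_le_sum fun v _ => ?_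
      refine le_trans ?_ (near2l A X Y hXY 0 x' (dist x v))
      refine Finset.card_le_card_of_injOn (fun p => p.2) (fun p hp => ?_) (fun p hp p' hp' hpp => ?_)
      · rw [Finset.mem_coe, Finset.mem_filter] at hp
        obtain ⟨hpF, hpv⟩ := hp
        rw [hF, Finset.mem_filter, Finset.mem_product] at hpF
        rw [Finset.mem_coe, Finset.mem_filter]
        exact ⟨hpF.1.2, by rw [← hpF.2, hpv]⟩
      · rw [Finset.mem_coe, Finset.mem_filter] at hp hp'
        exact Prod.ext (hp.2.trans hp'.2.symm) hpp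
    · intro x hx
      have hx' := hx
      rw [hP, poorL, Finset.mem_filter] at hx'
      refine (Finset.card_le_card fun y hy => ?_).trans hx'.2.2.le
      rw [Finset.mem_filter] at hy
      have hy' := hy.1
      rw [hP, poorL, Finset.mem_filter] at hy'
      rw [cla, Finset.mem_filter]
      exact ⟨hy'.1, hy.2⟩

end Pool.Agent.H3.LC
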