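import Pool.Agent.H3.LC.Defs

/-!
# SQb: squeezing

Proof. Let `t = |J.image e|`. For every value `γ ∈ J.image e` choose `j(γ) ∈ J` with `e (j γ) = γ`. For `γ < γ'` in `J.image e` the number `j(γ') + γ = j(γ') + (j(γ) + e (j γ)) - j(γ)`
is in `B + B - B` and in the open interval `(j(γ'), j(γ') + γ')`; both end points are in `B`, so it is counted by `T3r B`. The map `(γ, γ') ↦ j(γ') + γ` is injective on the pairs
`γ < γ'`: the open intervals of different `γ'` are disjoint (no point of `B` inside such an interval, and `j(γ') ≠ j(γ'')`), then `γ` is determined. So `t (t - 1) / 2 ≤ T3r B ≤ M2`.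
-/

set_option autoImplicit false

namespace Pool.Agent.H3.LC

open scoped Pointwise
open Classical

lemma SQb_card (S : Finset ℝ) :
    S.card * (S.card - 1) = 2 * (S.offDiag.filter (fun p => p.1 < p.2)).card := by
  have h1 : S.offDiag.card = S.card * (S.card - 1) := by
    rw [Finset.offDiag_card, Nat.mul_sub_one]
  have h2 : (S.offDiag.filter (fun p => p.1 < p.2)).card
      + (S.offDiag.filter (fun p => ¬ (p.1 < p.2))).card = S.offDiag.card :=
    Finset.card_filter_add_card_filter_not _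
  have h3 : (S.offDiag.filter (fun p => ¬ (p.1 < p.2))).card
      = (S.offDiag.filter (fun p => p.1 < p.2)).card := by
    refine Finset.card_bij (fun p _ => (p.2, p.1)) ?_ ?_ ?_
    · intro p hp
      simp only [Finset.mem_filter, Finset.mem_offDiag] at hp ⊢
      obtain ⟨⟨ha, hb, hab⟩, hn⟩ := hp
      exact ⟨⟨hb, ha, fun h => hab h.symm⟩, lt_of_le_of_ne (not_lt.mp hn) (fun h => hab h.symm)⟩
    · intro p _ q _ hpq
      simp only [Prod.mk.injEq] at hpq
      exact Prod.ext hpq.2 hpq.1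
    · intro p hp
      simp only [Finset.mem_filter, Finset.mem_offDiag] at hp
      obtain ⟨⟨ha, hb, hab⟩, hn⟩ := hp
      refine ⟨(p.2, p.1), ?_, rfl⟩
      simp only [Finset.mem_filter, Finset.mem_offDiag]
      exact ⟨⟨hb, ha, fun h => hab h.symm⟩, not_lt.mpr hn.le⟩
  omega

theorem SQb (B J : Finset ℝ) (e : ℝ → ℝ) (hJ : J ⊆ B)
    (he : ∀ j ∈ J, 0 < e j ∧ j + e j ∈ B ∧ ∀ x ∈ B, ¬ (j < x ∧ x < j + e j)) (M2 : ℕ) (h2 : T3r B ≤ M2) :
    (J.image e).card * ((J.image e).card - 1) ≤ 2 * M2 := by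
  have hch : ∀ g : ℝ, ∃ j : ℝ, g ∈ J.image e → j ∈ J ∧ e j = g := by
    intro g
    by_cases hg : g ∈ J.image e
    · obtain ⟨j, hj, hjg⟩ := Finset.mem_image.mp hg
      exact ⟨j, fun _ => ⟨hj, hjg⟩⟩
    · exact ⟨0, fun h => absurd h hg⟩
  choose j hj using hch
  rw [SQb_card]
  have key : ((J.image e).offDiag.filter (fun p => p.1 < p.2)).card ≤ T3r B := by
    unfold T3r
    refine Finset.card_le_card_of_injOn (fun p => j p.2 + p.1) ?_ ?_
    · intro p hp
      simp only [Finset.coe_filter, Finset.mem_offDiag, Set.mem_ofPred_eq] at hp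
      obtain ⟨⟨ha, hb, _⟩, hlt⟩ := hp
      obtain ⟨ja, ea⟩ := hj _ ha
      obtain ⟨jb, eb⟩ := hj _ hb
      obtain ⟨pa, ma, _⟩ := he _ ja
      obtain ⟨pb, mb, _⟩ := he _ jb
      simp only [Finset.coe_filter, Set.mem_ofPred_eq]
      refine ⟨?_, j p.2, hJ jb, j p.2 + e (j p.2), mb, ?_, ?_⟩
      · refine Finset.mem_sub.mpr ⟨j p.2 + (j p.1 + e (j p.1)), Finset.add_mem_add (hJ jb) ma, j p.1, hJ ja, ?_⟩
        rw [ea]; ring
      · rw [ea] at pa; linarith
      · rw [eb]; linarith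
    · intro p hp q hq hpq
      simp only [Finset.coe_filter, Finset.mem_offDiag, Set.mem_ofPred_eq] at hp hq
      obtain ⟨⟨ha, hb, _⟩, hlt⟩ := hp
      obtain ⟨⟨ha', hb', _⟩, hlt'⟩ := hq
      obtain ⟨ja, ea⟩ := hj _ ha
      obtain ⟨jb, eb⟩ := hj _ hb
      obtain ⟨ja', ea'⟩ := hj _ ha'
      obtain ⟨jb', eb'⟩ := hj _ hb'
      obtain ⟨pa, _, _⟩ := he _ ja
      obtain ⟨pa', _, _⟩ := he _ ja'
      obtain ⟨_, _, nb⟩ := he _ jb
      obtain ⟨_, _, nb'⟩ := he _ jb'
      rw [ea] at pa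
      rw [ea'] at pa'
      rw [eb] at nb
      rw [eb'] at nb'
      have hpq' : j p.2 + p.1 = j q.2 + q.1 := hpq
      have hjj : j p.2 = j q.2 := by
        rcases lt_trichotomy (j p.2) (j q.2) with h | h | h
        · exfalso
          refine nb _ (hJ jb') ⟨h, ?_⟩
          linarith
        · exact h
        · exfalso
          refine nb' _ (hJ jb) ⟨h, ?_⟩
          linarith
      have h2' : p.2 = q.2 := by rw [← eb, ← eb', hjj]
      refine Prod.ext ?_ h2'
      linarith
  omega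

end Pool.Agent.H3.LC
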