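import Pool.Agent.H3.LC.SQa
import Pool.Agent.H3.LC.SQb

/-!
# SQ: the squeezing lemma

Proof. `SQa` gives `g > 0` and `J = {s ∈ S : s + g ∈ S, no element of S in (s, s+g)}` with `(N-1)^2 ≤ 6 M1 |J|`. First let `φ` be increasing on `S`. Put `B = S.image φ`,
`J' = J.image φ ⊆ B`; for `s ∈ J` the number `e' (φ s) = φ (s+g) - φ s > 0` (define `e'` on `J'` through the injectivity of `φ` on `S`) satisfies the hypotheses of `SQb` (no element
of `B` in between, by monotonicity). By `h4` every value `e ≠ 0` is attained at most `4` times on `J`, so `|J| ≤ 4 t`, `t = |J'.image e'|`, and `SQb` gives `t (t-1) ≤ 2 M2`. Then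
`t^2 ≤ 4 M2` (`t ≥ 2`: `t^2 ≤ 2 t (t-1) ≤ 4 M2`; `t = 1`: `B` is nonempty, so `1 ≤ T3r B ≤ M2`; `t = 0` clear). So `(N-1)^2 ≤ 24 M1 t`, `(N-1)^4 ≤ 576 M1^2 t^2 ≤ 2304 M1^2 M2`.
Decreasing `φ`: apply the first case to `-φ`; `T3r (B.image Neg.neg) = T3r B` (the bijection `x ↦ -x`).
-/

set_option autoImplicit false

namespace Pool.Agent.H3.LC

open scoped Pointwise
open Classical

lemma SQ_pos (B : Finset ℝ) (hB : B.Nonempty) : 1 ≤ T3r B := by
  obtain ⟨b, hb⟩ := hB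
  unfold T3r
  refine Finset.card_pos.mpr ⟨b, ?_⟩
  rw [Finset.mem_filter]
  refine ⟨?_, b, hb, b, hb, le_rfl, le_rfl⟩
  have h2 : b = b + b - b := by ring
  rw [h2]
  exact Finset.sub_mem_sub (Finset.add_mem_add hb hb) hb

lemma SQ_neg (B : Finset ℝ) : T3r (B.image (fun x => -x)) ≤ T3r B := by
  unfold T3r
  refine Finset.card_le_card_of_injOn (fun x => -x) ?_ ?_
  · intro x hx
    rw [Finset.mem_coe, Finset.mem_filter] at hx
    obtain ⟨hx1, a, ha, b, hb, hax, hxb⟩ := hx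
    obtain ⟨u, hu, c, hc, huc⟩ := Finset.mem_sub.mp hx1
    obtain ⟨v, hv, w, hw, hvw⟩ := Finset.mem_add.mp hu
    obtain ⟨a', ha', rfl⟩ := Finset.mem_image.mp ha
    obtain ⟨b', hb', rfl⟩ := Finset.mem_image.mp hb
    obtain ⟨c', hc', rfl⟩ := Finset.mem_image.mp hc
    obtain ⟨v', hv', rfl⟩ := Finset.mem_image.mp hv
    obtain ⟨w', hw', rfl⟩ := Finset.mem_image.mp hw
    rw [Finset.mem_coe, Finset.mem_filter]
    refine ⟨?_, b', hb', a', ha', by linarith, by linarith⟩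
    refine Finset.mem_sub.mpr ⟨v' + w', Finset.add_mem_add hv' hw', c', hc', ?_⟩
    show v' + w' - c' = -x
    linarith
  · intro x _ y _ hxy
    exact neg_injective hxy

lemma SQ_inc (S : Finset ℝ) (φ : ℝ → ℝ) (hφ : StrictMonoOn φ (S : Set ℝ))
    (h4 : ∀ g e : ℝ, 0 < g → e ≠ 0 → (S.filter (fun s => s + g ∈ S ∧ φ (s + g) = φ s + e)).card ≤ 4)
    (M1 M2 : ℕ) (h1 : T3r S ≤ M1) (h2 : T3r (S.image φ) ≤ M2) :
    (S.card - 1) ^ 4 ≤ 2304 * M1 ^ 2 * M2 := by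
  obtain ⟨g, hg, hJ⟩ := SQa S M1 h1
  obtain ⟨J, hJd⟩ : ∃ J, J = S.filter (fun s => s + g ∈ S ∧ ∀ x ∈ S, ¬ (s < x ∧ x < s + g)) := ⟨_, rfl⟩
  rw [← hJd] at hJ
  have hJS : ∀ s ∈ J, s ∈ S := by
    intro s hs
    rw [hJd] at hs
    exact (Finset.mem_filter.mp hs).1
  have hJg : ∀ s ∈ J, s + g ∈ S := by
    intro s hs
    rw [hJd] at hs
    exact (Finset.mem_filter.mp hs).2.1
  have hJn : ∀ s ∈ J, ∀ x ∈ S, ¬ (s < x ∧ x < s + g) := by
    intro s hs
    rw [hJd] at hs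
    exact (Finset.mem_filter.mp hs).2.2
  obtain ⟨ψ, hψ⟩ : ∃ ψ : ℝ → ℝ, ∀ s ∈ S, ψ (φ s) = s := by
    refine ⟨Function.invFunOn φ (S : Set ℝ), fun s hs => ?_⟩
    have h := hφ.injOn.leftInvOn_invFunOn
    exact h (Finset.mem_coe.mpr hs)
  obtain ⟨e, he⟩ : ∃ e : ℝ → ℝ, ∀ b, e b = φ (ψ b + g) - b := ⟨fun b => φ (ψ b + g) - b, fun _ => rfl⟩
  have hes : ∀ s ∈ J, e (φ s) = φ (s + g) - φ s := by
    intro s hs
    rw [he, hψ s (hJS s hs)]
  have hpos : ∀ s ∈ J, 0 < φ (s + g) - φ s := by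
    intro s hs
    have := hφ (Finset.mem_coe.mpr (hJS s hs)) (Finset.mem_coe.mpr (hJg s hs)) (by linarith)
    linarith
  have hb := SQb (S.image φ) (J.image φ) e
    (Finset.image_subset_image (fun s hs => hJS s hs)) (by
      intro j hj
      obtain ⟨s, hs, rfl⟩ := Finset.mem_image.mp hj
      rw [hes s hs]
      refine ⟨hpos s hs, ?_, ?_⟩
      · have : φ s + (φ (s + g) - φ s) = φ (s + g) := by ring
        rw [this]
        exact Finset.mem_image_of_mem _ (hJg s hs)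
      · intro x hx
        obtain ⟨y, hy, rfl⟩ := Finset.mem_image.mp hx
        rintro ⟨hx1, hx2⟩
        refine hJn s hs y hy ⟨?_, ?_⟩
        · exact (hφ.lt_iff_lt (Finset.mem_coe.mpr (hJS s hs)) (Finset.mem_coe.mpr hy)).mp hx1
        · have h3 : φ y < φ (s + g) := by linarith
          exact (hφ.lt_iff_lt (Finset.mem_coe.mpr hy) (Finset.mem_coe.mpr (hJg s hs))).mp h3) M2 h2
  obtain ⟨t, ht⟩ : ∃ t, t = ((J.image φ).image e).card := ⟨_, rfl⟩
  rw [← ht] at hb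
  have hJt : J.card ≤ 4 * t := by
    rw [ht]
    refine Finset.card_le_mul_card_image_of_maps_to (f := fun s : ℝ => e (φ s)) ?_ 4 ?_
    · intro s hs
      exact Finset.mem_image_of_mem _ (Finset.mem_image_of_mem _ hs)
    · intro b hb'
      obtain ⟨c, hc, rfl⟩ := Finset.mem_image.mp hb'
      obtain ⟨s0, hs0, rfl⟩ := Finset.mem_image.mp hc
      have hne : e (φ s0) ≠ 0 := by
        rw [hes s0 hs0]
        exact (hpos s0 hs0).ne'
      refine le_trans (Finset.card_le_card ?_) (h4 g (e (φ s0)) hg hne)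
      intro s hs
      rw [Finset.mem_filter] at hs
      rw [Finset.mem_filter]
      refine ⟨hJS s hs.1, hJg s hs.1, ?_⟩
      rw [← hs.2, hes s hs.1]
      ring
  have ht2 : t ^ 2 ≤ 4 * M2 := by
    rcases Nat.lt_or_ge t 2 with h | h
    · rcases Nat.eq_zero_or_pos t with h0 | h0
      · rw [h0]
        omega
      · have ht1 : t = 1 := by omega
        have hne : (S.image φ).Nonempty := by
          have h5 : ((J.image φ).image e).Nonempty := Finset.card_pos.mp (by rw [← ht]; exact h0)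
          obtain ⟨b, hb'⟩ := h5
          obtain ⟨c, hc, _⟩ := Finset.mem_image.mp hb'
          obtain ⟨s0, hs0, _⟩ := Finset.mem_image.mp hc
          exact ⟨φ s0, Finset.mem_image_of_mem _ (hJS s0 hs0)⟩
        have h6 := SQ_pos _ hne
        rw [ht1]
        omega
    · obtain ⟨r, rfl⟩ : ∃ r, t = r + 2 := ⟨t - 2, by omega⟩
      have h7 : r + 2 - 1 = r + 1 := by omega
      rw [h7] at hb
      nlinarith
  have h8 : (S.card - 1) ^ 2 ≤ 24 * M1 * t := by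
    calc (S.card - 1) ^ 2 ≤ 6 * M1 * J.card := hJ
      _ ≤ 6 * M1 * (4 * t) := Nat.mul_le_mul_left _ hJt
      _ = 24 * M1 * t := by ring
  calc (S.card - 1) ^ 4 = ((S.card - 1) ^ 2) ^ 2 := by ring
    _ ≤ (24 * M1 * t) ^ 2 := Nat.pow_le_pow_left h8 2
    _ = 576 * M1 ^ 2 * t ^ 2 := by ring
    _ ≤ 576 * M1 ^ 2 * (4 * M2) := Nat.mul_le_mul_left _ ht2
    _ = 2304 * M1 ^ 2 * M2 := by ring

theorem SQ (S : Finset ℝ) (φ : ℝ → ℝ) (hφ : StrictMonoOn φ (S : Set ℝ) ∨ StrictAntiOn φ (S : Set ℝ))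
    (h4 : ∀ g e : ℝ, 0 < g → e ≠ 0 → (S.filter (fun s => s + g ∈ S ∧ φ (s + g) = φ s + e)).card ≤ 4)
    (M1 M2 : ℕ) (h1 : T3r S ≤ M1) (h2 : T3r (S.image φ) ≤ M2) :
    (S.card - 1) ^ 4 ≤ 2304 * M1 ^ 2 * M2 := by
  rcases hφ with hφ | hφ
  · exact SQ_inc S φ hφ h4 M1 M2 h1 h2
  · refine SQ_inc S (fun x => -φ x) ?_ ?_ M1 M2 h1 ?_
    · intro x hx y hy hxy
      have := hφ hx hy hxy
      show -φ x < -φ y
      linarith
    · intro g e hg he
      refine le_trans (Finset.card_le_card ?_) (h4 g (-e) hg (neg_ne_zero.mpr he))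
      intro s hs
      rw [Finset.mem_filter] at hs
      rw [Finset.mem_filter]
      refine ⟨hs.1, hs.2.1, ?_⟩
      have := hs.2.2
      linarith
    · refine le_trans (le_of_eq ?_) (le_trans (SQ_neg (S.image φ)) h2)
      rw [Finset.image_image]
      rfl

end Pool.Agent.H3.LC
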