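import Pool.Agent.H3.LC.Defs

/-!
# SQa: a popular gap

Proof. `N = |S|`; `N ≤ 1`: take `g = 1` (left side `0`). Else let `s_0 < ... < s_{N-1}` be the elements, `g_j = s_{j+1} - s_j` (`N - 1` gaps), `G` the set of gap values,
`r(j) = #{γ ∈ G : γ < g_j}`. The numbers `s_j + γ` (`γ ∈ G`, `γ < g_j`) are in the open interval `(s_j, s_{j+1})`, belong to `S + S - S` (`γ = s_{i+1} - s_i`) and are all
distinct (the intervals are disjoint), so `∑_j r(j) ≤ T3r S ≤ M1`. Let `μ` be the largest number of `j` with the same `g_j`. As every value of `G` is attained at most `μ` times,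
at most `μ (r + 1)` of the `j` have `r(j) ≤ r`; with `r = ⌊2 M1 / (N - 1)⌋`: fewer than `(N-1)/2 + ...` have `r(j) > 2 M1/(N-1)`, so `(N - 1)/2 ≤ μ (2 M1/(N-1) + 1)`,
`(N-1)^2 ≤ μ (4 M1 + 2 (N-1)) ≤ 6 M1 μ`, because `T3r S ≥ |S| = N` (`S ⊆ S + S - S`). The filter in the statement is the set of the `s_j` with `g_j = g`.
(Instead of sorting: the successor of `s ∈ S`, `s ≠ max`, is the minimum of `{x ∈ S, s < x}`.)
-/

set_option autoImplicit false

namespace Pool.Agent.H3.LC

open scoped Pointwise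
open Classical

theorem SQa (S : Finset ℝ) (M1 : ℕ) (h : T3r S ≤ M1) :
    ∃ g : ℝ, 0 < g ∧ (S.card - 1) ^ 2 ≤
      6 * M1 * (S.filter (fun s => s + g ∈ S ∧ ∀ x ∈ S, ¬ (s < x ∧ x < s + g))).card := by
  rcases Nat.lt_or_ge S.card 2 with hN | hN
  · refine ⟨1, one_pos, ?_⟩
    have : S.card - 1 = 0 := by omega
    rw [this]
    exact Nat.zero_le _
  have hne : S.Nonempty := Finset.card_pos.1 (by omega)
  obtain ⟨J, hJ⟩ : ∃ J, J = S.erase (S.max' hne) := ⟨_, rfl⟩
  have hJc : J.card = S.card - 1 := by rw [hJ, Finset.card_erase_of_mem (S.max'_mem hne)]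
  have hJS : ∀ s ∈ J, s ∈ S := by
    intro s hs
    rw [hJ] at hs
    exact Finset.mem_of_mem_erase hs
  have hnx : ∀ s ∈ J, ∃ t, t ∈ S ∧ s < t ∧ ∀ x ∈ S, s < x → t ≤ x := by
    intro s hs
    rw [hJ, Finset.mem_erase] at hs
    have hne' : (S.filter (fun x => s < x)).Nonempty := ⟨S.max' hne, by
      rw [Finset.mem_filter]
      exact ⟨S.max'_mem hne, lt_of_le_of_ne (S.le_max' s hs.2) hs.1⟩⟩
    have h1 := Finset.mem_filter.1 (Finset.min'_mem _ hne')
    exact ⟨(S.filter (fun x => s < x)).min' hne', h1.1, h1.2, fun x hx hx2 =>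
      Finset.min'_le _ x (Finset.mem_filter.2 ⟨hx, hx2⟩)⟩
  choose! nx hnx1 hnx2 hnx3 using hnx
  obtain ⟨γ, hγ⟩ : ∃ γ : ℝ → ℝ, ∀ s, γ s = nx s - s := ⟨fun s => nx s - s, fun _ => rfl⟩
  have hJne : J.Nonempty := Finset.card_pos.1 (by omega)
  obtain ⟨s0, hs0, hmax⟩ := Finset.exists_max_image J (fun s => (J.filter (fun i => γ i = γ s)).card) hJne
  have hg0 : 0 < γ s0 := by
    rw [hγ]
    have := hnx2 s0 hs0
    linarith
  obtain ⟨μ, hμ⟩ : ∃ μ : ℕ, μ = (J.filter (fun i => γ i = γ s0)).card := ⟨_, rfl⟩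
  have hmax' : ∀ s ∈ J, (J.filter (fun i => γ i = γ s)).card ≤ μ := by
    intro s hs
    rw [hμ]
    exact hmax s hs
  refine ⟨γ s0, hg0, ?_⟩
  have hμ1 : μ ≤ (S.filter (fun s => s + γ s0 ∈ S ∧ ∀ x ∈ S, ¬ (s < x ∧ x < s + γ s0))).card := by
    rw [hμ]
    refine Finset.card_le_card fun s hs => ?_
    rw [Finset.mem_filter] at hs
    have h1 : s + γ s0 = nx s := by
      rw [← hs.2, hγ]
      ring
    rw [Finset.mem_filter, h1]
    exact ⟨hJS s hs.1, hnx1 s hs.1, fun x hx hx2 => absurd hx2.2 (not_lt.2 (hnx3 s hs.1 x hx hx2.1))⟩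
  -- the set of pairs `(j, c)`, `c` a smaller gap
  obtain ⟨W, hW⟩ : ∃ W, W = (J ×ˢ J.image γ).filter (fun p => p.2 < γ p.1) := ⟨_, rfl⟩
  have hWc : W.card ≤ M1 := by
    refine le_trans ?_ h
    unfold T3r
    refine Finset.card_le_card_of_injOn (fun p => p.1 + p.2) ?_ ?_
    · intro p hp
      rw [Finset.mem_coe, hW, Finset.mem_filter, Finset.mem_product, Finset.mem_image] at hp
      obtain ⟨⟨hp1, i, hi, hp2⟩, hp3⟩ := hp
      rw [Finset.mem_coe, Finset.mem_filter]
      refine ⟨?_, p.1, hJS _ hp1, nx p.1, hnx1 _ hp1, ?_, ?_⟩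
      · have h1 : p.1 + p.2 = p.1 + nx i - i := by
          rw [← hp2, hγ]
          ring
        show p.1 + p.2 ∈ _
        rw [h1]
        exact Finset.sub_mem_sub (Finset.add_mem_add (hJS _ hp1) (hnx1 i hi)) (hJS _ hi)
      · show p.1 ≤ p.1 + p.2
        have h1 := hnx2 i hi
        rw [← hp2, hγ]
        linarith
      · show p.1 + p.2 ≤ nx p.1
        rw [hγ] at hp3
        linarith
    · have key : ∀ p ∈ W, ∀ q ∈ W, p.1 < q.1 → p.1 + p.2 < q.1 + q.2 := by
        intro p hp q hq hpq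
        rw [hW, Finset.mem_filter, Finset.mem_product, Finset.mem_image] at hp hq
        obtain ⟨⟨hp1, -⟩, hp3⟩ := hp
        obtain ⟨⟨hq1, i, hi, hq2⟩, -⟩ := hq
        have h1 := hnx3 _ hp1 _ (hJS _ hq1) hpq
        have h2 := hnx2 i hi
        rw [hγ] at hp3
        rw [← hq2, hγ]
        linarith
      intro p hp q hq hpq
      rw [Finset.mem_coe] at hp hq
      have hpq' : p.1 + p.2 = q.1 + q.2 := hpq
      rcases lt_trichotomy p.1 q.1 with h1 | h1 | h1
      · exact absurd hpq' (key p hp q hq h1).ne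
      · exact Prod.ext h1 (by linarith)
      · exact absurd hpq' (key q hq p hp h1).ne'
  have hSM : J.card ≤ M1 := by
    refine le_trans ?_ h
    unfold T3r
    refine Finset.card_le_card fun s hs => ?_
    rw [Finset.mem_filter]
    have h1 := hJS s hs
    refine ⟨?_, s, h1, s, h1, le_rfl, le_rfl⟩
    have h2 : s = s + s - s := by ring
    rw [h2]
    exact Finset.sub_mem_sub (Finset.add_mem_add h1 h1) h1
  -- counting pairs of gaps
  have hA : ((J ×ˢ J).filter (fun p => γ p.1 < γ p.2)).card ≤ μ * W.card := by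
    refine Finset.card_le_mul_card_image_of_maps_to (f := fun p : ℝ × ℝ => (p.2, γ p.1)) ?_ μ ?_
    · intro p hp
      rw [Finset.mem_filter, Finset.mem_product] at hp
      rw [hW, Finset.mem_filter, Finset.mem_product]
      exact ⟨⟨hp.1.2, Finset.mem_image_of_mem _ hp.1.1⟩, hp.2⟩
    · intro b hb
      rw [hW, Finset.mem_filter, Finset.mem_product, Finset.mem_image] at hb
      obtain ⟨⟨hb1, i, hi, hb2⟩, -⟩ := hb
      refine le_trans ?_ (hmax' i hi)
      refine Finset.card_le_card_of_injOn (fun p => p.1) ?_ ?_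
      · intro p hp
        rw [Finset.mem_coe, Finset.mem_filter, Finset.mem_filter, Finset.mem_product] at hp
        rw [Finset.mem_coe, Finset.mem_filter, hb2]
        exact ⟨hp.1.1.1, congrArg Prod.snd hp.2⟩
      · intro p hp q hq hpq
        rw [Finset.mem_coe, Finset.mem_filter] at hp hq
        refine Prod.ext hpq ?_
        have h1 : p.2 = b.1 := congrArg Prod.fst hp.2
        have h2 : q.2 = b.1 := congrArg Prod.fst hq.2
        rw [h1, h2]
  have hB : ((J ×ˢ J).filter (fun p => γ p.1 = γ p.2)).card ≤ μ * J.card := by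
    refine Finset.card_le_mul_card_image_of_maps_to (f := fun p : ℝ × ℝ => p.2) ?_ μ ?_
    · intro p hp
      rw [Finset.mem_filter, Finset.mem_product] at hp
      exact hp.1.2
    · intro b hb
      refine le_trans ?_ (hmax' b hb)
      refine Finset.card_le_card_of_injOn (fun p => p.1) ?_ ?_
      · intro p hp
        rw [Finset.mem_coe, Finset.mem_filter, Finset.mem_filter, Finset.mem_product] at hp
        rw [Finset.mem_coe, Finset.mem_filter]
        refine ⟨hp.1.1.1, ?_⟩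
        rw [← hp.2]
        exact hp.1.2
      · intro p hp q hq hpq
        rw [Finset.mem_coe, Finset.mem_filter] at hp hq
        exact Prod.ext hpq (hp.2.trans hq.2.symm)
  have hC : ((J ×ˢ J).filter (fun p => γ p.2 < γ p.1)).card =
      ((J ×ˢ J).filter (fun p => γ p.1 < γ p.2)).card := by
    refine Finset.card_bij (fun p _ => (p.2, p.1)) ?_ ?_ ?_
    · intro p hp
      rw [Finset.mem_filter, Finset.mem_product] at hp ⊢
      exact ⟨⟨hp.1.2, hp.1.1⟩, hp.2⟩
    · intro p _ q _ hpq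
      exact Prod.ext (congrArg Prod.snd hpq) (congrArg Prod.fst hpq)
    · intro q hq
      rw [Finset.mem_filter, Finset.mem_product] at hq
      refine ⟨(q.2, q.1), ?_, rfl⟩
      rw [Finset.mem_filter, Finset.mem_product]
      exact ⟨⟨hq.1.2, hq.1.1⟩, hq.2⟩
  have hT : (J ×ˢ J).card ≤ ((J ×ˢ J).filter (fun p => γ p.1 < γ p.2)).card +
      (((J ×ˢ J).filter (fun p => γ p.1 = γ p.2)).card +
        ((J ×ˢ J).filter (fun p => γ p.2 < γ p.1)).card) := by
    refine le_trans (Finset.card_le_card ?_) ((Finset.card_union_le _ _).trans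
      (Nat.add_le_add_left (Finset.card_union_le _ _) _))
    intro p hp
    rw [Finset.mem_union, Finset.mem_union, Finset.mem_filter, Finset.mem_filter, Finset.mem_filter]
    rcases lt_trichotomy (γ p.1) (γ p.2) with h1 | h1 | h1
    · exact Or.inl ⟨hp, h1⟩
    · exact Or.inr (Or.inl ⟨hp, h1⟩)
    · exact Or.inr (Or.inr ⟨hp, h1⟩)
  rw [Finset.card_product, hC] at hT
  rw [← hJc, sq]
  have h1 : μ * W.card ≤ μ * M1 := Nat.mul_le_mul_left _ hWc
  have h2 : μ * J.card ≤ μ * M1 := Nat.mul_le_mul_left _ hSM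
  have h3 : J.card * J.card ≤ 3 * (μ * M1) := by omega
  calc J.card * J.card ≤ 3 * (μ * M1) := h3
    _ ≤ 6 * M1 * μ := by nlinarith
    _ ≤ _ := Nat.mul_le_mul_left _ hμ1

end Pool.Agent.H3.LC
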